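import Pool.Agent.P.MP_54474a_lc.OR.Iface

/-!
Assembly of the bijection from the two matchings.
-/

namespace Pool.Agent.P.MP_54474a_lc.OR

open Set Filter Topology

namespace Asmx

/-- The image of a set under a matching. -/
def Im (R : (Bool → Pt) → Prop) (c : Bool) (O : Set Pt) : Set Pt :=
  {z | ∃ y, R y ∧ y c ∈ O ∧ y (!c) = z}

variable {R : (Bool → Pt) → Prop}

theorem isOpen_Im (hex : ∀ c z, ∃ y, R y ∧ y c = z)
    (hc : ∀ y, R y → ∀ c L, ∃ L', ∀ y', R y' → y' (!c) ∈ cyl (seg (y (!c)) L') →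
      y' c ∈ cyl (seg (y c) L)) (c : Bool) {O : Set Pt} (hO : IsOpen O) : IsOpen (Im R c O) := by
  rw [isOpen_iff_mem_nhds]
  rintro _ ⟨y, hy, hyO, rfl⟩
  obtain ⟨L, hL⟩ := mem_nhds_iff_cyl.1 (hO.mem_nhds hyO)
  obtain ⟨L', hL'⟩ := hc y hy c L
  refine mem_nhds_iff_cyl.2 ⟨L', fun z hz => ?_⟩
  obtain ⟨y', hy', rfl⟩ := hex (!c) z
  exact ⟨y', hy', hL (hL' y' hy' hz), rfl⟩

theorem compl_Im (hex : ∀ c z, ∃ y, R y ∧ y c = z)
    (hu : ∀ y y' c, R y → R y' → y c = y' c → y = y') (c : Bool) (O : Set Pt) :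
    (Im R c O)ᶜ = Im R c Oᶜ := by
  ext z
  constructor
  · intro hz
    obtain ⟨y, hy, rfl⟩ := hex (!c) z
    exact ⟨y, hy, fun h => hz ⟨y, hy, h, rfl⟩, rfl⟩
  · rintro ⟨y, hy, h, rfl⟩ ⟨y', hy', h', e⟩
    obtain rfl := hu y' y _ hy' hy e
    exact h h'

theorem exists_equiv (hex : ∀ c z, ∃ y, R y ∧ y c = z)
    (hu : ∀ y y' c, R y → R y' → y c = y' c → y = y') :
    ∃ H : Pt ≃ Pt, (∀ O, H '' O = Im R false O) ∧ ∀ O, H.symm '' O = Im R true O := by
  choose g hg hgc using hex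
  have key : ∀ c y, R y → g c (y c) = y := fun c y hy => hu _ _ c (hg _ _) hy (hgc _ _)
  have him : ∀ c O, (fun z => g c z (!c)) '' O = Im R c O := by
    intro c O
    ext z
    constructor
    · rintro ⟨w, hw, rfl⟩
      exact ⟨g c w, hg _ _, (hgc c w).symm ▸ hw, rfl⟩
    · rintro ⟨y, hy, h, rfl⟩
      exact ⟨y c, h, by simp only [key c y hy]⟩
  refine ⟨⟨fun z => g false z true, fun z => g true z false, fun z => ?_, fun z => ?_⟩,
    him false, him true⟩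
  · show g true (g false z true) false = z
    rw [key true _ (hg false z), hgc]
  · show g false (g true z false) true = z
    rw [key false _ (hg true z), hgc]

end Asmx

open Asmx in
theorem p_ASM (hMP : S_MP) (hLOC : S_LOC) : S_ASM := by
  intro I f M hG hM hA hB
  obtain ⟨hpe, hpu⟩ := hMP I f hG
  set R : (Bool → Pt) → Prop := fun y => M y ∨ I.Mp f y with hR
  have hex : ∀ c z, ∃ y, R y ∧ y c = z := by
    intro c z
    by_cases hz : z ∈ I.P c
    · obtain ⟨y, hy, e⟩ := hpe c z hz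
      exact ⟨y, Or.inr hy, e⟩
    · obtain ⟨y, hy, e⟩ := hM.ex c z hz
      exact ⟨y, Or.inl hy, e⟩
  have hu : ∀ y y' c, R y → R y' → y c = y' c → y = y' := by
    rintro y y' c (hy | hy) (hy' | hy') e
    · exact hM.uniq y y' c hy hy' e
    · exact (hM.out y hy c (e ▸ hy'.1 c)).elim
    · exact (hM.out y' hy' c (e ▸ hy.1 c)).elim
    · exact hpu y y' c hy hy' e
  have hc : ∀ y, R y → ∀ c L, ∃ L', ∀ y', R y' → y' (!c) ∈ cyl (seg (y (!c)) L') →
      y' c ∈ cyl (seg (y c) L) := by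
    rintro y (hy | hy) c L
    · obtain ⟨L1, h1⟩ := hM.cont y hy c L
      obtain ⟨L2, h2⟩ := exists_cyl_disjoint (I.isClosed_P (!c)) (hM.out y hy (!c))
      refine ⟨max L1 L2, ?_⟩
      rintro y' (hy' | hy') h
      · exact h1 y' hy' (cyl_seg_anti _ (le_max_left _ _) h)
      · exact (h2 (cyl_seg_anti _ (le_max_right _ _) h) (hy'.1 _)).elim
    · exact hLOC I f M hG hM hA y hy c L
  have hce : ∀ c O, CeO O → CeO (Im R c O) := by
    intro c O hO
    obtain ⟨C, hC, hCO, hPC⟩ := I.thin c O hO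
    obtain ⟨e, rfl⟩ := I.exists_W hO
    have h1 : IsClopen (Im R c C) := by
      refine ⟨?_, isOpen_Im hex hc c hC.isOpen⟩
      rw [← isOpen_compl_iff, compl_Im hex hu]
      exact isOpen_Im hex hc c hC.compl.isOpen
    have h2 : Im R c (I.W e) = Im R c C ∪ {z | ∃ y, M y ∧ y c ∈ I.W e ∧ y (!c) = z} := by
      ext z
      constructor
      · rintro ⟨y, hy | hy, h, rfl⟩
        · exact Or.inr ⟨y, hy, h, rfl⟩
        · exact Or.inl ⟨y, Or.inr hy, hPC ⟨hy.1 c, h⟩, rfl⟩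
      · rintro (⟨y, hy, h, rfl⟩ | ⟨y, hy, h, rfl⟩)
        · exact ⟨y, hy, hCO h, rfl⟩
        · exact ⟨y, Or.inl hy, h, rfl⟩
    rw [h2]
    exact (ceo_of_isClopen h1).union (hB e c)
  obtain ⟨H, h1, h2⟩ := exists_equiv hex hu
  refine ⟨H, ?_, fun O hO => h1 O ▸ hce false O hO, fun O hO => h2 O ▸ hce true O hO⟩
  rw [h1]
  ext z
  constructor
  · rintro ⟨y, hy | hy, h, rfl⟩
    · exact (hM.out y hy false h).elim
    · exact hy.1 _
  · intro hz
    obtain ⟨y, hy, rfl⟩ := hpe true z hz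
    exact ⟨y, Or.inr hy, hy.1 _, rfl⟩

end Pool.Agent.P.MP_54474a_lc.OR
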