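import Pool.Agent.P.MP_54474a_lc.OR.Iface

namespace Pool.Agent.P.MP_54474a_lc.OR

open Set Filter Topology

namespace Autx

theorem img (H : Pt ≃ Pt) (h : ∀ O, CeO O → CeO (H '' O)) {A : Set Pt} (hA : IsPi01 A) :
    IsPi01 (H '' A) := by
  have := h Aᶜ (by rwa [CeO, compl_compl])
  rwa [CeO, image_compl_eq H.bijective, compl_compl] at this

end Autx

open Autx in
theorem p_AUT : S_AUT := by
  intro P Q
  refine ⟨?_, ?_⟩
  · rintro ⟨H, h1, h2, h3⟩
    exact ⟨⟨⟨fun A => ⟨H '' A.1, img H h2 A.2⟩, fun A => ⟨H.symm '' A.1, img H.symm h3 A.2⟩,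
      fun A => Subtype.ext (H.symm_image_image _), fun A => Subtype.ext (H.image_symm_image _)⟩,
      fun {A B} => image_subset_image_iff H.injective⟩, Subtype.ext h1⟩
  · rintro k ⟨Φ, rfl⟩ ⟨-, h2, h3, h4⟩
    obtain ⟨h, H⟩ := exists_homeo Φ
    refine ⟨(Φ P).2, ?_, ?_, fun O hO => ?_⟩
    · rw [H]
      exact h2.image h
    · rw [H, ← image_derivedSet, h.injective.encard_image, h3]
    · obtain ⟨C, c1, c2⟩ := h4 (h.symm '' O) (by
        rw [CeO, ← image_compl_eq h.symm.bijective]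
        exact isPi01_image (symm_induced H) hO)
      refine ⟨h '' C, ⟨h.isClosed_image.2 c1.1, h.isOpen_image.2 c1.2⟩, ?_⟩
      rw [H, ← image_inter h.injective, ← c2, image_inter h.injective, h.image_closure,
        ← image_comp, h.self_comp_symm, image_id]

theorem p_FINB : S_FINB := by
  intro P F x n hP hd hF hor
  have hc : ∀ σ, IsClopen (cyl σ) := fun σ => ⟨isClosed_cyl σ, isOpen_cyl σ⟩
  have h1 : ∀ y : Pt, ∃ N, y ∈ P \ cyl (seg x n) → ∀ z ∈ P, z ∈ cyl (seg y N) → z = y := by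
    intro y
    by_cases hy : y ∈ derivedSet P
    · exact ⟨0, fun h => absurd (hd hy ▸ self_mem_cyl x n) h.2⟩
    · rw [accPt_iff_cyl] at hy
      push Not at hy
      obtain ⟨N, hN⟩ := hy
      exact ⟨N, fun _ => hN⟩
  choose N hN using h1
  have hK : (P \ cyl (seg x n)).Finite := by
    obtain ⟨t, t1, t2⟩ := (hP.sdiff (isOpen_cyl (seg x n))).isCompact.elim_nhds_subcover
      (fun y => cyl (seg y (N y))) fun y _ => (isOpen_cyl _).mem_nhds (self_mem_cyl _ _)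
    refine t.finite_toSet.subset fun z hz => ?_
    obtain ⟨y, hy, h⟩ := mem_iUnion₂.1 (t2 hz)
    exact hN y (t1 y hy) z hz.1 h ▸ hy
  have hC : IsClopen (⋃ y ∈ (P \ cyl (seg x n)) ∩ F, cyl (seg y (N y))) :=
    (hK.inter_of_left F).isClopen_biUnion fun y _ => hc _
  have h2 : ∀ z ∈ P, z ∈ (⋃ y ∈ (P \ cyl (seg x n)) ∩ F, cyl (seg y (N y))) → z ∈ F := by
    intro z hz h
    obtain ⟨y, hy, h⟩ := mem_iUnion₂.1 h
    exact hN y hy.1 z hz h ▸ hy.2
  have h3 : ∀ z ∈ F, z ∉ cyl (seg x n) → z ∈ ⋃ y ∈ (P \ cyl (seg x n)) ∩ F, cyl (seg y (N y)) :=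
    fun z hz h => mem_iUnion₂.2 ⟨z, ⟨⟨hF hz, h⟩, hz⟩, self_mem_cyl _ _⟩
  rcases hor with h | h
  · refine ⟨_, (hc (seg x n)).union hC, Subset.antisymm (fun z hz => ⟨hF hz, ?_⟩) ?_⟩
    · exact or_iff_not_imp_left.2 (h3 z hz)
    · exact fun z hz => hz.2.elim (fun a => h ⟨hz.1, a⟩) (h2 z hz.1)
  · exact ⟨_, hC, Subset.antisymm (fun z hz => ⟨hF hz, h3 z hz fun a => h ⟨hF hz, a⟩ hz⟩)
      fun z hz => h2 z hz.1 hz.2⟩

end Pool.Agent.P.MP_54474a_lc.OR
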