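import Pool.Agent.P.MP_54474a_lc.OR.Defs

namespace Pool.Agent.P.MP_54474a_lc.OR

open Set Filter Topology

/-! ### Nodes -/

theorem up_prefix (t : ℕ) (β : Node) : up t β <+: β := List.take_prefix _ _
@[simp] theorem up_zero (β : Node) : up 0 β = β := by simp [up]
@[simp] theorem up_nil (t : ℕ) : up t [] = [] := by simp [up]
@[simp] theorem up_length (t : ℕ) (β : Node) : (up t β).length = β.length - t := by simp [up]
@[simp] theorem up_concat (δ : Node) (i : ℕ) : up 1 (δ ++ [i]) = δ := by simp [up]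
@[simp] theorem last_concat (δ : Node) (i : ℕ) : last (δ ++ [i]) = i := by simp [last]
theorem up_up (a b : ℕ) (β : Node) : up a (up b β) = up (a + b) β := by
  simp only [up, List.take_take, List.length_take]; congr 1; omega
theorem up_anti {a b : ℕ} (h : a ≤ b) (β : Node) : up b β <+: up a β := by
  obtain ⟨c, rfl⟩ := Nat.exists_eq_add_of_le' h
  rw [← up_up]; exact up_prefix _ _
theorem up_append_last {β : Node} (h : β ≠ []) : up 1 β ++ [last β] = β := by
  obtain ⟨δ, i, rfl⟩ := (List.eq_nil_or_concat' β).resolve_left h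
  simp
theorem up_ne {β : Node} (h : β ≠ []) {t : ℕ} (ht : 0 < t) : up t β ≠ β := by
  intro e
  have h1 := congrArg List.length e
  have h2 := List.length_pos_iff.2 h
  simp at h1; omega
theorem last_mem {β : Node} (h : β ≠ []) : last β ∈ β := by
  obtain ⟨δ, i, rfl⟩ := (List.eq_nil_or_concat' β).resolve_left h
  simp
theorem prefix_up {γ β : Node} (h : γ <+: β) {t : ℕ} (hl : γ.length + t ≤ β.length) :
    γ <+: up t β :=
  List.prefix_of_prefix_length_le h (up_prefix _ _) (by simp; omega)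
theorem prefix_concat_of_ne {γ β : Node} (h : γ <+: β) (hne : γ ≠ β) : ∃ i, γ ++ [i] <+: β := by
  obtain ⟨l, rfl⟩ := h
  cases l with
  | nil => simp at hne
  | cons i l => exact ⟨i, l, by simp⟩

theorem lf_cons {i j : ℕ} {l l' : Node} : Lf (i :: l) (j :: l') ↔ i < j ∨ (i = j ∧ Lf l l') := by
  constructor
  · rintro ⟨α, a, b, m, m', h, h1, h2⟩
    cases α with
    | nil => simp at h1 h2; left; omega
    | cons c α =>
      simp at h1 h2
      exact Or.inr ⟨by omega, α, a, b, m, m', h, h1.2, h2.2⟩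
  · rintro (h | ⟨rfl, α, a, b, m, m', h, rfl, rfl⟩)
    · exact ⟨[], i, j, l, l', h, rfl, rfl⟩
    · exact ⟨i :: α, a, b, m, m', h, rfl, rfl⟩
@[simp] theorem not_lf_nil_left (γ : Node) : ¬ Lf [] γ := by
  rintro ⟨α, i, j, l, l', -, h, -⟩; simp at h
@[simp] theorem not_lf_nil_right (β : Node) : ¬ Lf β [] := by
  rintro ⟨α, i, j, l, l', -, -, h⟩; simp at h
theorem Lf.mono {β γ β' γ' : Node} (h : Lf β γ) (h1 : β <+: β') (h2 : γ <+: γ') : Lf β' γ' := by
  obtain ⟨α, i, j, l, l', h, rfl, rfl⟩ := h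
  obtain ⟨a, rfl⟩ := h1
  obtain ⟨b, rfl⟩ := h2
  exact ⟨α, i, j, l ++ a, l' ++ b, h, by simp, by simp⟩
theorem Lf.irrefl (β : Node) : ¬ Lf β β := by
  induction β with
  | nil => simp
  | cons i l ih => simp [lf_cons, ih]
theorem Lf.trans {β γ δ : Node} (h : Lf β γ) (h' : Lf γ δ) : Lf β δ := by
  induction β generalizing γ δ with
  | nil => simp at h
  | cons i l ih =>
    cases γ with
    | nil => simp at h
    | cons j l' =>
      cases δ with
      | nil => simp at h'
      | cons n l'' =>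
        rw [lf_cons] at *
        rcases h with h | ⟨rfl, h⟩ <;> rcases h' with h' | ⟨rfl, h'⟩
        · left; omega
        · left; exact h
        · left; exact h'
        · right; exact ⟨rfl, ih h h'⟩
theorem Lf.asymm {β γ : Node} (h : Lf β γ) : ¬ Lf γ β := fun h' => Lf.irrefl _ (h.trans h')
theorem Lf.not_prefix {β γ : Node} (h : Lf β γ) : ¬ β <+: γ := fun h' =>
  Lf.irrefl _ (h.mono h' List.prefix_rfl)
theorem Lf.not_prefix' {β γ : Node} (h : Lf β γ) : ¬ γ <+: β := fun h' =>
  Lf.irrefl _ (h.mono List.prefix_rfl h')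
theorem node_cases (β γ : Node) : β <+: γ ∨ γ <+: β ∨ Lf β γ ∨ Lf γ β := by
  induction β generalizing γ with
  | nil => simp
  | cons i l ih =>
    cases γ with
    | nil => simp
    | cons j l' =>
      simp only [List.cons_prefix_cons, lf_cons]
      rcases lt_trichotomy i j with h | rfl | h
      · simp [h]
      · simpa using ih l'
      · simp [h]
theorem Lf.of_prefix_right {β γ δ : Node} (h : Lf β γ) (h' : δ <+: γ) : Lf β δ ∨ δ <+: β := by
  rcases node_cases β δ with h1 | h1 | h1 | h1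
  · exact (h.not_prefix (h1.trans h')).elim
  · exact Or.inr h1
  · exact Or.inl h1
  · exact (h.asymm (h1.mono h' List.prefix_rfl)).elim
theorem Lf.of_prefix_left {β γ δ : Node} (h : Lf β γ) (h' : δ <+: β) : Lf δ γ ∨ δ <+: γ := by
  rcases node_cases δ γ with h1 | h1 | h1 | h1
  · exact Or.inr h1
  · exact (h.not_prefix' (h1.trans h')).elim
  · exact Or.inl h1
  · exact (h.asymm (h1.mono List.prefix_rfl h')).elim
theorem lf_sibling {δ : Node} {i j : ℕ} (h : i < j) : Lf (δ ++ [i]) (δ ++ [j]) :=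
  ⟨δ, i, j, [], [], h, rfl, rfl⟩
theorem lf_concat_iff {γ δ : Node} {i : ℕ} :
    Lf γ (δ ++ [i]) ↔ Lf γ δ ∨ ∃ j, j < i ∧ δ ++ [j] <+: γ := by
  constructor
  · intro h
    rcases h.of_prefix_right (List.prefix_append δ [i]) with h1 | h1
    · exact Or.inl h1
    · obtain ⟨j, hj⟩ := prefix_concat_of_ne h1 (by
        rintro rfl; exact h.not_prefix (List.prefix_append _ _))
      refine Or.inr ⟨j, ?_, hj⟩
      rcases lt_trichotomy j i with h2 | rfl | h2
      · exact h2
      · exact (h.not_prefix' hj).elim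
      · exact (h.asymm ((lf_sibling h2).mono List.prefix_rfl hj)).elim
  · rintro (h | ⟨j, hj, h⟩)
    · exact h.mono List.prefix_rfl (List.prefix_append _ _)
    · exact (lf_sibling hj).mono h List.prefix_rfl
theorem Hi.irrefl (β : Node) : ¬ Hi β β := by simp [Hi, Lf.irrefl]
theorem Hi.trans {β γ δ : Node} (h : Hi β γ) (h' : Hi γ δ) : Hi β δ := by
  rcases h with h | ⟨h, hn⟩ <;> rcases h' with h' | ⟨h', hn'⟩
  · exact Or.inl (h.trans h')
  · rcases h.of_prefix_right h' with h1 | h1
    · exact Or.inl h1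
    · exact Or.inr ⟨h1, by rintro rfl; exact h.not_prefix h'⟩
  · exact Or.inl (h'.mono h List.prefix_rfl)
  · refine Or.inr ⟨h'.trans h, ?_⟩
    rintro rfl
    exact hn (h.eq_of_length_le h'.length_le)
/-- If `β` does not have priority over `γ`, then `γ` extends `β` or is to the left of `β`. -/
theorem not_hi {β γ : Node} (h : ¬ Hi β γ) : β <+: γ ∨ Lf γ β := by
  rcases node_cases β γ with h1 | h1 | h1 | h1
  · exact Or.inl h1
  · by_cases e : γ = β
    · exact Or.inl (e ▸ List.prefix_rfl)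
    · exact (h (Or.inr ⟨h1, e⟩)).elim
  · exact (h (Or.inl h1)).elim
  · exact Or.inr h1

theorem cp_prefix_left (β γ : Node) : cp β γ <+: β := by
  induction β generalizing γ with
  | nil => simp [cp]
  | cons i l ih =>
    cases γ with
    | nil => simp [cp]
    | cons j l' => by_cases h : i = j <;> simp [cp, h, ih]
theorem cp_prefix_right (β γ : Node) : cp β γ <+: γ := by
  induction β generalizing γ with
  | nil => simp [cp]
  | cons i l ih =>
    cases γ with
    | nil => simp [cp]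
    | cons j l' => by_cases h : i = j <;> simp [cp, h, ih]
theorem prefix_cp {δ β γ : Node} (h : δ <+: β) (h' : δ <+: γ) : δ <+: cp β γ := by
  induction δ generalizing β γ with
  | nil => simp
  | cons i l ih =>
    obtain ⟨a, rfl⟩ := h
    obtain ⟨b, rfl⟩ := h'
    simp [cp, ih]

@[simp] theorem fn_zero (f : ℕ → ℕ) : fn f 0 = [] := rfl
theorem fn_succ (f : ℕ → ℕ) (n : ℕ) : fn f (n + 1) = fn f n ++ [f n] := by
  simp [fn, List.range_succ]
@[simp] theorem fn_length (f : ℕ → ℕ) (n : ℕ) : (fn f n).length = n := by simp [fn]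
theorem fn_take (f : ℕ → ℕ) {m n : ℕ} (h : m ≤ n) : (fn f n).take m = fn f m := by
  simp [fn, ← List.map_take, List.take_range, min_eq_left h]
theorem fn_prefix (f : ℕ → ℕ) {m n : ℕ} (h : m ≤ n) : fn f m <+: fn f n := by
  rw [← fn_take f h]; exact List.take_prefix _ _
theorem prefix_fn {f : ℕ → ℕ} {n : ℕ} {γ : Node} (h : γ <+: fn f n) : γ = fn f γ.length := by
  have h1 := h.length_le
  rw [fn_length] at h1
  rw [← fn_take f h1]; exact List.prefix_iff_eq_take.1 h
@[simp] theorem up_fn (f : ℕ → ℕ) (t n : ℕ) : up t (fn f n) = fn f (n - t) := by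
  rw [up, fn_length, fn_take f (Nat.sub_le _ _)]
@[simp] theorem last_fn (f : ℕ → ℕ) (n : ℕ) : last (fn f (n + 1)) = f n := by simp [fn_succ]
theorem fn_ne_nil (f : ℕ → ℕ) (n : ℕ) : fn f (n + 1) ≠ [] := by simp [fn_succ]
theorem mem_fn {f : ℕ → ℕ} {n i : ℕ} : i ∈ fn f n ↔ ∃ j, j < n ∧ f j = i := by simp [fn]

/-! ### Pairs -/

theorem pair_ext {p q : Pair} (h : ∀ c, pc p c = pc q c) (h' : lab p = lab q) : p = q :=
  Prod.ext (h false) (Prod.ext (h true) h')
theorem lab_eq (p : Pair) : lab p = (loc p, tag p) := rfl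
theorem loc_of_lab {p : Pair} {l : Node × ℕ} (h : lab p = l) : loc p = l.1 := by rw [← h]; rfl
theorem tag_of_lab {p : Pair} {l : Node × ℕ} (h : lab p = l) : tag p = l.2 := by rw [← h]; rfl
theorem base_of_lab {p : Pair} {l : Node × ℕ} (h : lab p = l) : base p = up l.2 l.1 := by
  rw [← h]; rfl
theorem base_prefix (p : Pair) : base p <+: loc p := up_prefix _ _
theorem pc_eq (p : Pair) (c : Bool) : pc p c = (pd p c, pr p c) := rfl
@[simp] theorem pd_sub (p : Pair) (w : Str) (c : Bool) : pd (sub p w) c = pd p c := by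
  cases c <;> rfl
@[simp] theorem pr_sub (p : Pair) (w : Str) (c : Bool) : pr (sub p w) c = pr p c ++ w := by
  cases c <;> rfl
@[simp] theorem lab_sub (p : Pair) (w : Str) : lab (sub p w) = lab p := rfl
@[simp] theorem loc_sub (p : Pair) (w : Str) : loc (sub p w) = loc p := rfl
@[simp] theorem tag_sub (p : Pair) (w : Str) : tag (sub p w) = tag p := rfl
@[simp] theorem base_sub (p : Pair) (w : Str) : base (sub p w) = base p := rfl
@[simp] theorem sub_sub (p : Pair) (w w' : Str) : sub (sub p w) w' = sub p (w ++ w') := by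
  simp [sub]
@[simp] theorem sub_nil (p : Pair) : sub p [] = p := by simp [sub]
@[simp] theorem pc_mkp (a : Bool) (x y : ℕ × Str) (l : Node × ℕ) : pc (mkp a x y l) a = x := by
  cases a <;> rfl
@[simp] theorem pc_mkp_not (a : Bool) (x y : ℕ × Str) (l : Node × ℕ) :
    pc (mkp a x y l) (!a) = y := by cases a <;> rfl
@[simp] theorem lab_mkp (a : Bool) (x y : ℕ × Str) (l : Node × ℕ) : lab (mkp a x y l) = l := by
  cases a <;> rfl
@[simp] theorem pc_rel (β : Node) (p : Pair) (c : Bool) : pc (rel β p) c = pc p c := by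
  unfold rel; split_ifs <;> cases c <;> rfl
@[simp] theorem pd_rel (β : Node) (p : Pair) (c : Bool) : pd (rel β p) c = pd p c := by
  simp [pd]
@[simp] theorem pr_rel (β : Node) (p : Pair) (c : Bool) : pr (rel β p) c = pr p c := by
  simp [pr]
theorem rel_of_not {β : Node} {p : Pair} (h : ¬ Lf β (loc p)) : rel β p = p := by simp [rel, h]
theorem lab_rel_of {β : Node} {p : Pair} (h : Lf β (loc p)) :
    lab (rel β p) = (cp (base p) β, 0) := by simp [rel, h, lab]
theorem loc_rel_prefix (β : Node) (p : Pair) : loc (rel β p) <+: loc p := by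
  by_cases h : Lf β (loc p)
  · rw [loc_of_lab (lab_rel_of h)]; exact (cp_prefix_left _ _).trans (base_prefix p)
  · rw [rel_of_not h]
theorem base_rel_prefix (β : Node) (p : Pair) : base (rel β p) <+: base p := by
  by_cases h : Lf β (loc p)
  · rw [base_of_lab (lab_rel_of h)]; simpa using cp_prefix_left _ _
  · rw [rel_of_not h]
theorem bool_cases (a c : Bool) : c = a ∨ c = !a := by cases a <;> cases c <;> simp

namespace Dat
variable (D : Dat) (s : ℕ) (β : Node) (t : Pair)
@[simp] theorem pd_pA : pd (D.pA s β t) (D.side s β) = pd (D.sup s) (D.side s β) := by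
  simp [pA, pd]; exact pd_sub _ _ _
@[simp] theorem pr_pA :
    pr (D.pA s β t) (D.side s β) = pr (D.sup s) (D.side s β) ++ D.code s t := by
  simp [pA, pr]; exact pr_sub _ _ _
@[simp] theorem pd_pA_not : pd (D.pA s β t) (!D.side s β) = pd t (!D.side s β) := by
  simp [pA, pd]
@[simp] theorem pr_pA_not : pr (D.pA s β t) (!D.side s β) = pr t (!D.side s β) := by
  simp [pA, pr]
@[simp] theorem lab_pA : lab (D.pA s β t) = (β, if D.jj s β = 0 then 0 else 1) := by simp [pA]
@[simp] theorem pd_pB : pd (D.pB s β t) (D.side s β) = pd t (D.side s β) := by simp [pB, pd]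
@[simp] theorem pr_pB : pr (D.pB s β t) (D.side s β) = pr t (D.side s β) := by simp [pB, pr]
@[simp] theorem pd_pB_not : pd (D.pB s β t) (!D.side s β) = pd (D.sup s) (!D.side s β) := by
  simp [pB, pd]; exact pd_sub _ _ _
@[simp] theorem pr_pB_not :
    pr (D.pB s β t) (!D.side s β) = pr (D.sup s) (!D.side s β) ++ D.code s t := by
  simp [pB, pr]; exact pr_sub _ _ _
@[simp] theorem lab_pB :
    lab (D.pB s β t) = if D.tau s β = 1 then (β, 2) else (up 3 β, 0) := by simp [pB]
theorem tau_cases : D.tau s β = 1 ∨ D.tau s β = 2 := by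
  unfold tau; cases (D.it (D.m s β)).1 <;> simp
theorem srv_prefix : D.srv s β <+: β := up_prefix _ _
theorem srv_ne {β : Node} (h : β ≠ []) : D.srv s β ≠ β :=
  up_ne h (by rcases D.tau_cases s β with h | h <;> omega)
variable {D s β t}
theorem Tgt.base_eq (h : D.Tgt s β t) : base t = D.srv s β := by
  rw [base_of_lab h.1]
  rcases D.tau_cases s β with e | e <;> simp [tlab, srv, e]
theorem Active.pre {γ : Node} (h : D.Active s β) (h' : γ <+: β) : D.Active s γ :=
  fun δ i hi => h δ i (hi.trans h')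
theorem active_nil : D.Active s [] := fun δ i hi => by simp at hi
theorem active_concat {i : ℕ} : D.Active s (β ++ [i]) ↔ D.Active s β ∧ i < D.m s β := by
  refine ⟨fun h => ⟨h.pre (List.prefix_append _ _), h β i List.prefix_rfl⟩, fun h δ j hj => ?_⟩
  rcases List.prefix_concat_iff.1 hj with e | e
  · obtain ⟨rfl, e'⟩ := List.append_inj' e rfl
    obtain rfl : j = i := by simpa using e'
    exact h.2
  · exact h.1 δ j e
theorem Can.active (h : D.Can s β) : D.Active s β := h.elim (·.1) (·.1)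
theorem Ok.active (ok : D.Ok) (h : D.act s = some β) : D.Active s β := (ok.act_some s β h).1.active
theorem Ok.canA (ok : D.Ok) (h : D.act s = some β) (h' : ¬ D.CanS s β) : D.CanA s β :=
  (ok.act_some s β h).1.resolve_left h'
/-- If `β` can act, then the node that acts extends `β` or is to the left of `β`. -/
theorem Ok.actor (ok : D.Ok) (h : D.Can s β) :
    ∃ γ, D.act s = some γ ∧ (β <+: γ ∨ Lf γ β) := by
  cases e : D.act s with
  | none => exact (ok.act_none s e β h).elim
  | some γ => exact ⟨γ, rfl, not_hi ((ok.act_some s γ e).2 β h)⟩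
theorem Calm.mono {s' : ℕ} (h : D.Calm s β) (h' : s ≤ s') : D.Calm s' β :=
  fun t ht => h t (h'.trans ht)
theorem Calm.pre {γ : Node} (h : D.Calm s β) (h' : γ <+: β) : D.Calm s γ :=
  fun t ht δ hδ hl => h t ht δ hδ (hl.mono List.prefix_rfl h')
theorem Still.mono {s' : ℕ} (h : D.Still s β) (h' : s ≤ s') : D.Still s' β :=
  fun t ht => h t (h'.trans ht)
end Dat

/-! ### Cylinders -/

theorem seg_prefix (y : Pt) {m n : ℕ} (h : m ≤ n) : seg y m <+: seg y n := by
  rw [← seg_take_le y h]; exact List.take_prefix _ _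
theorem prefix_seg {σ : Str} {y : Pt} (h : y ∈ cyl σ) {n : ℕ} (hn : σ.length ≤ n) :
    σ <+: seg y n := by
  rw [← show seg y σ.length = σ from h]; exact seg_prefix y (by simpa using hn)
theorem cyl_anti {σ τ : Str} (h : σ <+: τ) : cyl τ ⊆ cyl σ := fun _ hy =>
  mem_cyl_of_take (List.prefix_iff_eq_take.1 h).symm hy
theorem mem_cyl_of_prefix_seg {σ : Str} {y : Pt} {n : ℕ} (h : σ <+: seg y n) : y ∈ cyl σ :=
  cyl_anti h (self_mem_cyl y n)
theorem prefix_of_mem {σ τ : Str} {y : Pt} (h : y ∈ cyl σ) (h' : y ∈ cyl τ)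
    (hl : σ.length ≤ τ.length) : σ <+: τ := by
  rw [← show seg y τ.length = τ from h']; exact prefix_seg h hl
theorem seg_prefix_of_mem {σ : Str} {y : Pt} (h : y ∈ cyl σ) {n : ℕ} (hn : n ≤ σ.length) :
    seg y n <+: σ := prefix_of_mem (self_mem_cyl y n) h (by simpa using hn)
theorem exists_ext {σ : Str} {y : Pt} (h : y ∈ cyl σ) (n : ℕ) :
    ∃ w : Str, w.length = n ∧ y ∈ cyl (σ ++ w) := by
  obtain ⟨w, hw⟩ := prefix_seg h (Nat.le_add_right σ.length n)
  refine ⟨w, ?_, hw ▸ self_mem_cyl y _⟩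
  have := congrArg List.length hw
  simpa using this
theorem ext_unique {σ w w' : Str} {y : Pt} (h : y ∈ cyl (σ ++ w)) (h' : y ∈ cyl (σ ++ w'))
    (hl : w.length = w'.length) : w = w' :=
  List.append_cancel_left ((prefix_of_mem h h' (by simp [hl])).eq_of_length (by simp [hl]))
theorem isClopen_cyl (σ : Str) : IsClopen (cyl σ) := ⟨isClosed_cyl σ, isOpen_cyl σ⟩
theorem mem_closure_iff_cyl {O : Set Pt} {y : Pt} :
    y ∈ closure O ↔ ∀ n, ∃ z ∈ O, z ∈ cyl (seg y n) := by
  rw [mem_closure_iff_nhds]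
  constructor
  · intro h n
    obtain ⟨z, h1, h2⟩ := h _ ((isOpen_cyl _).mem_nhds (self_mem_cyl y n))
    exact ⟨z, h2, h1⟩
  · intro h t ht
    obtain ⟨n, hn⟩ := mem_nhds_iff_cyl.1 ht
    obtain ⟨z, h1, h2⟩ := h n
    exact ⟨z, hn h2, h1⟩
theorem isClopen_of_seg (n : ℕ) (R : Str → Prop) : IsClopen {y : Pt | R (seg y n)} := by
  have key : ∀ R : Str → Prop, IsOpen {y : Pt | R (seg y n)} := fun R =>
    isOpen_iff_mem_nhds.2 fun y hy => mem_nhds_iff_cyl.2 ⟨n, fun z hz => by
      have : seg z n = seg y n := seg_eq_iff.2 (mem_cyl_seg.1 hz)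
      simpa [this] using hy⟩
  exact ⟨⟨key fun σ => ¬ R σ⟩, key R⟩

theorem cat_mem_cyl (σ : Str) (z : Pt) : cat σ z ∈ cyl σ := by
  apply List.ext_getElem (by simp)
  intro i h1 h2
  simp [seg, cat, h2, List.getD_eq_getElem?_getD]
theorem cat_add (σ : Str) (z : Pt) (i : ℕ) : cat σ z (σ.length + i) = z i := by simp [cat]
theorem cat_inj {σ : Str} {z z' : Pt} (h : cat σ z = cat σ z') : z = z' := by
  funext i; rw [← cat_add σ z, h, cat_add]
theorem exists_cat {σ : Str} {y : Pt} (h : y ∈ cyl σ) : ∃ z, y = cat σ z := by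
  refine ⟨fun i => y (σ.length + i), funext fun i => ?_⟩
  unfold cat
  split_ifs with hi
  · rw [← show seg y σ.length = σ from h]; exact (seg_getD y (by simpa using hi)).symm
  · congr 1; omega
theorem cat_append (σ w : Str) (z : Pt) : cat (σ ++ w) z = cat σ (cat w z) := by
  funext i
  simp only [cat, List.length_append, List.getD_eq_getElem?_getD]
  by_cases h1 : i < σ.length
  · simp [h1, show i < σ.length + w.length by omega]
  · by_cases h2 : i < σ.length + w.length
    · simp [h1, h2, show i - σ.length < w.length by omega,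
        List.getElem_append_right (show σ.length ≤ i by omega)]
    · simp [h1, h2, show ¬ i - σ.length < w.length by omega, Nat.sub_sub]
theorem cat_mem_cyl_append {σ w : Str} {z : Pt} : cat σ z ∈ cyl (σ ++ w) ↔ z ∈ cyl w := by
  constructor
  · intro h
    obtain ⟨z', hz⟩ := exists_cat h
    rw [cat_append] at hz
    rw [cat_inj hz]; exact cat_mem_cyl _ _
  · intro h
    obtain ⟨z', rfl⟩ := exists_cat h
    rw [← cat_append]; exact cat_mem_cyl _ _

/-! ### Effectively open sets -/

theorem ceo_of_sig {R : Str → Prop} (h : Sig R) : CeO {y | ∃ σ, R σ ∧ y ∈ cyl σ} := by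
  unfold CeO
  convert isPi01_of_sig h using 1
  ext y
  simp only [mem_compl_iff, mem_ofPred_eq, not_exists, not_and]
  exact ⟨fun H n hn => H _ hn (self_mem_cyl y n),
    fun H σ hσ hy => H σ.length (by rwa [show seg y σ.length = σ from hy])⟩
theorem CeO.exists_sig {O : Set Pt} (h : CeO O) :
    ∃ R, Sig R ∧ O = {y | ∃ σ, R σ ∧ y ∈ cyl σ} := by
  obtain ⟨R, hR, e⟩ := IsPi01.exists_sig h
  refine ⟨R, hR, compl_injective ?_⟩
  rw [e]; ext y
  simp only [mem_compl_iff, mem_ofPred_eq, not_exists, not_and]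
  exact ⟨fun H σ hσ hy => H σ.length (by rwa [show seg y σ.length = σ from hy]),
    fun H n hn => H _ hn (self_mem_cyl y n)⟩
theorem CeO.isOpen {O : Set Pt} (h : CeO O) : IsOpen O :=
  isClosed_compl_iff.1 (IsPi01.isClosed h)
theorem CeO.union {O O' : Set Pt} (h : CeO O) (h' : CeO O') : CeO (O ∪ O') := by
  unfold CeO; rw [compl_union]; exact IsPi01.inter h h'
theorem CeO.inter {O O' : Set Pt} (h : CeO O) (h' : CeO O') : CeO (O ∩ O') := by
  unfold CeO; rw [compl_inter]; exact IsPi01.union h h'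
theorem ceo_empty : CeO ∅ := by unfold CeO; rw [compl_empty]; exact isPi01_univ
theorem ceo_cyl (σ : Str) : CeO (cyl σ) := isPi01_compl_cyl σ
theorem ceo_of_isClopen {C : Set Pt} (h : IsClopen C) : CeO C := by
  classical
  have h1 : ∀ y ∈ C, ∃ n, cyl (seg y n) ⊆ C := fun y hy =>
    mem_nhds_iff_cyl.1 (h.isOpen.mem_nhds hy)
  choose! n hn using h1
  obtain ⟨t, ht, hc⟩ := h.isClosed.isCompact.elim_nhds_subcover (fun y => cyl (seg y (n y)))
    fun y _ => (isOpen_cyl _).mem_nhds (self_mem_cyl _ _)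
  have h2 : C = ⋃ y ∈ t, cyl (seg y (n y)) :=
    Subset.antisymm hc (iUnion₂_subset fun y hy => hn y (ht y hy))
  rw [h2]
  clear h2 hc ht
  induction t using Finset.induction_on with
  | empty => simpa using ceo_empty
  | insert a t _ ih => rw [Finset.set_biUnion_insert]; exact (ceo_cyl _).union ih
theorem isPi01_of_isClopen {C : Set Pt} (h : IsClopen C) : IsPi01 C := by
  have := ceo_of_isClopen h.compl
  rwa [CeO, compl_compl] at this

/-! ### Cells and states -/

namespace Inp
variable (I : Inp)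

@[simp] theorem pd_new (s : ℕ) (z : Str) (c : Bool) : pd (I.new s z) c = s := by cases c <;> rfl
@[simp] theorem pr_new (s : ℕ) (z : Str) (c : Bool) : pr (I.new s z) c = I.u c s ++ z := by
  cases c <;> rfl
@[simp] theorem lab_new (s : ℕ) (z : Str) : lab (I.new s z) = ([], 0) := rfl
theorem isClosed_P (a : Bool) : IsClosed (I.P a) := by
  have : I.P a = paths fun σ => I.T a σ = true := Set.ext fun y => I.T_path a y
  rw [this]; exact isClosed_paths _
theorem cell_of_mem {i : ℕ} (a : Bool) {ρ : Str} {y : Pt} (h : y ∈ cyl ρ) (hi : i ≤ ρ.length) :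
    I.cell i a ρ = I.cellP i a y :=
  I.cell_dec i a _ _ (by simp) (seg_prefix_of_mem h hi)
theorem cell_seg {i n : ℕ} (a : Bool) (y : Pt) (hi : i ≤ n) :
    I.cell i a (seg y n) = I.cellP i a y := I.cell_of_mem a (self_mem_cyl y n) (by simpa using hi)
theorem cellP_congr {i n : ℕ} (a : Bool) {y z : Pt} (h : z ∈ cyl (seg y n)) (hi : i ≤ n) :
    I.cellP i a z = I.cellP i a y := by
  rw [← I.cell_of_mem a h (by simpa using hi), I.cell_seg a y hi]
theorem inB_iff {α : Node} (a : Bool) {ρ : Str} {y : Pt} (h : y ∈ cyl ρ)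
    (hi : ∀ i ∈ α, i ≤ ρ.length) : I.inB α a ρ ↔ y ∈ I.bP α a :=
  forall₂_congr fun i h' => by rw [I.cell_of_mem a h (hi i h')]
theorem bP_congr {α : Node} {n : ℕ} (a : Bool) {y z : Pt} (h : z ∈ cyl (seg y n))
    (hi : ∀ i ∈ α, i ≤ n) : z ∈ I.bP α a ↔ y ∈ I.bP α a :=
  forall₂_congr fun i h' => by rw [I.cellP_congr a h (hi i h')]
variable {I} in
theorem inB.pre {α β : Node} {a : Bool} {ρ : Str} (h : I.inB β a ρ) (h' : α <+: β) :
    I.inB α a ρ := fun i hi => h i (h'.subset hi)
variable {I} in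
theorem inB.ext {α : Node} {a : Bool} {ρ ρ' : Str} (h : I.inB α a ρ) (h' : ρ <+: ρ')
    (hi : ∀ i ∈ α, i ≤ ρ.length) : I.inB α a ρ' := fun i h1 => by
  rw [I.cell_dec i a ρ ρ' (hi i h1) h', h i h1]
theorem inB_concat {α : Node} {i : ℕ} {a : Bool} {ρ : Str} :
    I.inB (α ++ [i]) a ρ ↔ I.inB α a ρ ∧ I.cell i a ρ = 0 := by
  simp [inB, or_imp, forall_and]
theorem bP_anti {α β : Node} (h : α <+: β) (a : Bool) : I.bP β a ⊆ I.bP α a :=
  fun _ hy i hi => hy i (h.subset hi)
@[simp] theorem bP_nil (a : Bool) : I.bP [] a = univ := by simp [bP]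
theorem bP_concat {α : Node} {i : ℕ} {a : Bool} {y : Pt} :
    y ∈ I.bP (α ++ [i]) a ↔ y ∈ I.bP α a ∧ I.cellP i a y = 0 := by
  simp [bP, or_imp, forall_and]
theorem isClopen_cell (i : ℕ) (a : Bool) (j : ℕ) : IsClopen {y | I.cellP i a y = j} :=
  isClopen_of_seg i fun σ => I.cell i a σ = j
theorem isClopen_bP (α : Node) (a : Bool) : IsClopen (I.bP α a) := by
  induction α using List.reverseRecOn with
  | nil => simpa using isClopen_univ
  | append_singleton α i ih =>
    convert ih.inter (I.isClopen_cell i a 0) using 1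
    ext y; exact I.bP_concat
theorem alive_of_pt {β : Node} {a : Bool} {z : Pt} {s : ℕ} (hs : ∀ i ∈ up 1 β, i ≤ s)
    (hl : last β ≤ s) (hz : z ∈ I.P a) (hb : z ∈ I.bP (up 1 β) a) :
    I.Alive s β a (I.cellP (last β) a z) :=
  ⟨seg z s, by simp, (I.T_path a z).1 hz s,
    (I.inB_iff a (self_mem_cyl z s) (by simpa using hs)).2 hb, I.cell_seg a z hl⟩
theorem pt_of_alive {β : Node} {a : Bool} {j : ℕ} (h : ∀ M, ∃ s, M ≤ s ∧ I.Alive s β a j) :
    ∃ z ∈ I.P a, z ∈ I.bP (up 1 β) a ∧ I.cellP (last β) a z = j := by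
  by_contra hc
  push Not at hc
  obtain ⟨n, hn⟩ := exists_level (T := fun σ => I.T a σ = true) (I.T_tree a)
    ((I.isClopen_bP (up 1 β) a).inter (I.isClopen_cell (last β) a j)).isClosed
    fun z hz hp => hc z ((I.T_path a z).2 hp) hz.1 hz.2
  obtain ⟨s, hs, ρ, rfl, h2, h3, h4⟩ := h (n + (up 1 β).sum + last β)
  have h5 : ∀ i ∈ up 1 β, i ≤ ρ.length := fun i hi => by
    have := List.single_le_sum (l := up 1 β) (fun _ _ => Nat.zero_le _) i hi
    omega
  refine hn (pt ρ) ⟨(I.inB_iff a (pt_mem_cyl ρ) h5).1 h3, ?_⟩ ?_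
  · exact (I.cell_of_mem a (pt_mem_cyl ρ) (by omega)).symm.trans h4
  · have := I.T_tree a ρ n h2
    rwa [← seg_pt ρ, seg_take_le _ (by omega)] at this
@[simp] theorem St_length (s N : ℕ) (p : Pair) : (I.St s N p).length = N := by simp [St]
@[simp] theorem St_rel (s N : ℕ) (β : Node) (p : Pair) : I.St s N (rel β p) = I.St s N p := by
  simp [St]
theorem St_eq_iff {s s' N : ℕ} {p q : Pair} : I.St s N p = I.St s' N q ↔ ∀ n < N,
    I.inW s (n / 2) (pr p (n + 1).bodd) = I.inW s' (n / 2) (pr q (n + 1).bodd) := by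
  simp [St]
theorem mem_W_of_inW {s e : ℕ} {σ : Str} {y : Pt} (h : I.inW s e σ = true) (hy : y ∈ cyl σ) :
    y ∈ I.W e :=
  ⟨s + σ.length, I.W_mono _ _ e _ _ (by omega) (prefix_seg hy (by omega)) h⟩
theorem exists_W {O : Set Pt} (h : CeO O) : ∃ e, O = I.W e := by
  obtain ⟨e, he⟩ := I.W_univ O h
  exact ⟨e, Set.ext he⟩
/-- Near a point of the class there are pieces of arbitrarily large index. -/
theorem exists_big_piece {a : Bool} {z : Pt} (hz : z ∈ I.P a) (M : ℕ) :
    ∃ L, ∀ y ∈ cyl (seg z L), ∀ n, y ∈ cyl (I.u a n) → M ≤ n := by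
  induction M with
  | zero => exact ⟨0, fun _ _ _ _ => Nat.zero_le _⟩
  | succ M ih =>
    obtain ⟨L, hL⟩ := ih
    have h1 : z ∉ cyl (I.u a M) := fun h => (I.u_cover a z).2 ⟨M, h⟩ hz
    obtain ⟨L', hL'⟩ := exists_cyl_disjoint (isClosed_cyl _) h1
    refine ⟨max L L', fun y hy n hn => ?_⟩
    have h2 := hL y (cyl_seg_anti z (le_max_left _ _) hy) n hn
    rcases h2.eq_or_lt with rfl | h3
    · exact (hL' (cyl_seg_anti z (le_max_right _ _) hy) hn).elim
    · exact h3

end Inp

end Pool.Agent.P.MP_54474a_lc.OR
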