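import Pool.Agent.P.MP_54474a_lc.OR.Iface

/-!
The invariant of the pairs whose bit is set.
-/

namespace Pool.Agent.P.MP_54474a_lc.OR

open Set Filter Topology

namespace Binvx

theorem pre_rel {α β : Node} {p : Pair} (h : α <+: base p) (hl : ¬ Lf β α) :
    α <+: base (rel β p) := by
  by_cases h1 : Lf β (loc p)
  · rw [base_of_lab (lab_rel_of h1), up_zero]
    exact prefix_cp h ((h1.of_prefix_right (h.trans (base_prefix p))).resolve_left hl)
  · rwa [rel_of_not h1]

variable (D : Dat) (s : ℕ) (β : Node) (t : Pair)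

theorem srv_pA : D.srv s β <+: base (D.pA s β t) := by
  rw [base_of_lab (D.lab_pA s β t)]
  refine up_anti ?_ β
  have := D.tau_cases s β
  dsimp only
  split_ifs <;> omega

theorem base_pB : base (D.pB s β t) = up 1 (D.srv s β) := by
  rw [base_of_lab (D.lab_pB s β t), Dat.srv, up_up]
  rcases D.tau_cases s β with h | h <;> simp [h]

theorem pr_pA (c : Bool) : pr (D.sup s) c <+: pr (D.pA s β t) c ∨ pr t c <+: pr (D.pA s β t) c := by
  rcases bool_cases (D.side s β) c with rfl | rfl <;> simp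

theorem pr_pB (c : Bool) : pr (D.sup s) c <+: pr (D.pB s β t) c ∨ pr t c <+: pr (D.pB s β t) c := by
  rcases bool_cases (D.side s β) c with rfl | rfl <;> simp

theorem side_eq {n : ℕ} (h : (D.srv s β).length = n + 1) : D.side s β = (n + 1).bodd := by
  rw [Dat.srv, up_length] at h
  rw [Dat.side, show β.length + D.tau s β = n + 1 + 2 * D.tau s β by omega]
  simp

end Binvx

theorem p_BINV (hTR : S_TR) : S_BINV := by
  intro D ok α n s p q hl hc hs hp hw
  rcases hTR D ok s _ p q hs with ⟨⟨w, -, rfl⟩, -⟩ | ⟨β, t, b, h1, h2, -, h3, h4⟩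
  · refine ⟨?_, D.W_mono _ _ _ _ _ (Nat.le_succ s) (by simp) hw⟩
    rw [base_sub]
    cases e : D.act s with
    | none => rwa [Dat.relo_none e]
    | some β =>
      rw [Dat.relo_some e]
      exact Binvx.pre_rel hp (hc s le_rfl β e)
  have hS := (ok.sup_mem s β h1 h2).2
  have a1 : p = D.sup s → α <+: up 1 (D.srv s β) := by
    rintro rfl
    have := Binvx.pre_rel hp (hc s le_rfl β h1)
    rwa [base_of_lab hS.1, up_zero] at this
  have a2 : p = t → α <+: D.srv s β := by
    rintro rfl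
    exact h3.base_eq ▸ hp
  have a3 : p = D.sup s ∨ p = t := by tauto
  have a4 : α <+: D.srv s β := a3.elim (fun e => (a1 e).trans (up_prefix _ _)) a2
  have a5 : n + 1 ≤ (D.srv s β).length := hl ▸ a4.length_le
  have a6 := D.St_eq_iff.1 (hS.2.2.1.trans h3.2.2.2.1.symm) n a5
  have a7 : ∀ r : Pair, pr (D.sup s) (n + 1).bodd <+: pr r (n + 1).bodd ∨
      pr t (n + 1).bodd <+: pr r (n + 1).bodd →
      D.inW (s + 1) (n / 2) (pr (sub r [b]) (n + 1).bodd) = true := by
    intro r hr
    have b1 : D.inW s (n / 2) (pr t (n + 1).bodd) = true := by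
      rcases a3 with rfl | rfl
      · exact a6 ▸ hw
      · exact hw
    rw [pr_sub]
    rcases hr with hr | hr
    · exact D.W_mono _ _ _ _ _ (Nat.le_succ s) (hr.trans (List.prefix_append _ _)) (a6.trans b1)
    · exact D.W_mono _ _ _ _ _ (Nat.le_succ s) (hr.trans (List.prefix_append _ _)) b1
  rcases h4 with ⟨rfl, -⟩ | ⟨rfl, h4⟩
  · exact ⟨a4.trans (Binvx.srv_pA D s β t), a7 _ (Binvx.pr_pA D s β t _)⟩
  · refine ⟨?_, a7 _ (Binvx.pr_pB D s β t _)⟩
    rw [base_sub, Binvx.base_pB]
    rcases h4 with ⟨h4, -⟩ | ⟨-, h4⟩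
    · refine prefix_up a4 (hl ▸ lt_of_le_of_ne a5 fun e => ?_)
      rw [Binvx.side_eq D s β e.symm] at h4
      simp at h4
    · exact a1 h4

end Pool.Agent.P.MP_54474a_lc.OR
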