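import Pool.Agent.P.MP_54474a_lc.OR.Iface

/-!
The final matching maps effectively open sets to effectively open sets.
-/

namespace Pool.Agent.P.MP_54474a_lc.OR

open Set Filter Topology

namespace Bluex

theorem desc (hINV : S_INV) (hCOV : S_COV) (hDESC : S_DESC) {D : Dat} (ok : D.Ok) {s t : ℕ}
    {p : Pair} {c : Bool} {y : Pt} (hp : D.Perm s p) (hst : s ≤ t) (hy : y ∈ cyl (pr p c)) :
    ∃ w, sub p w ∈ D.cfg t ∧ y ∈ cyl (pr p c ++ w) := by
  have hi := hINV D ok s p hp.1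
  obtain ⟨q, hq, hq'⟩ := hCOV D ok t c _ y ((hi.lt c).trans_le hst) (cyl_anti (hi.pre c) hy)
  obtain ⟨w, rfl⟩ := hp.2 t hst q hq c (hDESC D ok s t c hst p hp.1 q hq y hy hq').1
  exact ⟨w, hq, by simpa using hq'⟩

theorem fin {D : Dat} {s t e : ℕ} {p : Pair} {c : Bool} {w : Str} {z : Pt} (hp : D.Perm s p)
    (hW : D.inW t e (pr p c ++ w) = true) (hz : z ∈ cyl (pr p (!c) ++ w)) :
    ∃ y, D.Mt y ∧ y c ∈ D.W e ∧ y (!c) = z := by
  obtain ⟨z0, rfl⟩ := exists_cat (cyl_anti (List.prefix_append _ _) hz)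
  exact ⟨fun c' => cat (pr p c') z0, ⟨s, p, z0, hp, fun _ => rfl⟩,
    D.mem_W_of_inW hW (cat_mem_cyl_append.2 (cat_mem_cyl_append.1 hz)), rfl⟩

end Bluex

open Bluex in
theorem p_BLUE (hINV : S_INV) (hCOV : S_COV) (hUNQ : S_UNQ) (hDESC : S_DESC) (hPERM : S_PERM)
    (hUNIF : S_UNIF) (hSIG : S_SIG) (hGOOD : S_GOOD) (hBINV : S_BINV) (hTERM : S_TERM) :
    S_BLUE := by
  intro D ok f hf e c
  obtain ⟨n, rfl, rfl⟩ : ∃ n : ℕ, n / 2 = e ∧ (n + 1).bodd = c := by
    cases c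
    · exact ⟨2 * e + 1, by omega, by simp⟩
    · exact ⟨2 * e, by omega, by simp⟩
  obtain ⟨s1, -, hc, -⟩ := ok.live_ev (hf (n + 1)) 0
  obtain ⟨d0, hd0⟩ := hGOOD D ok f hf (n + 1)
  obtain ⟨s2, -, -, u2⟩ := hUNIF D ok d0
  obtain ⟨s3, -, u3, -⟩ := hUNIF D ok s2
  suffices h : {z | ∃ y, D.Mt y ∧ y (n + 1).bodd ∈ D.W (n / 2) ∧ y (!(n + 1).bodd) = z} =
      D.V (s1 + s3) (n / 2) (n + 1).bodd (fn f (n + 1)) s2 by
    rw [h]; exact (hSIG D ok).2 _ _ _ _ _
  generalize hcn : (n + 1).bodd = c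
  ext z
  constructor
  · rintro ⟨y, ⟨s, p, z0, hp, hy⟩, ⟨r, hr⟩, rfl⟩
    obtain ⟨w, hq, hw⟩ := desc hINV hCOV hDESC ok (t := s1 + s3 + s + r) (c := c) (y := y c) hp
      (by omega) (hy c ▸ cat_mem_cyl _ _)
    have hl := (hINV D ok _ _ hq).len c
    rw [pr_sub] at hl
    refine ⟨s1 + s3 + s + r, by omega, _, hq, ?_, ?_, ?_⟩
    · rw [pr_sub]
      exact D.W_mono _ _ _ _ _ (by omega) (seg_prefix_of_mem hw (by omega)) hr
    · simp only [base_sub, tag_sub, loc_sub, pd_sub]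
      by_cases h : pd p c ≤ s2
      · exact Or.inr (Or.inr h)
      · refine (hd0 s p hp fun c' => ?_).imp_right Or.inl
        by_contra h'
        exact h (u2 s p hp.1 c' c (by omega)).le
    · rw [pr_sub, hy]
      rw [hy] at hw
      exact cat_mem_cyl_append.2 (cat_mem_cyl_append.1 hw)
  · rintro ⟨s, hs, p, hp, hW, h | h | h, hz⟩
    · have hi := hINV D ok s p hp
      have hu := cyl_anti (hi.pre _) hz
      have key : ∀ t, s ≤ t → ∀ q ∈ D.cfg t, z ∈ cyl (pr q (!c)) →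
          fn f (n + 1) <+: base q ∧ D.inW t (n / 2) (pr q c) = true := by
        intro t ht
        induction t, ht using Nat.le_induction with
        | base =>
          intro q hq hq'
          obtain rfl := hUNQ D ok s _ p hp q hq z hz hq'
          exact ⟨h, hW⟩
        | succ t ht ih =>
          intro q hq hq'
          obtain ⟨q0, h0, h0'⟩ := hCOV D ok t _ _ z ((hi.lt _).trans_le ht) hu
          obtain ⟨a1, a2⟩ := ih q0 h0 h0'
          subst hcn
          exact hBINV D ok _ n t q0 q (fn_length _ _) (hc.mono (by omega))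
            ⟨h0, hq, (hDESC D ok t (t + 1) _ t.le_succ q0 h0 q hq z h0' hq').1⟩ a1 a2
      obtain ⟨s', p', hp', hz'⟩ := hPERM D ok _ _ z hu
      obtain ⟨w, hq, hw⟩ := desc hINV hCOV hDESC ok (t := s + s') hp' (by omega) hz'
      have := (key _ (by omega) _ hq (by rwa [pr_sub])).2
      rw [pr_sub] at this
      exact fin hp' this hw
    · exact fin (w := []) (hTERM D ok s p hp h.1 ((hc.mono (by omega)).pre h.2))
        (by simpa using hW) (by simpa using hz)
    · exact fin (w := []) (u3 s (by omega) p hp c h) (by simpa using hW) (by simpa using hz)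

end Pool.Agent.P.MP_54474a_lc.OR
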