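import Pool.Agent.P.MP_54474a_lc.OR.Iface

/-!
The root is live, and every live node has a live child.
-/

namespace Pool.Agent.P.MP_54474a_lc.OR

open Set Filter Topology

namespace Childx

theorem calm_concat {D : Dat} {t i : ℕ} {δ : Node} (hc : D.Calm t δ)
    (hs : ∀ j < i, D.Still t (δ ++ [j])) : D.Calm t (δ ++ [i]) := fun t' ht γ hγ hl => by
  rcases lf_concat_iff.1 hl with h | ⟨j, hj, h⟩
  · exact hc t' ht γ hγ h
  · exact hs j hj t' ht γ hγ h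

theorem still_all (hDICH : S_DICH) {D : Dat} (ok : D.Ok) {s : ℕ} {δ : Node} (hc : D.Calm s δ)
    (hn : ∀ i, ¬ D.Live (δ ++ [i])) (i : ℕ) : ∃ t, s ≤ t ∧ ∀ j < i, D.Still t (δ ++ [j]) := by
  induction i with
  | zero => exact ⟨s, le_rfl, fun j hj => absurd hj (Nat.not_lt_zero j)⟩
  | succ i ih =>
    obtain ⟨t, ht, h⟩ := ih
    obtain ⟨t', h'⟩ := (hDICH D ok t _ (calm_concat (hc.mono ht) h)).resolve_right (hn i)
    refine ⟨max t t', ht.trans (le_max_left _ _), fun j hj => ?_⟩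
    rcases Nat.lt_succ_iff_lt_or_eq.1 hj with h1 | rfl
    · exact (h j h1).mono (le_max_left _ _)
    · exact h'.mono (le_max_right _ _)

theorem exists_bound (hSIG : S_SIG) {D : Dat} (ok : D.Ok) (δ : Node) (N : ℕ) (a : Bool) :
    ∃ n, ∀ ν, (∃ y ∈ D.O δ N ν a, y ∈ cyl (seg (D.x a) n)) →
      ∀ z ∈ D.P a, z ∈ cyl (seg (D.x a) n) → z ∈ closure (D.O δ N ν a) := by
  have h1 : ∀ ν, ∃ n, (∃ y ∈ D.O δ N ν a, y ∈ cyl (seg (D.x a) n)) →
      ∀ z ∈ D.P a, z ∈ cyl (seg (D.x a) n) → z ∈ closure (D.O δ N ν a) := by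
    intro ν
    by_cases h : D.x a ∈ closure (D.O δ N ν a)
    · obtain ⟨n, hn⟩ := D.big a _ ((hSIG D ok).1 δ N ν a) h
      exact ⟨n, fun _ => hn⟩
    · obtain ⟨n, hn⟩ := not_forall.1 (mt mem_closure_iff_cyl.2 h)
      exact ⟨n, fun h' => (hn h').elim⟩
  choose n hn using h1
  refine ⟨(strs N).toFinset.sup n, fun ν ⟨y, hy, hy'⟩ z hz hz' => ?_⟩
  have h2 : n ν ≤ (strs N).toFinset.sup n := by
    obtain ⟨s, p, -, -, rfl, -⟩ := hy
    exact Finset.le_sup (List.mem_toFinset.2 (mem_strs.2 (D.St_length _ _ _)))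
  exact hn ν ⟨y, hy, cyl_seg_anti _ h2 hy'⟩ z hz (cyl_seg_anti _ h2 hz')

theorem needs (hCHK : S_CHK) {D : Dat} (ok : D.Ok) {δ : Node} {i s : ℕ} (hδ : D.Live δ)
    (hg : D.Geo (δ ++ [i])) (ha : D.Active s (δ ++ [i])) (hc : D.Calm s (δ ++ [i]))
    (hs : D.Still s (δ ++ [i])) (M : ℕ) :
    ∃ t, M ≤ t ∧ ∃ γ, D.Active t γ ∧ D.srv t γ = δ ++ [i] ∧ D.Need t γ := by
  have hp : D.srv s (δ ++ [i]) <+: δ := by
    have h1 : 1 ≤ D.tau s (δ ++ [i]) := by rcases D.tau_cases s (δ ++ [i]) with h | h <;> omega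
    simpa [Dat.srv] using up_anti h1 (δ ++ [i])
  obtain ⟨s3, h3⟩ := hCHK D.toInp _ (D.m s (δ ++ [i])) hg
  obtain ⟨s4, -, -, h4⟩ := ok.live_ev hδ (D.m s (δ ++ [i]) + 2)
  obtain ⟨t, ht, h5, h6, -⟩ := ok.live_acts (ok.live_pre hδ hp) (M + s + s3 + s4)
  have hst : s ≤ t := by omega
  have hm := (ok.frozen ha hc hs List.prefix_rfl hst).2.1
  have hat := (ok.calm ha hc hst).1
  have hsrv : D.srv t (δ ++ [i]) = D.srv s (δ ++ [i]) := by
    simp only [Dat.srv, Dat.tau, hm]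
  refine ⟨t, by omega, by_contra fun hn => ?_⟩
  refine ok.frozen_not_can hc hs List.prefix_rfl hst (Or.inr ⟨hat,
    (ok.canA h5 h6).2.2.2 _ hat hsrv, Or.inr ⟨?_, ?_⟩, fun γ a1 a2 a3 => hn ⟨γ, a1, a2, a3⟩⟩)
  · have := (h4 t (by omega)).2.2
    rw [up_concat]
    omega
  · rw [hm]
    exact h3 t (by omega)

end Childx

theorem p_ROOT (hCOV : S_COV) (hDICH : S_DICH) (hSTUCK : S_STUCK) : S_ROOT := by
  intro D ok
  have hc : ∀ s, D.Calm s [] := fun s t _ γ _ => not_lf_nil_right γ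
  refine (hDICH D ok 0 [] (hc 0)).resolve_left fun ⟨t, ht⟩ => ?_
  refine hSTUCK D ok [] t Dat.active_nil (hc t) ht (fun M => ?_) ?_
  · refine ⟨max M t, le_max_left _ _, by_contra fun hn => ?_⟩
    exact ok.frozen_not_can (hc t) ht List.prefix_rfl (le_max_right M t)
      (Or.inr ⟨Dat.active_nil, fun h => h.1 rfl, Or.inl rfl, fun γ a1 a2 a3 => hn ⟨γ, a1, a2, a3⟩⟩)
  · rintro a ν - ⟨y, ⟨s, p, -, -, rfl, -⟩, -⟩ z - -
    refine mem_closure_iff_cyl.2 fun n => ?_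
    obtain ⟨y', h1, h2⟩ := D.nd a (seg z n)
    obtain ⟨d, hd⟩ := (D.u_cover a y').1 h2
    obtain ⟨q, h3, h4⟩ := hCOV D ok (d + 1) a d y' (Nat.lt_succ_self d) hd
    exact ⟨y', ⟨d + 1, q, h3, by simp, rfl, h4⟩, h1⟩

theorem p_CHILD (hDICH : S_DICH) (hGEO : S_GEO) (hCHK : S_CHK) (hGUESS : S_GUESS) (hSIG : S_SIG)
    (hSTUCK : S_STUCK) : S_CHILD := by
  intro D ok δ hδ
  by_contra hn
  obtain ⟨n, hb⟩ := Childx.exists_bound hSIG ok δ (δ.length + 1) (δ.length + 1).bodd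
  obtain ⟨i, hg, hi⟩ := hGUESS D.toInp δ (δ.length + 1).bodd n (hGEO D ok δ hδ).2
  obtain ⟨s, -, hc, h1⟩ := ok.live_ev hδ (i + 1)
  obtain ⟨t, ht, h2⟩ := Childx.still_all hDICH ok hc (not_exists.1 hn) (i + 1)
  have ha : D.Active t (δ ++ [i]) := Dat.active_concat.2 ⟨(h1 t ht).1, (h1 t ht).2.2⟩
  have hc' := Childx.calm_concat (hc.mono ht) fun j (hj : j < i) => h2 j (by omega)
  have hs := h2 i (Nat.lt_succ_self i)
  refine hSTUCK D ok _ t ha hc' hs (Childx.needs hCHK ok hδ hg ha hc' hs) ?_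
  rintro a ν h3 ⟨y, h4, h5⟩ z h6 h7
  have hl : (δ ++ [i]).length = δ.length + 1 := by simp
  obtain rfl : a = (δ.length + 1).bodd := hl ▸ h3 (by simp)
  rw [up_concat, hl] at h4 ⊢
  exact hb ν ⟨y, h4, hi h5⟩ z h6 (hi h7)

end Pool.Agent.P.MP_54474a_lc.OR
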