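import Pool.Agent.P.MP_54474a_lc.OR.Iface

/-!
The pieces cover the enumerated cylinders and are pairwise disjoint.
-/

namespace Pool.Agent.P.MP_54474a_lc.OR

open Set Filter Topology

namespace Covx

variable {D : Dat} {s : ℕ} {β : Node}

/-- The swapped pair with the supply piece on side `c`. -/
def SA (D : Dat) (s : ℕ) (β : Node) (c : Bool) (t : Pair) : Pair :=
  if c = D.side s β then D.pA s β t else D.pB s β t

/-- The swapped pair with the target piece on side `c`. -/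
def TA (D : Dat) (s : ℕ) (β : Node) (c : Bool) (t : Pair) : Pair :=
  if c = D.side s β then D.pB s β t else D.pA s β t

theorem pr_SA (c : Bool) (t : Pair) : pr (SA D s β c t) c = pr (D.sup s) c ++ D.code s t := by
  rcases bool_cases (D.side s β) c with rfl | rfl <;> simp [SA]

theorem pr_TA (c : Bool) (t : Pair) : pr (TA D s β c t) c = pr t c := by
  rcases bool_cases (D.side s β) c with rfl | rfl <;> simp [TA]

theorem swap (c : Bool) (t q : Pair) :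
    (q = D.pA s β t ∨ q = D.pB s β t) ↔ (q = SA D s β c t ∨ q = TA D s β c t) := by
  unfold SA TA
  split_ifs
  · rfl
  · exact or_comm

theorem pr_new (c : Bool) (z : Str) : pr (D.new s z) c = D.u c s ++ z := by cases c <;> rfl

theorem mid_ex {c : Bool} {p : Pair} {y : Pt} (hp : p ∈ D.cfg s) (hy : y ∈ cyl (pr p c)) :
    ∃ q, D.Mid s q ∧ y ∈ cyl (pr q c) := by
  cases e : D.act s with
  | none => exact ⟨p, Or.inl ⟨e, hp⟩, hy⟩
  | some β =>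
    by_cases h : D.CanS s β
    swap
    · exact ⟨rel β p, Or.inr ⟨β, e, Or.inl ⟨h, p, hp, rfl⟩⟩, by rwa [pr_rel]⟩
    by_cases h1 : p = D.sup s
    · subst h1
      obtain ⟨w, hw, hy'⟩ := exists_ext hy (D.len s)
      by_cases h2 : ∃ t ∈ D.cfg s, D.Tgt s β t ∧ D.code s t = w
      · obtain ⟨t, ht, h3, rfl⟩ := h2
        exact ⟨SA D s β c t, Or.inr ⟨β, e, Or.inr ⟨h, Or.inr (Or.inr
          ⟨t, ht, h3, (swap c t _).2 (Or.inl rfl)⟩)⟩⟩, by rwa [pr_SA]⟩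
      · exact ⟨sub (rel β (D.sup s)) w, Or.inr ⟨β, e, Or.inr ⟨h, Or.inr (Or.inl
          ⟨w, hw, fun t ht h3 h4 => h2 ⟨t, ht, h3, h4⟩, rfl⟩)⟩⟩, by rwa [pr_sub, pr_rel]⟩
    by_cases h2 : D.Tgt s β p
    · exact ⟨TA D s β c p, Or.inr ⟨β, e, Or.inr ⟨h, Or.inr (Or.inr
        ⟨p, hp, h2, (swap c p _).2 (Or.inr rfl)⟩)⟩⟩, by rwa [pr_TA]⟩
    · exact ⟨rel β p, Or.inr ⟨β, e, Or.inr ⟨h, Or.inl ⟨p, hp, h1, h2, rfl⟩⟩⟩, by rwa [pr_rel]⟩

theorem mid_src (ok : D.Ok) (c : Bool) {q : Pair} (h : D.Mid s q) :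
    ∃ r ∈ D.cfg s, pr r c <+: pr q c := by
  rcases h with ⟨-, h⟩ | ⟨β, e, ⟨-, p, hp, rfl⟩ | ⟨h, ⟨p, hp, -, -, rfl⟩ | ⟨w, -, -, rfl⟩ |
    ⟨t, ht, -, h1⟩⟩⟩
  · exact ⟨q, h, List.prefix_rfl⟩
  · exact ⟨p, hp, by rw [pr_rel]⟩
  · exact ⟨p, hp, by rw [pr_rel]⟩
  · exact ⟨_, (ok.sup_mem s β e h).1, by rw [pr_sub, pr_rel]; exact List.prefix_append _ _⟩
  · rcases (swap c t q).1 h1 with rfl | rfl
    · exact ⟨_, (ok.sup_mem s β e h).1, by rw [pr_SA]; exact List.prefix_append _ _⟩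
    · exact ⟨t, ht, by rw [pr_TA]⟩

theorem mid_serve (c : Bool) {q : Pair} {y : Pt} (e : D.act s = some β) (hc : D.CanS s β)
    (h : D.Mid s q) (hy : y ∈ cyl (pr q c)) :
    (∃ p ∈ D.cfg s, p ≠ D.sup s ∧ ¬ D.Tgt s β p ∧ q = rel β p ∧ y ∈ cyl (pr p c)) ∨
    (∃ w : Str, w.length = D.len s ∧ (∀ t ∈ D.cfg s, D.Tgt s β t → D.code s t ≠ w) ∧
      q = sub (rel β (D.sup s)) w ∧ y ∈ cyl (pr (D.sup s) c ++ w)) ∨
    (∃ t ∈ D.cfg s, D.Tgt s β t ∧ q = SA D s β c t ∧ y ∈ cyl (pr (D.sup s) c ++ D.code s t)) ∨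
    ∃ t ∈ D.cfg s, D.Tgt s β t ∧ q = TA D s β c t ∧ y ∈ cyl (pr t c) := by
  rcases h with ⟨h, -⟩ | ⟨γ, e', h⟩
  · simp [e] at h
  obtain rfl : β = γ := by simpa [e] using e'
  rcases h with ⟨h, -⟩ | ⟨-, ⟨p, hp, h1, h2, rfl⟩ | ⟨w, h1, h2, rfl⟩ | ⟨t, ht, h2, h1⟩⟩
  · exact (h hc).elim
  · exact Or.inl ⟨p, hp, h1, h2, rfl, by rwa [pr_rel] at hy⟩
  · exact Or.inr (Or.inl ⟨w, h1, h2, rfl, by rwa [pr_sub, pr_rel] at hy⟩)
  · rcases (swap c t q).1 h1 with rfl | rfl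
    · exact Or.inr (Or.inr (Or.inl ⟨t, ht, h2, rfl, by rwa [pr_SA] at hy⟩))
    · exact Or.inr (Or.inr (Or.inr ⟨t, ht, h2, rfl, by rwa [pr_TA] at hy⟩))

theorem mid_uniq (ok : D.Ok) {c : Bool} {y : Pt}
    (ih : ∀ p ∈ D.cfg s, ∀ q ∈ D.cfg s, y ∈ cyl (pr p c) → y ∈ cyl (pr q c) → p = q)
    {q q' : Pair} (h : D.Mid s q) (h' : D.Mid s q') (hy : y ∈ cyl (pr q c))
    (hy' : y ∈ cyl (pr q' c)) : q = q' := by
  cases e : D.act s with
  | none =>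
    have key : ∀ r, D.Mid s r → r ∈ D.cfg s := by
      rintro r (⟨-, h⟩ | ⟨γ, h, -⟩)
      · exact h
      · simp [e] at h
    exact ih q (key q h) q' (key q' h') hy hy'
  | some β =>
    by_cases hc : D.CanS s β
    swap
    · have key : ∀ r, D.Mid s r → ∃ p ∈ D.cfg s, r = rel β p := by
        rintro r (⟨h, -⟩ | ⟨γ, e', h⟩)
        · simp [e] at h
        obtain rfl : β = γ := by simpa [e] using e'
        rcases h with ⟨-, h⟩ | ⟨h, -⟩
        · exact h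
        · exact (hc h).elim
      obtain ⟨p, hp, rfl⟩ := key q h
      obtain ⟨p', hp', rfl⟩ := key q' h'
      rw [pr_rel] at hy hy'
      rw [ih p hp p' hp' hy hy']
    obtain ⟨hs, hs'⟩ := ok.sup_mem s β e hc
    have hn := ok.not_tgt_sup hc.1 hs'
    have sp : ∀ p ∈ D.cfg s, ∀ w, y ∈ cyl (pr p c) → y ∈ cyl (pr (D.sup s) c ++ w) →
        p = D.sup s := fun p hp w a b => ih p hp _ hs a (cyl_anti (List.prefix_append _ _) b)
    have cl := ok.code_len s β e hc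
    rcases mid_serve c e hc h hy with ⟨p, a1, a2, a3, rfl, a4⟩ | ⟨w, a1, a2, rfl, a4⟩ |
      ⟨t, a1, a2, rfl, a4⟩ | ⟨t, a1, a2, rfl, a4⟩ <;>
    rcases mid_serve c e hc h' hy' with ⟨p', b1, b2, b3, rfl, b4⟩ | ⟨w', b1, b2, rfl, b4⟩ |
      ⟨t', b1, b2, rfl, b4⟩ | ⟨t', b1, b2, rfl, b4⟩
    · rw [ih p a1 p' b1 a4 b4]
    · exact (a2 (sp p a1 _ a4 b4)).elim
    · exact (a2 (sp p a1 _ a4 b4)).elim
    · exact (a3 (ih p a1 t' b1 a4 b4 ▸ b2)).elim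
    · exact (b2 (sp p' b1 _ b4 a4)).elim
    · rw [ext_unique a4 b4 (a1.trans b1.symm)]
    · exact (a2 t' b1 b2 (ext_unique b4 a4 ((cl t' b1 b2).trans a1.symm))).elim
    · exact (hn (sp t' b1 _ b4 a4 ▸ b2)).elim
    · exact (b2 (sp p' b1 _ b4 a4)).elim
    · exact (b2 t a1 a2 (ext_unique a4 b4 ((cl t a1 a2).trans b1.symm))).elim
    · rw [ok.code_inj s β e hc t a1 t' b1 a2 b2
        (ext_unique a4 b4 ((cl t a1 a2).trans (cl t' b1 b2).symm))]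
    · exact (hn (sp t' b1 _ b4 a4 ▸ b2)).elim
    · exact (b3 (ih t a1 p' b1 a4 b4 ▸ a2)).elim
    · exact (hn (sp t a1 _ a4 b4 ▸ a2)).elim
    · exact (hn (sp t a1 _ a4 b4 ▸ a2)).elim
    · rw [ih t a1 t' b1 a4 b4]

end Covx

open Covx in
theorem p_COV : S_COV := by
  intro D ok s c d y
  induction s with
  | zero => exact fun h => absurd h (Nat.not_lt_zero d)
  | succ s ih =>
    intro hd hy
    rcases (Nat.lt_succ_iff.1 hd).eq_or_lt with rfl | hd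
    · obtain ⟨z, hz, hy'⟩ := exists_ext hy (d + 1)
      exact ⟨D.new d z, (ok.cfgS d _).2 (Or.inr ⟨z, hz, rfl⟩), by rwa [pr_new]⟩
    · obtain ⟨p, hp, hy1⟩ := ih hd hy
      obtain ⟨q, hq, hy2⟩ := mid_ex hp hy1
      obtain ⟨w, hw, hy3⟩ := exists_ext hy2 1
      obtain ⟨b, rfl⟩ := List.length_eq_one_iff.1 hw
      exact ⟨sub q [b], (ok.cfgS s _).2 (Or.inl ⟨q, b, hq, rfl⟩), by rwa [pr_sub]⟩

open Covx in
theorem p_UNQ (hINV : S_INV) : S_UNQ := by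
  intro D ok s c
  induction s with
  | zero => intro p hp; simp [ok.cfg0] at hp
  | succ s ih =>
    have key : ∀ (q : Pair) (b : Bool) (z : Str) (y : Pt), D.Mid s q →
        y ∈ cyl (pr (sub q [b]) c) → y ∈ cyl (pr (D.new s z) c) → False := by
      intro q b z y hq h1 h2
      obtain ⟨r, hr, h3⟩ := mid_src ok c hq
      rw [pr_sub] at h1
      rw [pr_new] at h2
      have h4 := hINV D ok s r hr
      exact (h4.lt c).ne (D.u_disj c _ _ y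
        (cyl_anti (((h4.pre c).trans h3).trans (List.prefix_append _ _)) h1)
        (cyl_anti (List.prefix_append _ _) h2))
    intro p hp q hq y h1 h2
    rcases (ok.cfgS s p).1 hp with ⟨p0, b, hp0, rfl⟩ | ⟨z, hz, rfl⟩ <;>
    rcases (ok.cfgS s q).1 hq with ⟨q0, b', hq0, rfl⟩ | ⟨z', hz', rfl⟩
    · rw [pr_sub] at h1 h2
      obtain rfl : p0 = q0 := mid_uniq ok (fun p hp q hq => ih p hp q hq y) hp0 hq0
        (cyl_anti (List.prefix_append _ _) h1) (cyl_anti (List.prefix_append _ _) h2)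
      rw [ext_unique h1 h2 rfl]
    · exact (key p0 b z' y hp0 h1 h2).elim
    · exact (key q0 b' z y hq0 h2 h1).elim
    · rw [pr_new] at h1 h2
      rw [ext_unique h1 h2 (hz.trans hz'.symm)]

end Pool.Agent.P.MP_54474a_lc.OR
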