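import Pool.Agent.P.MP_54474a_lc.OR.Iface

/-!
Decidable predicates and the computability of the operations on nodes and pairs.
-/

namespace Pool.Agent.P.MP_54474a_lc.OR.Impl

open Set Pool.Agent.Lib.Helper43

attribute [local irreducible] Computable

variable {α β γ : Type} [Primcodable α] [Primcodable β] [Primcodable γ]

/-- The truth value of a proposition. -/
noncomputable def tv (p : Prop) : Bool := @decide p (Classical.propDecidable p)

@[simp] theorem tv_eq_true {p : Prop} : tv p = true ↔ p := by simp [tv]
@[simp] theorem tv_eq_false {p : Prop} : tv p = false ↔ ¬ p := by simp [tv]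

def Dec (p : α → Prop) : Prop := Computable fun a => tv (p a)

theorem Dec.of_bool {p : α → Prop} {f : α → Bool} (hf : Computable f)
    (h : ∀ a, f a = true ↔ p a) : Dec p :=
  hf.of_eq fun a => by rw [Bool.eq_iff_iff, h, tv_eq_true]

theorem Dec.of_iff {p q : α → Prop} (h : Dec p) (H : ∀ a, p a ↔ q a) : Dec q :=
  Dec.of_bool h fun a => by simp [H]

theorem Dec.comp {p : β → Prop} (h : Dec p) {f : α → β} (hf : Computable f) :
    Dec fun a => p (f a) := CFP.comp (f := fun b => tv (p b)) h hf

theorem Dec.and {p q : α → Prop} (hp : Dec p) (hq : Dec q) : Dec fun a => p a ∧ q a :=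
  Dec.of_bool (CFP.and hp hq) (by simp)

theorem Dec.or {p q : α → Prop} (hp : Dec p) (hq : Dec q) : Dec fun a => p a ∨ q a :=
  Dec.of_bool (CFP.or hp hq) (by simp)

theorem Dec.not {p : α → Prop} (hp : Dec p) : Dec fun a => ¬ p a :=
  Dec.of_bool (CFP.not hp) (by simp)

theorem Dec.imp {p q : α → Prop} (hp : Dec p) (hq : Dec q) : Dec fun a => p a → q a :=
  (hp.not.or hq).of_iff fun _ => imp_iff_not_or.symm

theorem Dec.eq {f g : α → β} (hf : Computable f) (hg : Computable g) : Dec fun a => f a = g a :=
  CFP.decEq hf hg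

theorem Dec.ne {f g : α → β} (hf : Computable f) (hg : Computable g) : Dec fun a => f a ≠ g a :=
  (Dec.eq hf hg).not

theorem Dec.lt {f g : α → ℕ} (hf : Computable f) (hg : Computable g) : Dec fun a => f a < g a :=
  CFP.decLt hf hg

theorem Dec.le {f g : α → ℕ} (hf : Computable f) (hg : Computable g) : Dec fun a => f a ≤ g a :=
  CFP.decLe hf hg

theorem Dec.ball {l : α → List β} {p : α → β → Prop} (hl : Computable l)
    (hp : Dec fun q : α × β => p q.1 q.2) : Dec fun a => ∀ x ∈ l a, p a x :=
  Dec.of_bool (CFP.all (g := fun a x => tv (p a x)) hp hl) (by simp)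

theorem Dec.bex {l : α → List β} {p : α → β → Prop} (hl : Computable l)
    (hp : Dec fun q : α × β => p q.1 q.2) : Dec fun a => ∃ x ∈ l a, p a x :=
  Dec.of_bool (CFP.any (g := fun a x => tv (p a x)) hp hl) (by simp)

theorem Dec.allB {p : α → Bool → Prop} (hp : Dec fun q : α × Bool => p q.1 q.2) :
    Dec fun a => ∀ c, p a c :=
  (Dec.ball (l := fun _ => [false, true]) (by fun_prop) hp).of_iff (by simp)

theorem Dec.exB {p : α → Bool → Prop} (hp : Dec fun q : α × Bool => p q.1 q.2) :
    Dec fun a => ∃ c, p a c :=
  (Dec.bex (l := fun _ => [false, true]) (by fun_prop) hp).of_iff (by simp)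

theorem Dec.allS {n : α → ℕ} {p : α → Str → Prop} (hn : Computable n)
    (hp : Dec fun q : α × Str => p q.1 q.2) : Dec fun a => ∀ ρ : Str, ρ.length = n a → p a ρ :=
  (Dec.ball (l := fun a => strs (n a)) (by fun_prop) hp).of_iff (by simp [mem_strs])

theorem Dec.exS {n : α → ℕ} {p : α → Str → Prop} (hn : Computable n)
    (hp : Dec fun q : α × Str => p q.1 q.2) : Dec fun a => ∃ ρ : Str, ρ.length = n a ∧ p a ρ :=
  (Dec.bex (l := fun a => strs (n a)) (by fun_prop) hp).of_iff (by simp [mem_strs])

theorem Dec.ite {p : α → Prop} (hp : Dec p) {inst : ∀ a, Decidable (p a)} {f g : α → β}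
    (hf : Computable f) (hg : Computable g) :
    Computable fun a => @_root_.ite _ (p a) (inst a) (f a) (g a) :=
  (CFP.cond hp hf hg).of_eq fun a => by by_cases h : p a <;> simp [h, tv]

theorem Dec.pre {f g : α → List β} (hf : Computable f) (hg : Computable g) :
    Dec fun a => f a <+: g a :=
  (Dec.eq (f := f) (g := fun a => (g a).take (f a).length) hf (by fun_prop)).of_iff
    fun _ => List.prefix_iff_eq_take.symm

theorem lf_iff (β γ : Node) : Lf β γ ↔ ∃ n ∈ List.range β.length,
    β.take n = γ.take n ∧ n < γ.length ∧ β.getD n 0 < γ.getD n 0 := by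
  induction β generalizing γ with
  | nil => simp
  | cons i l ih =>
    cases γ with
    | nil => simp
    | cons j l' =>
      rw [lf_cons, ih, List.length_cons, List.range_succ_eq_map, List.exists_mem_cons_iff]
      simp only [List.mem_map, exists_exists_and_eq_and]
      by_cases h : i = j <;> simp [h]

theorem Dec.lf {f g : α → Node} (hf : Computable f) (hg : Computable g) :
    Dec fun a => Lf (f a) (g a) := by
  refine Dec.of_iff ?_ fun a => (lf_iff _ _).symm
  refine Dec.bex (by fun_prop) (Dec.and (Dec.eq ?_ ?_) (Dec.and (Dec.lt ?_ ?_) (Dec.lt ?_ ?_))) <;>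
    fun_prop

theorem Dec.hi {f g : α → Node} (hf : Computable f) (hg : Computable g) :
    Dec fun a => Hi (f a) (g a) := (Dec.lf hf hg).or ((Dec.pre hg hf).and (Dec.ne hg hf))

theorem cp_eq (β γ : Node) : cp β γ = β.take ((List.range β.length).filter
    fun n => β.take (n + 1) == γ.take (n + 1)).length := by
  induction β generalizing γ with
  | nil => simp [cp]
  | cons i l ih =>
    cases γ with
    | nil => simp [cp]
    | cons j l' =>
      by_cases h : i = j
      · subst h
        simp [cp, ih l', List.range_succ_eq_map, List.filter_map, Function.comp_def]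
      · simp [cp, h]

@[fun_prop] theorem c_cp {f g : α → Node} (hf : Computable f) (hg : Computable g) :
    Computable fun a => cp (f a) (g a) := by
  simp only [cp_eq]; fun_prop

@[fun_prop] theorem c_up {t : α → ℕ} {f : α → Node} (ht : Computable t) (hf : Computable f) :
    Computable fun a => up (t a) (f a) := by unfold up; fun_prop

@[fun_prop] theorem c_last {f : α → Node} (hf : Computable f) :
    Computable fun a => last (f a) := by
  have : ∀ β : Node, last β = (β.reverse.head?).getD 0 := fun β => by
    simp [last, List.getLastD_eq_getLast?]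
  simp only [this]; fun_prop

@[fun_prop] theorem c_pc {f : α → Pair} {c : α → Bool} (hf : Computable f) (hc : Computable c) :
    Computable fun a => pc (f a) (c a) := by unfold pc; fun_prop

@[fun_prop] theorem c_pd {f : α → Pair} {c : α → Bool} (hf : Computable f) (hc : Computable c) :
    Computable fun a => pd (f a) (c a) := by unfold pd; fun_prop

@[fun_prop] theorem c_pr {f : α → Pair} {c : α → Bool} (hf : Computable f) (hc : Computable c) :
    Computable fun a => pr (f a) (c a) := by unfold pr; fun_prop

@[fun_prop] theorem c_lab {f : α → Pair} (hf : Computable f) :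
    Computable fun a => lab (f a) := by unfold lab; fun_prop

@[fun_prop] theorem c_loc {f : α → Pair} (hf : Computable f) :
    Computable fun a => loc (f a) := by unfold loc; fun_prop

@[fun_prop] theorem c_base {f : α → Pair} (hf : Computable f) :
    Computable fun a => base (f a) := by unfold base tag; fun_prop

@[fun_prop] theorem c_sub {f : α → Pair} {w : α → Str} (hf : Computable f) (hw : Computable w) :
    Computable fun a => sub (f a) (w a) := by unfold sub; fun_prop

@[fun_prop] theorem c_mkp {c : α → Bool} {x y : α → ℕ × Str} {l : α → Node × ℕ}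
    (hc : Computable c) (hx : Computable x) (hy : Computable y) (hl : Computable l) :
    Computable fun a => mkp (c a) (x a) (y a) (l a) := by unfold mkp; fun_prop

@[fun_prop] theorem c_rel {f : α → Node} {p : α → Pair} (hf : Computable f) (hp : Computable p) :
    Computable fun a => rel (f a) (p a) := by
  unfold rel
  exact (Dec.lf hf (c_loc hp)).ite (by fun_prop) hp

variable (I : Inp)

@[fun_prop] theorem c_u {c : α → Bool} {n : α → ℕ} (hc : Computable c) (hn : Computable n) :
    Computable fun a => I.u (c a) (n a) := CFP.comp (g := fun a => (c a, n a)) I.c_u (by fun_prop)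

@[fun_prop] theorem c_T {c : α → Bool} {σ : α → Str} (hc : Computable c) (h : Computable σ) :
    Computable fun a => I.T (c a) (σ a) := CFP.comp (g := fun a => (c a, σ a)) I.c_T (by fun_prop)

@[fun_prop] theorem c_inW {s e : α → ℕ} {σ : α → Str} (hs : Computable s) (he : Computable e)
    (h : Computable σ) : Computable fun a => I.inW (s a) (e a) (σ a) :=
  CFP.comp (g := fun a => (s a, e a, σ a)) I.c_inW (by fun_prop)

@[fun_prop] theorem c_cell {i : α → ℕ} {c : α → Bool} {σ : α → Str} (hi : Computable i)
    (hc : Computable c) (h : Computable σ) : Computable fun a => I.cell (i a) (c a) (σ a) :=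
  CFP.comp (g := fun a => (i a, c a, σ a)) I.c_cell (by fun_prop)

@[fun_prop] theorem c_it {n : α → ℕ} (hn : Computable n) : Computable fun a => I.it (n a) :=
  CFP.comp I.c_it hn

@[fun_prop] theorem c_St {s N : α → ℕ} {p : α → Pair} (hs : Computable s) (hN : Computable N)
    (hp : Computable p) : Computable fun a => I.St (s a) (N a) (p a) := by
  unfold Inp.St; fun_prop

@[fun_prop] theorem c_new {s : α → ℕ} {z : α → Str} (hs : Computable s) (hz : Computable z) :
    Computable fun a => I.new (s a) (z a) := by unfold Inp.new; fun_prop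

theorem Dec.inB {β : α → Node} {c : α → Bool} {ρ : α → Str} (hβ : Computable β)
    (hc : Computable c) (hρ : Computable ρ) : Dec fun a => I.inB (β a) (c a) (ρ a) :=
  Dec.ball hβ (Dec.eq (by fun_prop) (by fun_prop))

theorem Dec.alive {s j : α → ℕ} {β : α → Node} {c : α → Bool} (hs : Computable s)
    (hβ : Computable β) (hc : Computable c) (hj : Computable j) :
    Dec fun a => I.Alive (s a) (β a) (c a) (j a) := by
  refine Dec.exS hs (Dec.and (Dec.eq ?_ ?_) (Dec.and (Dec.inB I ?_ ?_ ?_) (Dec.eq ?_ ?_))) <;>
    fun_prop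

theorem Dec.chk {s M : α → ℕ} {β : α → Node} (hs : Computable s) (hβ : Computable β)
    (hM : Computable M) : Dec fun a => I.ChkAt (s a) (β a) (M a) := by
  refine Dec.and (Dec.allB (Dec.allB (Dec.allS ?_ (Dec.imp (Dec.inB I ?_ ?_ ?_)
    (Dec.alive I ?_ ?_ ?_ ?_))))) (Dec.allB (Dec.of_iff ?_ fun a =>
      forall_congr' fun ρ => forall_comm.trans (by rfl)))
  any_goals fun_prop
  refine Dec.allS (by fun_prop) (Dec.allS (by fun_prop) (Dec.imp (Dec.eq ?_ ?_)
    (Dec.imp (Dec.eq ?_ ?_) (Dec.imp (Dec.inB I ?_ ?_ ?_) (Dec.imp (Dec.inB I ?_ ?_ ?_)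
    (Dec.imp (Dec.eq ?_ ?_) (Dec.eq ?_ ?_))))))) <;> fun_prop

end Pool.Agent.P.MP_54474a_lc.OR.Impl
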