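import Pool.Agent.P.MP_54474a_lc.Homeo

/-!
Definitions for the orbit construction.  Two classes (sides `false` and `true`), a tree of
strategies (`Node`), and matched pairs of cylinders (`Pair`) that move along the tree.
-/

namespace Pool.Agent.P.MP_54474a_lc.OR

open Set Filter Topology

abbrev Pt : Type := ℕ → Bool
abbrev Str : Type := List Bool
abbrev Node : Type := List ℕ
/-- (index, string) on side `false`, (index, string) on side `true`, location, tag. -/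
abbrev Pair : Type := (ℕ × Str) × (ℕ × Str) × Node × ℕ

/-- Effectively open sets. -/
def CeO (O : Set Pt) : Prop := IsPi01 Oᶜ

/-- The point `σ` followed by `z`. -/
def cat (σ : Str) (z : Pt) : Pt := fun i => if i < σ.length then σ.getD i false else z (i - σ.length)

/-! ### Nodes -/

/-- Remove the last `t` entries. -/
def up (t : ℕ) (β : Node) : Node := β.take (β.length - t)

def last (β : Node) : ℕ := β.getLastD 0

/-- `β` is to the left of `γ`. -/
def Lf (β γ : Node) : Prop :=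
  ∃ (α : Node) (i j : ℕ) (l l' : Node), i < j ∧ β = α ++ i :: l ∧ γ = α ++ j :: l'

/-- Longest common prefix. -/
def cp : Node → Node → Node
  | i :: l, j :: l' => if i = j then i :: cp l l' else []
  | _, _ => []

/-- `β` has priority over `γ`. -/
def Hi (β γ : Node) : Prop := Lf β γ ∨ (γ <+: β ∧ γ ≠ β)

/-- The node of length `n` on the path `f`. -/
def fn (f : ℕ → ℕ) (n : ℕ) : Node := (List.range n).map f

/-! ### Pairs -/

def pc (p : Pair) (a : Bool) : ℕ × Str := cond a p.2.1 p.1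
def pd (p : Pair) (a : Bool) : ℕ := (pc p a).1
def pr (p : Pair) (a : Bool) : Str := (pc p a).2
def lab (p : Pair) : Node × ℕ := p.2.2
def loc (p : Pair) : Node := p.2.2.1
def tag (p : Pair) : ℕ := p.2.2.2
def base (p : Pair) : Node := up (tag p) (loc p)
/-- `x` on side `a`, `y` on the other side. -/
def mkp (a : Bool) (x y : ℕ × Str) (l : Node × ℕ) : Pair := cond a (y, x, l) (x, y, l)
def sub (p : Pair) (w : Str) : Pair := ((p.1.1, p.1.2 ++ w), (p.2.1.1, p.2.1.2 ++ w), p.2.2)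

open Classical in
/-- Relocation caused by an action of `β`. -/
noncomputable def rel (β : Node) (p : Pair) : Pair :=
  if Lf β (loc p) then (p.1, p.2.1, cp (base p) β, 0) else p

/-! ### Input data -/

structure Inp where
  P : Bool → Set Pt
  x : Bool → Pt
  u : Bool → ℕ → Str
  T : Bool → Str → Bool
  inW : ℕ → ℕ → Str → Bool
  cell : ℕ → Bool → Str → ℕ
  it : ℕ → Bool × Str × ℕ
  u_disj : ∀ a n m y, y ∈ cyl (u a n) → y ∈ cyl (u a m) → n = m
  u_cover : ∀ a y, y ∉ P a ↔ ∃ n, y ∈ cyl (u a n)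
  T_tree : ∀ a σ n, T a σ = true → T a (σ.take n) = true
  T_path : ∀ a y, y ∈ P a ↔ ∀ n, T a (seg y n) = true
  W_mono : ∀ s s' e σ σ', s ≤ s' → σ <+: σ' → inW s e σ = true → inW s' e σ' = true
  W_univ : ∀ O, CeO O → ∃ e, ∀ y, y ∈ O ↔ ∃ s, inW s e (seg y s) = true
  cell_dec : ∀ i a σ σ', i ≤ σ.length → σ <+: σ' → cell i a σ' = cell i a σ
  cell_univ : ∀ (L : ℕ) (c : Bool → Str → ℕ), ∃ i, ∀ a y, cell i a (seg y i) = c a (seg y L)
  it_fair : ∀ q M, ∃ n, M ≤ n ∧ it n = q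
  c_u : Computable fun q : Bool × ℕ => u q.1 q.2
  c_T : Computable fun q : Bool × Str => T q.1 q.2
  c_inW : Computable fun q : ℕ × ℕ × Str => inW q.1 q.2.1 q.2.2
  c_cell : Computable fun q : ℕ × Bool × Str => cell q.1 q.2.1 q.2.2
  c_it : Computable it
  x_mem : ∀ a, x a ∈ P a
  iso : ∀ a, ∀ y ∈ P a, y ≠ x a → ∃ n, ∀ z ∈ P a, z ∈ cyl (seg y n) → z = y
  lim : ∀ a n, ∃ y ∈ P a, y ∈ cyl (seg (x a) n) ∧ y ≠ x a
  nd : ∀ a σ, ∃ y ∈ cyl σ, y ∉ P a
  big : ∀ a O, CeO O → x a ∈ closure O →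
    ∃ n, ∀ y ∈ P a, y ∈ cyl (seg (x a) n) → y ∈ closure O
  thin : ∀ a O, CeO O → ∃ C, IsClopen C ∧ C ⊆ O ∧ P a ∩ O ⊆ C

namespace Inp
variable (I : Inp)

/-- The `e`-th effectively open set. -/
def W (e : ℕ) : Set Pt := {y | ∃ s, I.inW s e (seg y s) = true}
def inB (α : Node) (a : Bool) (ρ : Str) : Prop := ∀ i ∈ α, I.cell i a ρ = 0
def cellP (i : ℕ) (a : Bool) (y : Pt) : ℕ := I.cell i a (seg y i)
def bP (α : Node) (a : Bool) : Set Pt := {y | ∀ i ∈ α, I.cellP i a y = 0}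
/-- The state of a pair: bit `n` looks at side `bodd (n + 1)` and at the set number `n / 2`. -/
def St (s N : ℕ) (p : Pair) : Str :=
  (List.range N).map fun n => I.inW s (n / 2) (pr p (n + 1).bodd)
def new (s : ℕ) (z : Str) : Pair := ((s, I.u false s ++ z), (s, I.u true s ++ z), [], 0)
/-- Cell `j` of `β` on side `a` has a string of length `s` in the tree. -/
def Alive (s : ℕ) (β : Node) (a : Bool) (j : ℕ) : Prop :=
  ∃ ρ : Str, ρ.length = s ∧ I.T a ρ = true ∧ I.inB (up 1 β) a ρ ∧ I.cell (last β) a ρ = j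
/-- The stage `s` test of the partition guessed by `β`, with precision `M`. -/
def ChkAt (s : ℕ) (β : Node) (M : ℕ) : Prop :=
  (∀ a a' (ρ : Str), ρ.length = s → I.inB (up 1 β) a ρ → I.Alive s β a' (I.cell (last β) a ρ)) ∧
  ∀ a (ρ ρ' : Str), ρ.length = s → ρ'.length = s → I.T a ρ = true → I.T a ρ' = true →
    I.inB (up 1 β) a ρ → I.inB (up 1 β) a ρ' → I.cell (last β) a ρ = I.cell (last β) a ρ' →
    ρ.take (if I.cell (last β) a ρ = 0 then β.length else M) =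
      ρ'.take (if I.cell (last β) a ρ = 0 then β.length else M)
/-- The partition guessed by `β` is geometrically correct. -/
def Geo (β : Node) : Prop :=
  (∀ a a' y, y ∈ I.bP (up 1 β) a → ∃ z ∈ I.P a', z ∈ I.bP (up 1 β) a' ∧
    I.cellP (last β) a' z = I.cellP (last β) a y) ∧
  ∀ a, ∀ z ∈ I.P a, ∀ z' ∈ I.P a, z ∈ I.bP (up 1 β) a → z' ∈ I.bP (up 1 β) a →
    I.cellP (last β) a z = I.cellP (last β) a z' →
    (I.cellP (last β) a z ≠ 0 → z = z') ∧
      (I.cellP (last β) a z = 0 → seg z β.length = seg z' β.length)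
/-- The two points lie in the same cell at level `n` of the path `f`. -/
def Agree (f : ℕ → ℕ) (n : ℕ) (y : Bool → Pt) : Prop :=
  (∀ c, y c ∈ I.bP (fn f n) c) → I.cellP (f n) false (y false) = I.cellP (f n) true (y true)

end Inp

/-! ### Runs of the construction -/

structure Dat extends Inp where
  cfg : ℕ → Set Pair
  k : ℕ → Node → ℕ
  m : ℕ → Node → ℕ
  sv : ℕ → Node → Bool
  act : ℕ → Option Node
  sup : ℕ → Pair
  len : ℕ → ℕ
  code : ℕ → Pair → Str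

namespace Dat
variable (D : Dat)

def Active (s : ℕ) (β : Node) : Prop := ∀ γ i, γ ++ [i] <+: β → i < D.m s γ
def tau (s : ℕ) (β : Node) : ℕ := cond (D.it (D.m s β)).1 2 1
def nu (s : ℕ) (β : Node) : Str := (D.it (D.m s β)).2.1
def jj (s : ℕ) (β : Node) : ℕ := (D.it (D.m s β)).2.2
def srv (s : ℕ) (β : Node) : Node := up (D.tau s β) β
def side (s : ℕ) (β : Node) : Bool := (β.length + D.tau s β).bodd
def tlab (s : ℕ) (β : Node) : Node × ℕ := if D.tau s β = 1 then (up 1 β, 0) else (β, 2)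

def Tgt (s : ℕ) (β : Node) (p : Pair) : Prop :=
  lab p = D.tlab s β ∧ (∀ c, D.k s β ≤ pd p c) ∧ (∃ c, pd p c ≤ D.m s β) ∧
    D.St s (D.srv s β).length p = D.nu s β ∧
    D.cell (last β) (!D.side s β) (pr p (!D.side s β)) = D.jj s β

def Sup (s : ℕ) (β : Node) (p : Pair) : Prop :=
  lab (rel β p) = (up 1 (D.srv s β), 0) ∧
    (∀ c, D.k s β ≤ pd p c ∧ D.m s (D.srv s β) < pd p c) ∧
    D.St s (D.srv s β).length p = D.nu s β ∧
    D.inB (up 1 β) (D.side s β) (pr p (D.side s β)) ∧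
    D.cell (last β) (D.side s β) (pr p (D.side s β)) = D.jj s β

def Need (s : ℕ) (β : Node) : Prop :=
  β ≠ [] ∧ D.sv s β = false ∧ (∃ p ∈ D.cfg s, D.Tgt s β p) ∧
    D.Alive s β (D.side s β) (D.jj s β)

def CanS (s : ℕ) (β : Node) : Prop :=
  D.Active s β ∧ β ≠ [] ∧ D.sv s β = false ∧ ∃ p ∈ D.cfg s, D.Sup s β p

def CanA (s : ℕ) (β : Node) : Prop :=
  D.Active s β ∧ ¬ D.Need s β ∧
    (β = [] ∨ (D.m s β + 1 < D.m s (up 1 β) ∧ D.ChkAt s β (D.m s β))) ∧
    ∀ γ, D.Active s γ → D.srv s γ = β → ¬ D.Need s γ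

def Can (s : ℕ) (β : Node) : Prop := D.CanS s β ∨ D.CanA s β

/-- Supply piece on the served side, target piece on the other side. -/
def pA (s : ℕ) (β : Node) (t : Pair) : Pair :=
  mkp (D.side s β) (pc (sub (D.sup s) (D.code s t)) (D.side s β)) (pc t (!D.side s β))
    (β, if D.jj s β = 0 then 0 else 1)

/-- Target piece on the served side, supply piece on the other side. -/
def pB (s : ℕ) (β : Node) (t : Pair) : Pair :=
  mkp (D.side s β) (pc t (D.side s β)) (pc (sub (D.sup s) (D.code s t)) (!D.side s β))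
    (if D.tau s β = 1 then (β, 2) else (up 3 β, 0))

/-- The pairs present just after the action of stage `s`. -/
def Mid (s : ℕ) (q : Pair) : Prop :=
  (D.act s = none ∧ q ∈ D.cfg s) ∨ ∃ β, D.act s = some β ∧
    ((¬ D.CanS s β ∧ ∃ p ∈ D.cfg s, q = rel β p) ∨ (D.CanS s β ∧
      ((∃ p ∈ D.cfg s, p ≠ D.sup s ∧ ¬ D.Tgt s β p ∧ q = rel β p) ∨
       (∃ w : Str, w.length = D.len s ∧ (∀ t ∈ D.cfg s, D.Tgt s β t → D.code s t ≠ w) ∧
          q = sub (rel β (D.sup s)) w) ∨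
       ∃ t ∈ D.cfg s, D.Tgt s β t ∧ (q = D.pA s β t ∨ q = D.pB s β t))))

def Reset (s : ℕ) (γ : Node) : Prop :=
  ∃ β, D.act s = some β ∧ (Lf β γ ∨ (¬ D.CanS s β ∧ γ = β ++ [D.m s β]))

structure Ok : Prop where
  cfg0 : D.cfg 0 = ∅
  cfgS : ∀ s q, q ∈ D.cfg (s + 1) ↔
    (∃ p b, D.Mid s p ∧ q = sub p [b]) ∨ ∃ z : Str, z.length = s + 1 ∧ q = D.new s z
  st0 : ∀ β, D.k 0 β = 0 ∧ D.m 0 β = 0 ∧ D.sv 0 β = false
  st_reset : ∀ s γ, D.Reset s γ → D.k (s + 1) γ = s ∧ D.m (s + 1) γ = 0 ∧ D.sv (s + 1) γ = false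
  st_serve : ∀ s γ, D.act s = some γ → D.CanS s γ →
    D.k (s + 1) γ = D.k s γ ∧ D.m (s + 1) γ = D.m s γ ∧ D.sv (s + 1) γ = true
  st_adv : ∀ s γ, D.act s = some γ → ¬ D.CanS s γ →
    D.k (s + 1) γ = D.k s γ ∧ D.m (s + 1) γ = D.m s γ + 1 ∧ D.sv (s + 1) γ = false
  st_other : ∀ s γ, D.act s ≠ some γ → ¬ D.Reset s γ →
    D.k (s + 1) γ = D.k s γ ∧ D.m (s + 1) γ = D.m s γ ∧ D.sv (s + 1) γ = D.sv s γ
  act_some : ∀ s β, D.act s = some β → D.Can s β ∧ ∀ γ, D.Can s γ → ¬ Hi γ β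
  act_none : ∀ s, D.act s = none → ∀ γ, ¬ D.Can s γ
  sup_mem : ∀ s β, D.act s = some β → D.CanS s β → D.sup s ∈ D.cfg s ∧ D.Sup s β (D.sup s)
  code_len : ∀ s β, D.act s = some β → D.CanS s β → ∀ t ∈ D.cfg s, D.Tgt s β t →
    (D.code s t).length = D.len s
  code_inj : ∀ s β, D.act s = some β → D.CanS s β → ∀ t ∈ D.cfg s, ∀ t' ∈ D.cfg s,
    D.Tgt s β t → D.Tgt s β t' → D.code s t = D.code s t' → t = t'
  sig : Sig fun q : ℕ × Pair => q.2 ∈ D.cfg q.1

/-- No node to the left of `β` acts from stage `s` on. -/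
def Calm (s : ℕ) (β : Node) : Prop := ∀ t, s ≤ t → ∀ γ, D.act t = some γ → ¬ Lf γ β

/-- No node extending `β` acts from stage `s` on. -/
def Still (s : ℕ) (β : Node) : Prop := ∀ t, s ≤ t → ∀ γ, D.act t = some γ → ¬ β <+: γ

/-- `β` is eventually never reset and advances infinitely often. -/
def Live (β : Node) : Prop :=
  ∃ s, D.Active s β ∧ D.Calm s β ∧ ∀ M, ∃ t, s ≤ t ∧ M ≤ D.m t β

def Succ (s : ℕ) (c : Bool) (p q : Pair) : Prop :=
  p ∈ D.cfg s ∧ q ∈ D.cfg (s + 1) ∧ pr p c <+: pr q c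

/-- From stage `s` on the pair `p` is only refined. -/
def Perm (s : ℕ) (p : Pair) : Prop :=
  p ∈ D.cfg s ∧ ∀ t, s ≤ t → ∀ q ∈ D.cfg t, ∀ c, pr p c <+: pr q c → ∃ w, q = sub p w

/-- The final matching. -/
def Mt (y : Bool → Pt) : Prop := ∃ s p z, D.Perm s p ∧ ∀ c, y c = cat (pr p c) z

end Dat

end Pool.Agent.P.MP_54474a_lc.OR
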