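import Pool.Agent.P.MP_54474a_lc.OR.Iface

/-!
A calm node is eventually still or live.
-/

namespace Pool.Agent.P.MP_54474a_lc.OR

open Set Filter Topology

namespace Dichx

variable {D : Dat} {s : ℕ} {β : Node}

theorem still_of_never (ok : D.Ok) (h : ∀ t, s ≤ t → ¬ D.Active t β) : D.Still s β :=
  fun t ht _ hγ hp => h t ht ((ok.active hγ).pre hp)

theorem ev_const (ok : D.Ok) (ha : D.Active s β) (hc : D.Calm s β) {M : ℕ}
    (hM : ∀ t, s ≤ t → D.m t β ≤ M) : ∃ s', s ≤ s' ∧ ∀ t, s' ≤ t → D.m t β = D.m s' β := by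
  obtain ⟨s', h1, h2⟩ := Nat.sSup_mem (s := {n | ∃ t, s ≤ t ∧ D.m t β = n}) ⟨_, s, le_rfl, rfl⟩
    ⟨M, by rintro _ ⟨t, ht, rfl⟩; exact hM t ht⟩
  refine ⟨s', h1, fun t ht => le_antisymm ?_ (ok.calm_m_mono ha hc h1 ht)⟩
  rw [h2]
  exact le_csSup ⟨M, by rintro _ ⟨t, ht, rfl⟩; exact hM t ht⟩ ⟨t, h1.trans ht, rfl⟩

theorem ev_idle (ok : D.Ok) (ha : D.Active s β) (hc : D.Calm s β) {M : ℕ}
    (hM : ∀ t, s ≤ t → D.m t β ≤ M) : ∃ s', s ≤ s' ∧ ∀ t, s' ≤ t → D.act t ≠ some β := by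
  obtain ⟨s', h1, h2⟩ := ev_const ok ha hc hM
  have key : ∀ t, s' ≤ t → (D.act t = some β ∧ D.sv t β = false ∧ D.sv (t + 1) β = true) ∨
      (D.act t ≠ some β ∧ D.sv (t + 1) β = D.sv t β) := by
    intro t ht
    rcases ok.st_cases t β with h | ⟨-, -, h | h | h⟩
    · exact (ok.calm_not_reset ha hc (h1.trans ht) h.1).elim
    · exact Or.inl ⟨h.1, h.2.1.2.2.1, h.2.2.2⟩
    · have := h2 t ht
      have := h2 (t + 1) (by omega)
      omega
    · exact Or.inr ⟨h.1, h.2.2⟩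
  by_cases h : ∃ t, s' ≤ t ∧ D.act t = some β
  · obtain ⟨t, ht, h3⟩ := h
    have h4 : ∀ u, t + 1 ≤ u → D.sv u β = true := by
      intro u hu
      induction u, hu using Nat.le_induction with
      | base => exact ((key t ht).resolve_right fun h => h.1 h3).2.2
      | succ u hu ih =>
        rcases key u (by omega) with h | h
        · exact h.2.2
        · exact h.2.trans ih
    refine ⟨t + 1, by omega, fun u hu h5 => ?_⟩
    have := ((key u (by omega)).resolve_right fun h => h.1 h5).2.1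
    simp [h4 u hu] at this
  · exact ⟨s', h1, fun t ht h3 => h ⟨t, ht, h3⟩⟩

theorem claim (ok : D.Ok) (M : ℕ) : ∀ β s, D.Calm s β →
    (∀ t, s ≤ t → D.Active t β → D.m t β < M) → ∃ t, D.Still t β := by
  induction M with
  | zero => exact fun β s _ h => ⟨s, still_of_never ok fun t ht ha => by simpa using h t ht ha⟩
  | succ M ih =>
    intro β s hc hM
    by_cases hn : ∃ t, s ≤ t ∧ D.Active t β
    swap
    · exact ⟨s, still_of_never ok fun t ht ha => hn ⟨t, ht, ha⟩⟩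
    obtain ⟨s1, h1, ha⟩ := hn
    have hc1 := hc.mono h1
    have hb : ∀ t, s1 ≤ t → D.m t β ≤ M := fun t ht =>
      Nat.lt_succ_iff.1 (hM t (h1.trans ht) (ok.calm ha hc1 ht).1)
    obtain ⟨s3, -, h3⟩ := ev_idle ok ha hc1 hb
    have inner : ∀ i, ∃ t, s1 ≤ t ∧ ∀ j < i, D.Still t (β ++ [j]) := by
      intro i
      induction i with
      | zero => exact ⟨s1, le_rfl, by simp⟩
      | succ i ihi =>
        obtain ⟨t, ht, h4⟩ := ihi
        obtain ⟨u, hu⟩ := ih (β ++ [i]) t (fun v hv γ hγ hl => by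
          rcases lf_concat_iff.1 hl with h | ⟨j, hj, h⟩
          · exact hc1 v (ht.trans hv) γ hγ h
          · exact h4 j hj v hv γ hγ h)
          fun v hv hav => (ok.child hav).1.trans_le (hb v (ht.trans hv))
        refine ⟨max t u, ht.trans (le_max_left _ _), fun j hj => ?_⟩
        rcases Nat.lt_succ_iff_lt_or_eq.1 hj with h | rfl
        · exact (h4 j h).mono (le_max_left _ _)
        · exact hu.mono (le_max_right _ _)
    obtain ⟨t, ht, h4⟩ := inner M
    refine ⟨max t s3, fun v hv γ hγ hp => ?_⟩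
    have hv1 : t ≤ v := (le_max_left _ _).trans hv
    by_cases e : β = γ
    · exact h3 v ((le_max_right _ _).trans hv) (e ▸ hγ)
    · obtain ⟨j, hj⟩ := prefix_concat_of_ne hp e
      exact h4 j ((ok.active hγ β j hj).trans_le (hb v (ht.trans hv1))) v hv1 γ hγ hj

end Dichx

open Dichx in
theorem p_DICH : S_DICH := by
  intro D ok s β hc
  by_cases hn : ∃ t, s ≤ t ∧ D.Active t β
  swap
  · exact Or.inl ⟨s, still_of_never ok fun t ht ha => hn ⟨t, ht, ha⟩⟩
  obtain ⟨s1, h1, ha⟩ := hn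
  by_cases hM : ∀ M, ∃ t, s1 ≤ t ∧ M ≤ D.m t β
  · exact Or.inr ⟨s1, ha, hc.mono h1, hM⟩
  · push Not at hM
    obtain ⟨M, hM⟩ := hM
    exact Or.inl (claim ok M β s1 (hc.mono h1) fun t ht _ => hM t ht)

end Pool.Agent.P.MP_54474a_lc.OR
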