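import Pool.Agent.P.MP_54474a_lc.OR.Iface

/-!
Every nonempty clopen set is an effective copy of the whole space.
-/

namespace Pool.Agent.P.MP_54474a_lc.OR

open Set Filter Topology Pool.Agent.Lib.Helper43

attribute [local irreducible] Computable

namespace Embx

theorem range_cat (s : Str) : range (cat s) = cyl s :=
  Subset.antisymm (range_subset_iff.2 (cat_mem_cyl s)) fun _ h => (exists_cat h).imp fun _ => Eq.symm

theorem emb_cat (s : Str) : Emb (cat s) := by
  refine ⟨continuous_pi fun i => ?_, fun _ _ => cat_inj, range_cat s ▸ isClopen_cyl s,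
    fun O hO => ?_, fun O hO => ?_⟩
  · unfold cat
    split_ifs
    exacts [continuous_const, continuous_apply _]
  · obtain ⟨R, hR, rfl⟩ := hO.exists_sig
    refine (congrArg CeO (Set.ext fun y => ?_)).mp (ceo_of_sig (Sig.ex
      (p := fun t r : Str => R r ∧ (t == s ++ r) = true)
      ((hR.comp (by fun_prop)).and (Sig.of_bool (by fun_prop)))))
    simp only [beq_iff_eq]
    refine ⟨?_, ?_⟩
    · rintro ⟨_, ⟨r, hr, rfl⟩, h⟩
      obtain ⟨z, rfl⟩ := exists_cat (cyl_anti (List.prefix_append _ _) h)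
      exact ⟨z, ⟨r, hr, cat_mem_cyl_append.1 h⟩, rfl⟩
    · rintro ⟨z, ⟨r, hr, h⟩, rfl⟩
      exact ⟨_, ⟨r, hr, rfl⟩, cat_mem_cyl_append.2 h⟩
  · obtain ⟨R, hR, rfl⟩ := hO.exists_sig
    refine (congrArg CeO (Set.ext fun y => ?_)).mp (ceo_of_sig (Sig.ex
      (p := fun w r : Str => R r ∧ ((s ++ w).take r.length == r) = true)
      ((hR.comp (by fun_prop)).and (Sig.of_bool (by fun_prop)))))
    simp only [beq_iff_eq]
    exact ⟨fun ⟨w, ⟨r, hr, e⟩, h⟩ => ⟨r, hr, mem_cyl_of_take e (cat_mem_cyl_append.2 h)⟩,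
      fun ⟨r, hr, h⟩ => ⟨_, ⟨r, hr, (List.prefix_iff_eq_take.1 (prefix_of_mem h
        (cat_mem_cyl_append.2 (self_mem_cyl y r.length)) (by simp))).symm⟩, self_mem_cyl _ _⟩⟩

theorem cat_tail (z : Pt) : cat [z 0] (fun i => z (i + 1)) = z :=
  funext fun i => by cases i <;> simp [cat]

theorem emb_union {e : Bool → Pt → Pt} (h : ∀ b, Emb (e b))
    (hd : Disjoint (range (e true)) (range (e false))) :
    ∃ f, Emb f ∧ range f = range (e true) ∪ range (e false) := by
  let f : Pt → Pt := fun z => e (z 0) fun i => z (i + 1)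
  have hf : ∀ b z, f (cat [b] z) = e b z := fun b z => by simp [f, cat]
  have hi : ∀ O, f '' O = e true '' (cat [true] ⁻¹' O) ∪ e false '' (cat [false] ⁻¹' O) := fun O => by
    refine Subset.antisymm ?_ (union_subset ?_ ?_)
    · rintro _ ⟨z, hz, rfl⟩
      rw [← cat_tail z] at hz ⊢
      rw [hf]
      generalize z 0 = b at hz
      cases b
      exacts [.inr ⟨_, hz, rfl⟩, .inl ⟨_, hz, rfl⟩]
    all_goals
      rintro _ ⟨z, hz, rfl⟩
      exact ⟨_, hz, hf _ z⟩
  have hp : ∀ O, f ⁻¹' O = cat [true] '' (e true ⁻¹' O) ∪ cat [false] '' (e false ⁻¹' O) := fun O => by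
    refine Subset.antisymm (fun z hz => ?_) (union_subset ?_ ?_)
    · rw [← cat_tail z] at hz ⊢
      rw [mem_preimage, hf] at hz
      generalize z 0 = b at hz
      cases b
      exacts [.inr ⟨_, hz, rfl⟩, .inl ⟨_, hz, rfl⟩]
    all_goals
      rintro _ ⟨z, hz, rfl⟩
      rwa [mem_preimage, hf]
  have hr : range f = range (e true) ∪ range (e false) := by simpa using hi univ
  refine ⟨f, ⟨?_, fun z z' hz => ?_, hr ▸ (h _).clopen.union (h _).clopen,
    fun O hO => hi O ▸ ((h _).img _ ((emb_cat _).pre _ hO)).union ((h _).img _ ((emb_cat _).pre _ hO)),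
    fun O hO => hp O ▸ ((emb_cat _).img _ ((h _).pre _ hO)).union
      ((emb_cat _).img _ ((h _).pre _ hO))⟩, hr⟩
  · exact (continuous_prod_of_discrete_left.2 fun b => (h b).cont :
      Continuous fun q : Bool × Pt => e q.1 q.2).comp
      (f := fun z : Pt => (z 0, fun i => z (i + 1))) (by fun_prop)
  · rw [← cat_tail z, ← cat_tail z'] at hz ⊢
    rw [hf, hf] at hz
    generalize z 0 = b at hz
    generalize z' 0 = b' at hz
    cases b <;> cases b'
    · rw [(h _).inj hz]
    · exact (disjoint_left.1 hd ⟨_, hz.symm⟩ ⟨_, rfl⟩).elim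
    · exact (disjoint_left.1 hd ⟨_, hz⟩ ⟨_, rfl⟩).elim
    · rw [(h _).inj hz]

theorem emb_fin (m : ℕ) {S : Set Str} (hS : S.Finite) (hl : ∀ r ∈ S, r.length = m)
    (hn : S.Nonempty) : ∃ e, Emb e ∧ range e = ⋃ r ∈ S, cyl r := by
  induction S, hS using Set.Finite.induction_on with
  | empty => exact absurd hn not_nonempty_empty
  | @insert a S ha _ ih =>
    rcases S.eq_empty_or_nonempty with rfl | hn
    · exact ⟨cat a, emb_cat a, by simp [range_cat]⟩
    obtain ⟨e, he, hr⟩ := ih (fun r h => hl r (.inr h)) hn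
    rw [biUnion_insert, ← hr, ← range_cat]
    refine emb_union (e := fun b => cond b (cat a) e) (fun b => by cases b; exacts [he, emb_cat a])
      (disjoint_left.2 fun y h1 h2 => ?_)
    obtain ⟨r, h3, h4⟩ := mem_iUnion₂.1 (hr.le h2)
    have h5 := (hl a (.inl rfl)).trans (hl r (.inr h3)).symm
    exact ha ((prefix_of_mem ((range_cat a).le h1) h4 h5.le).eq_of_length h5 ▸ h3)

end Embx

theorem p_EMB : S_EMB := by
  intro C hC ⟨x, hx⟩
  obtain ⟨m, hm⟩ := exists_level (T := fun σ => ¬ cyl σ ⊆ C)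
    (fun σ n h h' => h ((cyl_anti (List.take_prefix _ _)).trans h')) hC.isClosed fun y hy h =>
      (mem_nhds_iff_cyl.1 (hC.isOpen.mem_nhds hy)).elim h
  obtain ⟨e, he, hr⟩ := Embx.emb_fin m (S := {r | r.length = m ∧ cyl r ⊆ C})
    ((List.finite_length_eq Bool m).subset fun _ h => h.1) (fun _ h => h.1)
    ⟨_, seg_length x m, not_not.1 (hm x hx)⟩
  exact ⟨e, he, hr.trans (Subset.antisymm (iUnion₂_subset fun _ h => h.2) fun y hy =>
    mem_biUnion (t := cyl) ⟨seg_length y m, not_not.1 (hm y hy)⟩ (self_mem_cyl y m))⟩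

end Pool.Agent.P.MP_54474a_lc.OR
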