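import Pool.Agent.P.MP_54474a_lc.OR.Iface

namespace Pool.Agent.P.MP_54474a_lc.OR

open Set Filter Topology

namespace Exx

theorem pt_big {σ : Str} {i : ℕ} (h : σ.length ≤ i) : pt σ i = false :=
  List.getD_eq_default _ _ h

theorem pi01 {τ : ℕ → Str} (h : Sig fun σ : Str => ∀ t, τ t ≠ σ) :
    IsPi01 {y : Pt | ∀ n, y n = true → ∃ t, τ t = seg y (n + 1)} := by
  have h1 := isPi01_of_sig ((Sig.of_bool
    (f := fun σ : Str => σ.getD (σ.length - 1) false) (by fun_prop)).and h)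
  have e : {y : Pt | ∀ n, y n = true → ∃ t, τ t = seg y (n + 1)} = {x : Pt | ∀ n,
      ¬ ((seg x n).getD ((seg x n).length - 1) false = true ∧ ∀ t, τ t ≠ seg x n)} := by
    ext y
    refine ⟨fun h2 n h3 => ?_, fun h2 n h3 => ?_⟩
    · cases n with
      | zero => simp [seg] at h3
      | succ n =>
        rw [seg_length, Nat.add_sub_cancel, seg_getD y n.lt_succ_self] at h3
        obtain ⟨t, ht⟩ := h2 n h3.1
        exact h3.2 t ht
    · by_contra h4
      refine h2 (n + 1) ⟨?_, fun t ht => h4 ⟨t, ht⟩⟩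
      rwa [seg_length, Nat.add_sub_cancel, seg_getD y n.lt_succ_self]
  rwa [e]

end Exx

open Exx in
theorem p_EX (hINW : S_INW) (hEXA : S_EXA) (hFINB : S_FINB) : S_EX := by
  obtain ⟨inW, hc, hm, hu⟩ := hINW
  obtain ⟨τ, lam, hsig, h0, hstep, hlam, halt⟩ := hEXA inW hc hm
  have hpi := pi01 hsig
  set P := {y : Pt | ∀ n, y n = true → ∃ t, τ t = seg y (n + 1)} with hP
  have hst : ∀ t, ∃ j s, j ≤ t ∧ (τ t).length ≤ s ∧ (τ (t + 1)).length = s + 1 ∧
      pt (τ (t + 1)) s = true ∧ ∀ i < s, pt (τ (t + 1)) i = pt (τ j) i := by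
    intro t
    obtain ⟨j, s, h1, h2, h3⟩ := hstep t
    refine ⟨j, s, h1, h2, by simp [h3], ?_, fun i hi => ?_⟩
    · simp [h3, pt]
    · rw [h3, ← seg_getD (pt (τ j)) hi]
      exact List.getD_append _ _ _ _ (by simpa using hi)
  have hL : StrictMono fun t => (τ t).length := strictMono_nat_of_lt_succ fun t => by
    obtain ⟨j, s, -, h2, h3, -⟩ := hst t
    omega
  have hpP : ∀ t, pt (τ t) ∈ P := by
    intro t
    induction t using Nat.strong_induction_on with
    | _ t ih =>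
      intro n hn
      cases t with
      | zero => simp [h0, pt] at hn
      | succ t =>
        obtain ⟨j, s, h1, -, h3, -, h5⟩ := hst t
        rcases lt_trichotomy n s with h | rfl | h
        · obtain ⟨t', ht'⟩ := ih j (by omega) n (by rw [← h5 n h, hn])
          exact ⟨t', ht'.trans (seg_eq_iff.2 fun i hi => (h5 i (by omega)).symm)⟩
        · exact ⟨t + 1, by rw [← h3, seg_pt]⟩
        · rw [pt_big (by omega)] at hn
          exact absurd hn (by simp)
  have hne : ∀ t, pt (τ t) ≠ pt (τ (t + 1)) := fun t h => by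
    obtain ⟨j, s, -, h2, -, h4, -⟩ := hst t
    rw [← h, pt_big h2] at h4
    exact absurd h4 (by simp)
  choose hlen t0 ht0 using hlam
  have hpl : ∀ e t, t0 e ≤ t → pt (τ t) ∈ cyl (lam e) := fun e t h =>
    cyl_anti (ht0 e t h) (pt_mem_cyl _)
  let x : Pt := fun i => (lam (i + 1)).getD i false
  have hx : ∀ e, x ∈ cyl (lam e) := fun e => by
    rw [cyl_eq_of_mem (pt_mem_cyl (lam e)), mem_cyl_seg]
    intro i hi
    have h1 := hpl e _ (le_max_left (t0 e) (t0 (i + 1)))
    have h2 := hpl (i + 1) _ (le_max_right (t0 e) (t0 (i + 1)))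
    rw [cyl_eq_of_mem (pt_mem_cyl (lam e)), mem_cyl_seg] at h1
    rw [cyl_eq_of_mem (pt_mem_cyl (lam (i + 1))), mem_cyl_seg] at h2
    rw [← h1 i hi, h2 i (hlen (i + 1))]
    rfl
  have hlx : ∀ e, cyl (lam e) ⊆ cyl (seg x e) := fun e => by
    rw [cyl_eq_of_mem (hx e)]
    exact cyl_seg_anti x (hlen e)
  have hK : ∀ e, ∀ y ∈ P, y ∉ cyl (lam e) → ∃ t ≤ t0 e, y = pt (τ t) := by
    intro e y hy hy'
    have h1 : ∀ n, y n = true → ∀ t, τ t = seg y (n + 1) → t ≤ t0 e := fun n _ t ht => by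
      by_contra h
      exact hy' (mem_cyl_of_prefix_seg (ht ▸ ht0 e t (by omega)))
    have h2 : {n | y n = true}.Finite := (finite_Iio (τ (t0 e)).length).subset fun n hn => by
      obtain ⟨t, ht⟩ := hy n hn
      have h3 := hL.monotone (h1 n hn t ht)
      simp only [ht, seg_length] at h3
      exact h3
    rcases {n | y n = true}.eq_empty_or_nonempty with h | h
    · refine ⟨0, Nat.zero_le _, funext fun i => ?_⟩
      rw [pt_big (by simp [h0])]
      exact Bool.eq_false_iff.2 fun hi => (h.subset hi : False)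
    · obtain ⟨n, hn, h3⟩ := Set.exists_max_image _ id h2 h
      obtain ⟨t, ht⟩ := hy n hn
      refine ⟨t, h1 n hn t ht, funext fun i => ?_⟩
      by_cases hi : i < n + 1
      · rw [ht]
        exact (seg_getD y hi).symm
      · rw [pt_big (by rw [ht, seg_length]; omega)]
        exact Bool.eq_false_iff.2 fun h4 => hi (Nat.lt_succ_of_le (h3 i h4))
  have hsep : ∀ y, y ≠ x → ∃ e, y ∉ cyl (lam e) := fun y hy => by
    obtain ⟨i, hi⟩ := Function.ne_iff.1 hy
    exact ⟨i + 1, fun h => hi (mem_cyl_seg.1 (hlx _ h) i i.lt_succ_self)⟩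
  have hall : ∀ y ∈ P, y = x ∨ ∃ t, y = pt (τ t) := fun y hy => by
    refine or_iff_not_imp_left.2 fun h => ?_
    obtain ⟨e, he⟩ := hsep y h
    obtain ⟨t, -, ht⟩ := hK e y hy he
    exact ⟨t, ht⟩
  have hder : derivedSet P = {x} := by
    refine Subset.antisymm (fun y hy => ?_) (singleton_subset_iff.2 (accPt_iff_cyl.2 fun n => ?_))
    · by_contra h
      obtain ⟨e, he⟩ := hsep y h
      refine Set.Infinite.of_accPt (AccPt.nhds_inter hy
        ((isClosed_cyl (lam e)).isOpen_compl.mem_nhds he))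
        (((finite_Iic (t0 e)).image fun t => pt (τ t)).subset fun z hz => ?_)
      obtain ⟨t, h1, h2⟩ := hK e z hz.2 hz.1
      exact ⟨t, h1, h2.symm⟩
    · by_cases h : pt (τ (t0 n)) = x
      · exact ⟨_, hpP (t0 n + 1), hlx n (hpl n _ (by omega)), fun h' => hne _ (h.trans h'.symm)⟩
      · exact ⟨_, hpP (t0 n), hlx n (hpl n _ le_rfl), h⟩
  refine ⟨P, hpi, ((countable_range fun t => pt (τ t)).insert x).mono fun y hy => ?_,
    by simp [hder], fun O hO => ?_⟩
  · rcases hall y hy with h | ⟨t, h⟩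
    exacts [Or.inl h, Or.inr ⟨t, h.symm⟩]
  obtain ⟨e, he⟩ := hu O hO
  rcases halt e with h | h
  · refine hFINB P _ x (lam (e + 1)).length hpi.isClosed hder.subset inter_subset_left
      (Or.inr fun y hy hy' => ?_)
    rw [← cyl_eq_of_mem (hx _)] at hy
    obtain ⟨z, h1, h2⟩ := mem_closure_iff.1 hy'.2 _ (isOpen_cyl _) hy.2
    obtain ⟨s, hs⟩ := (he z).1 h2
    rw [h z h1 s] at hs
    exact absurd hs (by simp)
  · refine hFINB P _ x (lam e).length hpi.isClosed hder.subset inter_subset_left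
      (Or.inl fun y hy => ⟨hy.1, mem_closure_iff_cyl.2 fun n => ?_⟩)
    rw [← cyl_eq_of_mem (hx _)] at hy
    rcases hall y hy.1 with rfl | ⟨t, rfl⟩
    · obtain ⟨z, h1, h2⟩ := h _ (hpl e _ (le_max_left (t0 e) (t0 n))) n
      have h3 := hlx n (hpl n _ (le_max_right (t0 e) (t0 n)))
      exact ⟨z, (he z).2 h2, mem_cyl_seg.2 fun i hi =>
        (mem_cyl_seg.1 h1 i hi).trans (mem_cyl_seg.1 h3 i hi)⟩
    · obtain ⟨z, h1, h2⟩ := h t hy.2 n
      exact ⟨z, (he z).2 h2, h1⟩

end Pool.Agent.P.MP_54474a_lc.OR
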