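import Pool.Agent.P.MP_54474a_lc.OR.Iface

/-!
The finite injury construction of the roots of the example.
-/

namespace Pool.Agent.P.MP_54474a_lc.OR

open Set Filter Topology Pool.Agent.Lib.Helper43

attribute [local irreducible] Computable

namespace Exax

/-- The combinatorial core. -/
theorem core (F : ℕ → ℕ → Str → Prop) (hF : ∀ s s' e σ, s ≤ s' → F s' e σ → F s e σ)
    (τ : ℕ → Str) (n st E J : ℕ → ℕ) (A : ℕ → ℕ → Str) (h0 : n 0 = 0) (hA0 : ∀ t, A t 0 = [])
    (hst : ∀ t, t ≤ st t) (hlen : ∀ t, (τ t).length ≤ st t) (hE : ∀ t, E t ≤ n t)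
    (hn : ∀ t, n (t + 1) = E t + 1) (hA : ∀ t i, i ≤ E t → A (t + 1) i = A t i)
    (hτ : ∀ t, τ (t + 1) = seg (pt (τ (J t))) (st t) ++ [true])
    (hmin : ∀ t e, e < E t → ∀ (σ : Str) j, σ.length ≤ t + 1 → j ≤ t → e < σ.length →
      A t e <+: σ → σ <+: seg (pt (τ j)) (st t) → F (st t) e σ → F (st t) e (A t (e + 1)))
    (hact : ∀ t, (E t = n t ∧ J t = t ∧ A (t + 1) (E t + 1) = τ (t + 1)) ∨
      (¬ F (st t) (E t) (A t (E t + 1)) ∧ E t < (A (t + 1) (E t + 1)).length ∧
        A t (E t) <+: A (t + 1) (E t + 1) ∧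
        A (t + 1) (E t + 1) <+: seg (pt (τ (J t))) (st t) ∧
        ∀ s, F s (E t) (A (t + 1) (E t + 1)))) :
    ∃ lam : ℕ → Str, (∀ e, e ≤ (lam e).length ∧ ∃ t0, ∀ t, t0 ≤ t → lam e <+: τ t) ∧
      ∀ e, (∀ s, F s e (lam (e + 1))) ∨ ∀ j (σ : Str), e < σ.length → lam e <+: σ →
        pt (τ j) ∈ cyl σ → ∃ s, ¬ F s e σ := by
  have inv : ∀ t, n t ≤ t ∧ ∀ i ≤ n t, i ≤ (A t i).length ∧ A t i <+: τ t ∧
      ∀ i' ≤ i, A t i' <+: A t i := by
    intro t
    induction t with
    | zero =>
      refine ⟨h0.le, fun i hi => ?_⟩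
      obtain rfl : i = 0 := by omega
      refine ⟨Nat.zero_le _, by simp [hA0], fun i' hi' => ?_⟩
      obtain rfl : i' = 0 := by omega
      rfl
    | succ t ih =>
      have h1 := hE t
      have h2 : E t < (A (t + 1) (E t + 1)).length ∧ A t (E t) <+: A (t + 1) (E t + 1) ∧
          A (t + 1) (E t + 1) <+: τ (t + 1) := by
        rcases hact t with ⟨h2, h3, h4⟩ | ⟨-, h2, h3, h4, -⟩
        · rw [h4, hτ, h3]
          refine ⟨by have := hst t; simp; omega, ?_, List.prefix_rfl⟩
          exact ((ih.2 _ h1).2.1.trans (prefix_seg (pt_mem_cyl _) (hlen t))).trans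
            (List.prefix_append _ _)
        · exact ⟨h2, h3, h4.trans (by rw [hτ]; exact List.prefix_append _ _)⟩
      have h3 : ∀ i ≤ E t, A (t + 1) i <+: A (t + 1) (E t + 1) := fun i hi => by
        rw [hA t i hi]
        exact ((ih.2 _ h1).2.2 i hi).trans h2.2.1
      refine ⟨by rw [hn]; omega, fun i hi => ?_⟩
      rw [hn] at hi
      rcases hi.eq_or_lt with rfl | hi
      · refine ⟨h2.1, h2.2.2, fun i' hi' => ?_⟩
        rcases hi'.eq_or_lt with rfl | hi'
        · rfl
        · exact h3 i' (by omega)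
      · refine ⟨?_, (h3 i (by omega)).trans h2.2.2, fun i' hi' => ?_⟩
        · rw [hA t i (by omega)]
          exact (ih.2 i (by omega)).1
        · rw [hA t i (by omega), hA t i' (by omega)]
          exact (ih.2 i (by omega)).2.2 i' hi'
  have stab : ∀ e, ∃ t0, ∀ t, t0 ≤ t → e ≤ E t := by
    intro e
    induction e with
    | zero => exact ⟨0, fun _ _ => Nat.zero_le _⟩
    | succ e ih =>
      obtain ⟨t0, ht0⟩ := ih
      have h1 : ∀ t, t0 + 1 ≤ t → E t = e → ¬ F (st t) e (A t (e + 1)) ∧
          ∀ s, F s e (A (t + 1) (e + 1)) := by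
        intro t ht h
        obtain ⟨t, rfl⟩ : ∃ u, t = u + 1 := ⟨t - 1, by omega⟩
        have h2 := ht0 t (by omega)
        have h3 := hn t
        rcases hact (t + 1) with h4 | h4
        · omega
        · rw [h] at h4
          exact ⟨h4.1, h4.2.2.2.2⟩
      by_cases h : ∃ t1, t0 + 1 ≤ t1 ∧ E t1 = e
      · obtain ⟨t1, h2, h3⟩ := h
        have h4 : ∀ t, t1 + 1 ≤ t → (∀ s, F s e (A t (e + 1))) → e + 1 ≤ E t := fun t ht h =>
          lt_of_le_of_ne (ht0 t (by omega)) fun h' => (h1 t (by omega) h'.symm).1 (h _)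
        refine ⟨t1 + 1, fun t ht => h4 t ht ?_⟩
        induction t, ht using Nat.le_induction with
        | base => exact (h1 t1 h2 h3).2
        | succ t ht ih => rwa [hA t _ (h4 t ht ih)]
      · exact ⟨t0 + 1, fun t ht =>
          lt_of_le_of_ne (ht0 t (by omega)) fun h' => h ⟨t, ht, h'.symm⟩⟩
  choose T hT using stab
  have hl : ∀ e t, T e ≤ t → A t e = A (T e) e := by
    intro e t ht
    induction t, ht using Nat.le_induction with
    | base => rfl
    | succ t ht ih => rw [hA t e (hT e t ht), ih]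
  refine ⟨fun e => A (T e) e, fun e => ⟨((inv _).2 e ((hT e _ le_rfl).trans (hE _))).1, T e,
    fun t ht => (hl e t ht).subst (motive := fun x => x <+: τ t)
      ((inv t).2 e ((hT e t ht).trans (hE _))).2.1⟩, fun e => ?_⟩
  by_contra hc
  push Not at hc
  obtain ⟨⟨s1, h1⟩, j, σ, h2, h3, h4, h5⟩ := hc
  obtain ⟨t, ht⟩ : ∃ t, T e + T (e + 1) + σ.length + j + s1 = t := ⟨_, rfl⟩
  have h6 := hst t
  refine h1 (hF s1 (st t) _ _ (by omega) ?_)
  rw [← hl (e + 1) t (by omega)]
  refine hmin t e (hT (e + 1) t (by omega)) σ j (by omega) (by omega) h2 ?_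
    (prefix_seg h4 (by omega)) (h5 _)
  rwa [hl e t (by omega)]

abbrev R : Type := Str × List Str × Option (ℕ × Str)

def r0 : R := ([], [], none)

/-- The enumeration of the open sets. -/
structure Dt where
  W : ℕ → ℕ → Str → Bool
  c : Computable fun q : ℕ × ℕ × Str => W q.1 q.2.1 q.2.2
  mono : ∀ s s' e σ σ', s ≤ s' → σ <+: σ' → W s e σ = true → W s' e σ' = true

def la (K : List R) : List Str := (K.getD (K.length - 1) r0).2.1

def ray (s : ℕ) (K : List R) (j : ℕ) : Str :=
  (List.range s).map fun i => (K.getD j r0).1.getD i false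

def cand (n : ℕ) : List (Str × ℕ) :=
  ((List.range (n + 1)).flatMap fun m => strs m).flatMap fun σ =>
    (List.range n).map fun j => (σ, j)

def inn (L : List Str) (e : ℕ) : Str := ([] :: L).getD e []

theorem mem_cand {n : ℕ} {a : Str × ℕ} : a ∈ cand n ↔ a.1.length ≤ n ∧ a.2 < n := by
  obtain ⟨σ, j⟩ := a
  simp [cand, mem_strs]

theorem inn_take (L : List Str) (σ : Str) {e i : ℕ} (he : e ≤ L.length) (hi : i ≤ e) :
    inn (L.take e ++ [σ]) i = inn L i := by
  cases i with
  | zero => rfl
  | succ i =>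
    simp only [inn, List.getD_eq_getElem?_getD, List.getElem?_cons_succ]
    rw [List.getElem?_append_left (by simp; omega), List.getElem?_take_of_lt (by omega)]

theorem inn_last (L : List Str) (σ : Str) {e : ℕ} (he : e ≤ L.length) :
    inn (L.take e ++ [σ]) (e + 1) = σ := by
  simp [inn, he]

variable (D : Dt)

def free (s e : ℕ) (σ : Str) : Bool :=
  (strs s).all fun r => (r.take σ.length != σ) || !D.W s e r

def bad (s : ℕ) (r : R) : Bool := (r.2.2.map fun a => !free D s a.1 a.2).getD false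

def test (s : ℕ) (K : List R) (e : ℕ) (a : Str × ℕ) : Bool :=
  !free D s e (inn (la K) (e + 1)) && decide (e < a.1.length) &&
    (a.1.take (inn (la K) e).length == inn (la K) e) &&
    ((ray s K a.2).take a.1.length == a.1) && free D s e a.1

def pick (s : ℕ) (K : List R) : Option (ℕ × Str × ℕ) :=
  ((List.range (la K).length).find? fun e => (cand K.length).any fun a => test D s K e a).bind
    fun e => ((cand K.length).find? fun a => test D s K e a).map fun a => (e, a)

def nxt (s : ℕ) (K : List R) : R :=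
  ((pick D s K).map fun p =>
    (ray s K p.2.2 ++ [true], (la K).take p.1 ++ [p.2.1], some (p.1, p.2.1))).getD
    (ray s K (K.length - 1) ++ [true], la K ++ [ray s K (K.length - 1) ++ [true]], none)

section Comp

variable {α : Type} [Primcodable α]

@[fun_prop] theorem cW {f g : α → ℕ} {h : α → Str} (hf : Computable f) (hg : Computable g)
    (hh : Computable h) : Computable fun a => D.W (f a) (g a) (h a) :=
  CFP.comp (g := fun a => (f a, g a, h a)) D.c (by fun_prop)

@[fun_prop] theorem cfree {f g : α → ℕ} {h : α → Str} (hf : Computable f) (hg : Computable g)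
    (hh : Computable h) : Computable fun a => free D (f a) (g a) (h a) := by
  unfold free; fun_prop

@[fun_prop] theorem cla {f : α → List R} (hf : Computable f) : Computable fun a => la (f a) := by
  unfold la; fun_prop

@[fun_prop] theorem cray {f h : α → ℕ} {g : α → List R} (hf : Computable f) (hg : Computable g)
    (hh : Computable h) : Computable fun a => ray (f a) (g a) (h a) := by
  unfold ray; fun_prop

@[fun_prop] theorem ccand {f : α → ℕ} (hf : Computable f) : Computable fun a => cand (f a) := by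
  unfold cand; fun_prop

@[fun_prop] theorem cinn {f : α → List Str} {g : α → ℕ} (hf : Computable f) (hg : Computable g) :
    Computable fun a => inn (f a) (g a) := by
  unfold inn; fun_prop

@[fun_prop] theorem ctest {f h : α → ℕ} {g : α → List R} {k : α → Str × ℕ} (hf : Computable f)
    (hg : Computable g) (hh : Computable h) (hk : Computable k) :
    Computable fun a => test D (f a) (g a) (h a) (k a) := by
  unfold test; fun_prop

@[fun_prop] theorem cpick {f : α → ℕ} {g : α → List R} (hf : Computable f) (hg : Computable g) :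
    Computable fun a => pick D (f a) (g a) := by
  unfold pick; fun_prop

end Comp

theorem cnxt : Computable fun q : ℕ × List R => nxt D q.1 q.2 := by
  unfold nxt; fun_prop

theorem cbad : Computable fun q : ℕ × R => bad D q.1 q.2 := by
  unfold bad; fun_prop

variable {D}

theorem free_iff {s e : ℕ} {σ : Str} :
    free D s e σ = true ↔ ∀ r : Str, r.length = s → σ <+: r → D.W s e r = false := by
  simp only [free, List.all_eq_true, mem_strs, Bool.or_eq_true, bne_iff_ne, Bool.not_eq_eq_eq_not,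
    Bool.not_true, List.prefix_iff_eq_take]
  exact forall₂_congr fun r _ => by rw [eq_comm (a := σ)]; tauto

theorem free_anti (s s' e : ℕ) (σ : Str) (h : s ≤ s') (H : free D s' e σ = true) :
    free D s e σ = true := by
  rw [free_iff] at H ⊢
  intro r h1 h2
  by_contra h3
  have h4 := prefix_seg (pt_mem_cyl r) (h1.le.trans h)
  have h5 := D.mono s s' e r _ h h4 (by simpa using h3)
  rw [H _ (by simp) (h2.trans h4)] at h5
  exact absurd h5 (by simp)

theorem free_all {e : ℕ} {σ : Str} :
    (∀ s, free D s e σ = true) ↔ ∀ y ∈ cyl σ, ∀ s, D.W s e (seg y s) = false := by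
  simp only [free_iff]
  refine ⟨fun H y hy s => ?_, fun H s r h1 h2 => ?_⟩
  · by_contra h3
    have h5 := D.mono s (s + σ.length) e _ _ (by omega) (seg_prefix y (Nat.le_add_right s σ.length))
      (by simpa using h3)
    rw [H _ _ (by simp) (prefix_seg hy (by omega))] at h5
    exact absurd h5 (by simp)
  · have := H (pt r) (cyl_anti h2 (pt_mem_cyl r)) s
    rwa [← h1, seg_pt, h1] at this

theorem test_iff {s e : ℕ} {K : List R} {a : Str × ℕ} : test D s K e a = true ↔
    ¬ free D s e (inn (la K) (e + 1)) = true ∧ e < a.1.length ∧ inn (la K) e <+: a.1 ∧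
      a.1 <+: ray s K a.2 ∧ free D s e a.1 = true := by
  simp only [test, Bool.and_eq_true, Bool.not_eq_eq_eq_not, Bool.not_true, decide_eq_true_eq,
    beq_iff_eq, List.prefix_iff_eq_take, and_assoc, Bool.not_eq_true, eq_comm (a := List.take _ _)]

theorem spec (D : Dt) (s : ℕ) (K : List R) : ∃ e j σ, e ≤ (la K).length ∧
    (nxt D s K).1 = ray s K j ++ [true] ∧ (nxt D s K).2.1 = (la K).take e ++ [σ] ∧
    (∀ e' < e, ∀ a ∈ cand K.length, ¬ test D s K e' a = true) ∧
    ((e = (la K).length ∧ j = K.length - 1 ∧ σ = (nxt D s K).1 ∧ (nxt D s K).2.2 = none) ∨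
      ((σ, j) ∈ cand K.length ∧ test D s K e (σ, j) = true ∧ (nxt D s K).2.2 = some (e, σ))) := by
  cases h : (List.range (la K).length).find? fun e =>
      (cand K.length).any fun a => test D s K e a with
  | none =>
    have h1 : pick D s K = none := by rw [pick, h]; rfl
    refine ⟨_, _, _, le_rfl, by rw [nxt, h1]; rfl, by rw [nxt, h1, List.take_length]; rfl, ?_,
      Or.inl ⟨rfl, rfl, by rw [nxt, h1]; rfl, by rw [nxt, h1]; rfl⟩⟩
    simpa using h
  | some e =>
    obtain ⟨h1, h2, h3⟩ := List.find?_range_eq_some.1 h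
    obtain ⟨⟨σ, j⟩, h4⟩ := Option.isSome_iff_exists.1 (List.find?_isSome.2 (List.any_eq_true.1 h1))
    have h5 : pick D s K = some (e, σ, j) := by rw [pick, h, Option.bind_some, h4]; rfl
    refine ⟨e, j, σ, (List.mem_range.1 h2).le, by rw [nxt, h5]; rfl, by rw [nxt, h5]; rfl, ?_,
      Or.inr ⟨List.mem_of_find?_eq_some h4, List.find?_some h4, by rw [nxt, h5]; rfl⟩⟩
    simpa using h3

theorem ev_good (D : Dt) (K : List R) :
    ∃ s0, ∀ s, s0 ≤ s → ∀ s', bad D s' (nxt D s K) = false := by
  have h1 : ∀ e σ, ∀ᶠ s in atTop, free D s e σ = true → ∀ s', free D s' e σ = true := by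
    intro e σ
    by_cases h : ∀ s', free D s' e σ = true
    · exact .of_forall fun _ _ => h
    · obtain ⟨s1, h1⟩ := not_forall.1 h
      filter_upwards [eventually_ge_atTop s1] with s hs h2 using (h1 (free_anti _ _ _ _ hs h2)).elim
  have h2 := (eventually_all_finite (finite_le_nat (la K).length)).2 fun e _ =>
    (eventually_all_finite (cand K.length).finite_toSet).2 fun a _ => h1 e a.1
  obtain ⟨s0, h3⟩ := eventually_atTop.1 h2
  refine ⟨s0, fun s hs s' => ?_⟩
  obtain ⟨e, j, σ, h4, -, -, -, ⟨-, -, -, h5⟩ | ⟨h5, h6, h7⟩⟩ := spec D s K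
  · rw [bad, h5]; rfl
  · rw [bad, h7]
    simpa using h3 s hs e h4 _ h5 (test_iff.1 h6).2.2.2.2 s'

end Exax

open Exax in
theorem p_EXA (hSTACK : S_STACK) : S_EXA := by
  intro inW hc hm
  let D : Dt := ⟨inW, hc, hm⟩
  obtain ⟨ρ, st, S, hS, h0, hst, hρ, hb, hS0, hS1, hS2⟩ := hSTACK R r0 (nxt D) (bad D) (cnxt D)
    (cbad D) (fun s r h => by
      rcases r with ⟨_, _, _ | a⟩
      · exact h
      · simp only [bad, Option.map_some, Option.getD_some, Bool.not_eq_eq_eq_not, Bool.not_true,
          ← Bool.not_eq_true] at h ⊢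
        exact fun h' => h (free_anti _ _ _ _ (Nat.le_succ s) h')) (fun _ => rfl) (ev_good D)
  have hlen : ∀ s K, (nxt D s K).1.length = s + 1 := fun s K => by
    obtain ⟨e, j, σ, -, h, -⟩ := spec D s K
    simp [h, ray]
  have hlen' : ∀ t, (ρ t).1.length ≤ st t := fun t => by
    cases t with
    | zero => simp [h0, r0]
    | succ t => rw [hρ, hlen]; exact hst (Nat.lt_succ_self t)
  have hK : ∀ t j, j ≤ t → ((List.range (t + 1)).map ρ).getD j r0 = ρ j := fun t j hj => by
    simp [List.getD_eq_getElem?_getD, Nat.lt_succ_of_le hj]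
  have hla : ∀ t, la ((List.range (t + 1)).map ρ) = (ρ t).2.1 := fun t => by
    rw [la, hK t _ (by simp)]; simp
  have hray : ∀ t j s, j ≤ t → ray s ((List.range (t + 1)).map ρ) j = seg (pt (ρ j).1) s :=
    fun t j s hj => by rw [ray, hK t j hj]; rfl
  have h1 := fun t => spec D (st t) ((List.range (t + 1)).map ρ)
  simp only [← hρ, hla, List.length_map, List.length_range, test_iff, mem_cand] at h1
  choose E J σ h1 h2 h3 h4 h5 using h1
  have hJ : ∀ t, J t ≤ t := fun t => by
    rcases h5 t with h | h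
    · omega
    · exact Nat.lt_succ_iff.1 h.1.2
  have h6 : ∀ t, (ρ (t + 1)).1 = seg (pt (ρ (J t)).1) (st t) ++ [true] := fun t => by
    rw [h2, hray t _ _ (hJ t)]
  obtain ⟨lam, h7, h8⟩ := core (fun s e σ => free D s e σ = true) free_anti (fun t => (ρ t).1)
    (fun t => (ρ t).2.1.length) st E J (fun t => inn (ρ t).2.1) (by simp [h0, r0])
    (fun _ => rfl) hst.id_le hlen' h1 (fun t => by simp [h3, h1 t])
    (fun t i hi => by simp only [h3, inn_take _ _ (h1 t) hi]) h6
    (fun t e he σ' j h h' a1 a2 a3 a4 => by_contra fun a5 =>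
      h4 t e he (σ', j) ⟨h, Nat.lt_succ_of_le h'⟩ ⟨a5, a1, a2, by rwa [hray t j _ h'], a4⟩)
    (fun t => by
      simp only [h3, inn_last _ _ (h1 t)]
      rcases h5 t with h | ⟨-, h, h'⟩
      · exact Or.inl ⟨h.1, h.2.1, h.2.2.1⟩
      · refine Or.inr ⟨h.1, h.2.1, h.2.2.1, hray t _ _ (hJ t) ▸ h.2.2.2.1, fun s => ?_⟩
        simpa [bad, h'] using hb (t + 1) s)
  refine ⟨fun t => (ρ t).1, lam, ⟨fun σ s => decide (σ.length ≤ s) &&
    (S s).all fun r => r.1 != σ, by fun_prop, fun σ => ?_⟩, by simp [h0, r0],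
    fun t => ⟨J t, st t, hJ t, hlen' t, h6 t⟩, h7, fun e => (h8 e).imp free_all.1 ?_⟩
  · simp only [Bool.and_eq_true, decide_eq_true_eq, List.all_eq_true, bne_iff_ne]
    refine ⟨fun H => ⟨st σ.length + 1 + σ.length, by omega, fun r hr => ?_⟩, ?_⟩
    · rcases hS2 σ.length _ (by omega) r hr with ⟨i, -, rfl⟩ | ⟨s', K, h, rfl⟩
      · exact H i
      · intro h'
        have a1 := hlen s' K
        have a2 : σ.length ≤ st σ.length := hst.id_le _
        rw [h'] at a1
        omega
    · rintro ⟨s, a1, a2⟩ t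
      cases t with
      | zero => exact a2 _ (h0 ▸ hS0 s)
      | succ t =>
        intro h
        refine a2 _ (hS1 t s ?_) h
        rw [← h, hρ, hlen] at a1
        exact a1
  · intro H j hj n
    obtain ⟨s, hs⟩ := H j (seg (pt (ρ j).1) (n + (lam e).length + e + 1)) (by simp)
      (prefix_seg hj (by omega)) (self_mem_cyl _ _)
    by_contra hc
    push Not at hc
    exact hs (free_all.2 (fun y hy s => by
      simpa using hc y (cyl_seg_anti _ (by omega) hy) s) s)

end Pool.Agent.P.MP_54474a_lc.OR
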