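import Pool.Agent.P.MP_54474a_lc.OR.Iface

/-!
A permanent piece cannot carry the label of a target of a live node.
-/

namespace Pool.Agent.P.MP_54474a_lc.OR

open Set Filter Topology

namespace Fixx

theorem ev_const {f : ℕ → Bool} {s : ℕ}
    (h : ∀ t t', s ≤ t → t ≤ t' → f t = true → f t' = true) :
    ∃ b, ∀ᶠ t in atTop, f t = b := by
  by_cases h1 : ∃ t, s ≤ t ∧ f t = true
  · obtain ⟨t, h1, h2⟩ := h1
    exact ⟨true, (eventually_ge_atTop t).mono fun t' ht => h t t' h1 ht h2⟩
  · refine ⟨false, (eventually_ge_atTop s).mono fun t ht => ?_⟩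
    by_contra h2
    exact h1 ⟨t, ht, by simpa using h2⟩

end Fixx

open Fixx in
theorem p_FIX (hINV : S_INV) (hCOV : S_COV) (hDESC : S_DESC) (hTR : S_TR) (hGEO : S_GEO) :
    S_FIX := by
  intro D ok η s p c y hl hne ⟨hp, hy, hperm⟩ hlab hk
  have h1 : ∀ t, s ≤ t → ∃ w, sub p w ∈ D.cfg t ∧ y ∈ cyl (pr (sub p w) c) := fun t ht => by
    have hI := hINV D ok s p hp
    obtain ⟨q, q1, q2⟩ := hCOV D ok t c _ y ((hI.lt c).trans_le ht) (cyl_anti (hI.pre c) hy)
    obtain ⟨w, rfl⟩ := hperm t ht q q1 q2
    exact ⟨w, q1, q2⟩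
  choose! w hw hw' using h1
  have hmono : ∀ t t', s ≤ t → t ≤ t' → ∀ c', pr (sub p (w t)) c' <+: pr (sub p (w t')) c' := by
    intro t t' h h' c'
    have := (hDESC D ok t t' c h' _ (hw t h) _ (hw t' (h.trans h')) y (hw' t h)
      (hw' t' (h.trans h'))).1
    rw [pr_sub, pr_sub, List.prefix_append_right_inj] at this ⊢
    exact this
  obtain ⟨bt, hbt⟩ : ∃ bt : Bool,
      lab p = if (cond bt 2 1 : ℕ) = 1 then (up 1 η, 0) else (η, 2) :=
    hlab.elim (fun e => ⟨false, by simpa using e⟩) fun e => ⟨true, by simpa using e⟩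
  obtain ⟨a, ha⟩ : ∃ a, a = (η.length + cond bt 2 1).bodd := ⟨_, rfl⟩
  choose b hb using fun n : ℕ => ev_const (s := s)
    (f := fun t => D.inW t (n / 2) (pr (sub p (w t)) (n + 1).bodd))
    fun t t' h h' => D.W_mono _ _ _ _ _ h' (hmono t t' h h' _)
  obtain ⟨s0, -, hcalm, hact⟩ := ok.live_ev hl 0
  obtain ⟨s', hs'⟩ := eventually_atTop.1 (((eventually_all_finset
    (Finset.range (up (cond bt 2 1) η).length)).2 fun n _ => hb n).and
    ((eventually_ge_atTop s).and (eventually_ge_atTop s0)))
  obtain ⟨-, hs, hs0⟩ := hs' s' le_rfl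
  have hI := hINV D ok s' _ (hw s' hs)
  have hent : ∀ i ∈ η, i ≤ s' := fun i hi => (ok.ent (hact s' hs0).1 i hi).le
  have hent' : ∀ i ∈ up 1 η, i ≤ s' := fun i hi => hent i ((up_prefix 1 η).subset hi)
  have hlast := hent _ (last_mem hne)
  have hin : D.inB (up 1 η) (!a) (pr (sub p (w s')) (!a)) := by
    cases bt with
    | false =>
      have := hI.inb (!a)
      rw [base_sub, base_of_lab hbt] at this
      simpa using this
    | true =>
      have e1 : tag (sub p (w s')) = 2 := tag_of_lab hbt
      have e2 : loc (sub p (w s')) = η := loc_of_lab hbt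
      have e3 : (!a) = (η.length + 1).bodd := by simp [ha]
      rcases hI.tg with h | h | h
      · omega
      · have := h.1
        omega
      · rw [e3]
        exact e2 ▸ h.2.2
  obtain ⟨z, z1, z2, z3⟩ := ((hGEO D ok η hl).1 hne).1 (!a) a _
    ((D.inB_iff (!a) (pt_mem_cyl _) fun i hi => (hent' i hi).trans (hI.len _)).1 hin)
  rw [← D.cell_of_mem (!a) (pt_mem_cyl _) (hlast.trans (hI.len _))] at z3
  obtain ⟨n0, hn0⟩ := ok.live_adv hl s'
  obtain ⟨n, hn, hit⟩ := D.it_fair (bt, (List.range (up (cond bt 2 1) η).length).map b,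
    D.cellP (last η) a z) (n0 + 1 + pd p false)
  obtain ⟨t0, t1, t2, t3, t4⟩ := hn0 (n - 1) (by omega)
  have key : ∀ t, t0 + 1 ≤ t → D.m t η = n ∧ D.sv t η = false := by
    intro t ht
    induction t, ht using Nat.le_induction with
    | base =>
      have := ok.st_adv t0 η t2 t3
      exact ⟨by omega, this.2.2⟩
    | succ t ht ih =>
      have hst : s' ≤ t := by omega
      have e1 : D.tau t η = cond bt 2 1 := by rw [Dat.tau, ih.1, hit]
      have e2 : D.side t η = a := by rw [Dat.side, e1, ha]
      have e3 : D.jj t η = D.cellP (last η) a z := by rw [Dat.jj, ih.1, hit]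
      have hT : D.Tgt t η (sub p (w t)) := by
        refine ⟨?_, fun c' => ?_, ⟨false, ?_⟩, ?_, ?_⟩
        · rw [Dat.tlab, e1]
          exact hbt
        · rw [pd_sub]
          exact hk t c'
        · rw [pd_sub]
          omega
        · rw [Dat.nu, ih.1, hit, Dat.srv, e1]
          exact List.map_congr_left fun i hi =>
            (hs' t hst).1 i (Finset.mem_range.2 (List.mem_range.1 hi))
        · rw [e2, e3, z3]
          exact D.cell_dec _ _ _ _ (hlast.trans (hI.len _)) (hmono s' t hs hst _)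
      have hN : D.Need t η := by
        refine ⟨hne, ih.2, ⟨_, hw t (hs.trans hst), hT⟩, ?_⟩
        rw [e2, e3]
        exact D.alive_of_pt (fun i hi => (hent' i hi).trans hst) (hlast.trans hst) z1 z2
      rcases ok.st_cases t η with h | ⟨-, -, h | h | h⟩
      · exact (ok.calm_not_reset (hact s0 le_rfl).1 hcalm (hs0.trans hst) h.1).elim
      · exfalso
        rcases hTR D ok t c _ _ ⟨hw t (hs.trans hst), hw (t + 1) (by omega),
          hmono t (t + 1) (hs.trans hst) (Nat.le_succ t) c⟩ with g | ⟨β, r, d, g1, -, -, -, g⟩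
        · exact g.2 η h.1 h.2.1 hT
        obtain rfl : η = β := by simpa [h.1] using g1
        have hu := up_ne hne Nat.one_pos
        rcases g with ⟨g, -⟩ | ⟨g, -⟩
        · have := congrArg lab g
          rw [lab_sub, lab_sub, Dat.lab_pA, hbt] at this
          cases bt with
          | false => exact hu (congrArg Prod.fst this)
          | true =>
            have h2 : 2 = if D.jj t η = 0 then 0 else 1 := congrArg Prod.snd this
            split_ifs at h2 <;> omega
        · have := congrArg lab g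
          rw [lab_sub, lab_sub, Dat.lab_pB, hbt, e1] at this
          cases bt with
          | false => exact hu (congrArg Prod.fst this)
          | true => exact two_ne_zero (congrArg Prod.snd this : (2 : ℕ) = 0)
      · exact ((ok.canA h.1 h.2.1).2.1 hN).elim
      · exact ⟨h.2.1.trans ih.1, h.2.2.trans ih.2⟩
  obtain ⟨s1, -, -, h⟩ := ok.live_ev hl (n + 1)
  have h2 := (h (s1 + t0 + 1) (by omega)).2.2
  have h3 := (key (s1 + t0 + 1) (by omega)).1
  omega

end Pool.Agent.P.MP_54474a_lc.OR
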