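import Pool.Agent.P.MP_54474a_lc.OR.Iface

/-!
Live nodes guess correctly, and correct guesses pass the tests.
-/

namespace Pool.Agent.P.MP_54474a_lc.OR

open Set Filter Topology

namespace Geox

theorem le_sum {l : Node} {i : ℕ} (h : i ∈ l) : i ≤ l.sum :=
  List.single_le_sum (fun _ _ => Nat.zero_le _) i h

theorem geo {D : Dat} (ok : D.Ok) {β : Node} (h : D.Live β) (h0 : β ≠ []) : D.Geo β := by
  have key : ∀ M, ∃ t m, M ≤ m ∧ m ≤ t ∧ β.length ≤ t ∧ (∀ i ∈ up 1 β, i ≤ t) ∧ last β ≤ t ∧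
      D.ChkAt t β m := fun M => by
    obtain ⟨t, -, h1, h2, h3⟩ := ok.live_acts h M
    have h4 := ok.canA h1 h2
    exact ⟨t, _, h3, ok.m_le t β, ok.len_le h4.1,
      fun i hi => (ok.ent h4.1 i ((up_prefix 1 β).subset hi)).le,
      (ok.ent h4.1 _ (last_mem h0)).le, (h4.2.2.1.resolve_left h0).2⟩
  refine ⟨fun a a' y hy => D.pt_of_alive fun M => ?_, fun a z hz z' hz' hb hb' e => ?_⟩
  · obtain ⟨t, m, h1, h2, -, h4, h5, h6⟩ := key M
    exact ⟨t, h1.trans h2, D.cell_seg a y h5 ▸ h6.1 a a' _ (seg_length y t)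
      ((D.inB_iff a (self_mem_cyl y t) (by simpa using h4)).2 hy)⟩
  have k : ∀ M, ∃ m, M ≤ m ∧ seg z (if D.cellP (last β) a z = 0 then β.length else m) =
      seg z' (if D.cellP (last β) a z = 0 then β.length else m) := fun M => by
    obtain ⟨t, m, h1, h2, h3, h4, h5, h6⟩ := key M
    have := h6.2 a _ _ (seg_length z t) (seg_length z' t) ((D.T_path a z).1 hz t)
      ((D.T_path a z').1 hz' t) ((D.inB_iff a (self_mem_cyl z t) (by simpa using h4)).2 hb)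
      ((D.inB_iff a (self_mem_cyl z' t) (by simpa using h4)).2 hb')
      (by rw [D.cell_seg a z h5, D.cell_seg a z' h5, e])
    rw [D.cell_seg a z h5, seg_take_le z (by split_ifs <;> assumption),
      seg_take_le z' (by split_ifs <;> assumption)] at this
    exact ⟨m, h1, this⟩
  refine ⟨fun hn => funext fun i => ?_, fun hn => ?_⟩
  · obtain ⟨m, h1, h2⟩ := k (i + 1)
    rw [if_neg hn] at h2
    exact seg_eq_iff.1 h2 i h1
  · obtain ⟨m, -, h2⟩ := k 0
    rwa [if_pos hn] at h2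

theorem near (I : Inp) (a : Bool) (L : ℕ) : ∃ s0, L ≤ s0 ∧ ∀ ρ : Str, s0 ≤ ρ.length →
    I.T a ρ = true → ∃ z ∈ I.P a, z ∈ cyl (seg (pt ρ) L) := by
  obtain ⟨n, hn⟩ := exists_level (T := fun σ => I.T a σ = true) (I.T_tree a)
    (isClopen_of_seg L fun σ => ¬ ∃ z ∈ I.P a, z ∈ cyl σ).isClosed
    fun y hy hp => hy ⟨y, (I.T_path a y).2 hp, self_mem_cyl y L⟩
  refine ⟨n + L, Nat.le_add_left _ _, fun ρ h1 h2 => by_contra fun hc => hn (pt ρ) hc ?_⟩
  have := I.T_tree a ρ n h2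
  rwa [← seg_pt ρ, seg_take_le _ (by omega)] at this

end Geox

theorem p_GEO : S_GEO := by
  intro D ok β h
  refine ⟨Geox.geo ok h, fun c => ?_⟩
  induction β using List.reverseRecOn with
  | nil => simp
  | append_singleton δ i ih =>
    have h1 := ih (ok.live_pre h (List.prefix_append _ _))
    refine D.bP_concat.2 ⟨h1, by_contra fun hn => ?_⟩
    obtain ⟨y, h2, h3, h4⟩ := D.lim c (δ.sum + i)
    have h5 := (Geox.geo ok h (by simp)).2 c _ (D.x_mem c) y h2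
    rw [up_concat, last_concat] at h5
    exact h4 ((h5 h1 ((D.bP_congr c h3 fun j hj => (Geox.le_sum hj).trans
      (Nat.le_add_right _ _)).2 h1) (D.cellP_congr c h3 (Nat.le_add_left _ _)).symm).1 hn).symm

theorem p_CHK : S_CHK := by
  intro I β M h
  obtain ⟨L, h1, h2, h3, h4⟩ : ∃ L, M ≤ L ∧ β.length ≤ L ∧ last β ≤ L ∧ ∀ i ∈ up 1 β, i ≤ L :=
    ⟨M + β.length + last β + (up 1 β).sum, by omega, by omega, by omega,
      fun i hi => (Geox.le_sum hi).trans (Nat.le_add_left _ _)⟩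
  choose s0 hL hs using fun a => Geox.near I a L
  refine ⟨s0 false + s0 true, fun s h5 => ?_⟩
  have h6 : ∀ a, s0 a ≤ s := fun a => by cases a <;> omega
  have h7 : L ≤ s := (hL true).trans (h6 true)
  have h8 : ∀ i ∈ up 1 β, i ≤ s := fun i hi => (h4 i hi).trans h7
  refine ⟨fun a a' ρ e hb => ?_, fun a ρ ρ' e e' t t' hb hb' ec => ?_⟩
  · subst e
    obtain ⟨z, k1, k2, k3⟩ := h.1 a a' _ ((I.inB_iff a (pt_mem_cyl ρ) h8).1 hb)
    rw [I.cell_of_mem a (pt_mem_cyl ρ) (h3.trans h7), ← k3]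
    exact I.alive_of_pt h8 (h3.trans h7) k1 k2
  have key : ∀ ρ : Str, ρ.length = s → I.T a ρ = true → I.inB (up 1 β) a ρ → ∃ z ∈ I.P a,
      z ∈ I.bP (up 1 β) a ∧ I.cell (last β) a ρ = I.cellP (last β) a z ∧
        ∀ n ≤ L, ρ.take n = seg z n := by
    rintro ρ rfl t hb
    obtain ⟨z, k1, k2⟩ := hs a ρ (h6 a) t
    refine ⟨z, k1, (I.bP_congr a k2 h4).2 ((I.inB_iff a (pt_mem_cyl ρ) h8).1 hb),
      (I.cell_of_mem a (pt_mem_cyl ρ) (h3.trans h7)).trans (I.cellP_congr a k2 h3).symm,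
      fun n hn => ?_⟩
    rw [← seg_pt ρ, seg_take_le _ (hn.trans h7)]
    exact seg_eq_iff.2 fun i hi => (mem_cyl_seg.1 k2 i (hi.trans_le hn)).symm
  obtain ⟨z, k1, k2, k3, k4⟩ := key ρ e t hb
  obtain ⟨z', k1', k2', k3', k4'⟩ := key ρ' e' t' hb'
  have := h.2 a z k1 z' k1' k2 k2' (k3.symm.trans (ec.trans k3'))
  rw [k3]
  split_ifs with h0
  · rw [k4 _ h2, k4' _ h2, this.2 h0]
  · rw [k4 _ h1, k4' _ h1, this.1 h0]

end Pool.Agent.P.MP_54474a_lc.OR
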