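import Pool.Agent.P.MP_54474a_lc.OR.Iface

/-!
Gluing of two isomorphisms and the induction on the number of limit points.
-/

namespace Pool.Agent.P.MP_54474a_lc.OR

open Set Filter Topology

namespace Gluex

theorem bij {e₁ e₂ : Pt → Pt} (h₁ : Emb e₁) (h₂ : Emb e₂) (h : range e₂ = (range e₁)ᶜ) :
    Function.Bijective (Sum.elim e₁ e₂) := by
  have hne : ∀ x y, e₁ x ≠ e₂ y := fun x y c =>
    (show e₂ y ∈ (range e₁)ᶜ from h ▸ mem_range_self y) ⟨x, c⟩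
  refine ⟨h₁.inj.sumElim h₂.inj hne, fun z => ?_⟩
  by_cases c : z ∈ range e₁
  · obtain ⟨x, rfl⟩ := c
    exact ⟨Sum.inl x, rfl⟩
  · obtain ⟨x, rfl⟩ : z ∈ range e₂ := h ▸ c
    exact ⟨Sum.inr x, rfl⟩

theorem img {e₁ e₂ g₁ g₂ K K₁ K₂ : Pt → Pt} (h : range e₂ = (range e₁)ᶜ)
    (a₁ : ∀ z, K (e₁ z) = g₁ (K₁ z)) (a₂ : ∀ z, K (e₂ z) = g₂ (K₂ z)) (O : Set Pt) :
    K '' O = g₁ '' (K₁ '' (e₁ ⁻¹' O)) ∪ g₂ '' (K₂ '' (e₂ ⁻¹' O)) := by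
  ext y
  constructor
  · rintro ⟨z, hz, rfl⟩
    by_cases c : z ∈ range e₁
    · obtain ⟨x, rfl⟩ := c
      exact Or.inl ⟨_, ⟨x, hz, rfl⟩, (a₁ x).symm⟩
    · obtain ⟨x, rfl⟩ : z ∈ range e₂ := h ▸ c
      exact Or.inr ⟨_, ⟨x, hz, rfl⟩, (a₂ x).symm⟩
  · rintro (⟨_, ⟨x, hx, rfl⟩, rfl⟩ | ⟨_, ⟨x, hx, rfl⟩, rfl⟩)
    · exact ⟨_, hx, a₁ x⟩
    · exact ⟨_, hx, a₂ x⟩

theorem split {k : ℕ} {A : Set Pt} (h : A.encard = ((k + 1 + 1 : ℕ) : ℕ∞)) :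
    ∃ C, IsClopen C ∧ C.Nonempty ∧ Cᶜ.Nonempty ∧ (A ∩ C).encard = ((1 : ℕ) : ℕ∞) ∧
      (A ∩ Cᶜ).encard = ((k + 1 : ℕ) : ℕ∞) := by
  have hf : A.Finite := finite_of_encard_eq_coe h
  obtain ⟨x, hx⟩ : A.Nonempty := by
    rw [← encard_pos, h]
    exact_mod_cast Nat.succ_pos _
  obtain ⟨n, hn⟩ := exists_cyl_disjoint (hf.subset (sdiff_subset (t := {x}))).isClosed
    (x := x) (fun c => c.2 rfl)
  have e1 : A ∩ cyl (seg x n) = {x} := by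
    refine Subset.antisymm (fun y hy => ?_) (singleton_subset_iff.2 ⟨hx, self_mem_cyl x n⟩)
    by_contra c
    exact hn hy.2 ⟨hy.1, c⟩
  have e2 : A ∩ (cyl (seg x n))ᶜ = A \ {x} := by
    rw [← e1]
    ext y
    simp only [mem_inter_iff, mem_compl_iff, Set.mem_sdiff]
    tauto
  have e3 : (A \ {x}).encard = ((k + 1 : ℕ) : ℕ∞) := by
    have h1 := encard_sdiff_singleton_add_one hx
    rw [h, Nat.cast_add (k + 1) 1, Nat.cast_one] at h1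
    exact WithTop.add_right_cancel ENat.one_ne_top h1
  have e4 : (A \ {x}).Nonempty := by
    rw [← encard_pos, e3]
    exact_mod_cast Nat.succ_pos _
  refine ⟨cyl (seg x n), isClopen_cyl _, ⟨x, self_mem_cyl x n⟩, ?_, by rw [e1]; simp,
    by rw [e2, e3]⟩
  rw [← e2] at e4
  exact e4.right

end Gluex

theorem p_GLUE : S_GLUE := by
  rintro e₁ e₂ g₁ g₂ P Q he₁ he₂ hg₁ hg₂ he hg ⟨H₁, a₁, b₁, c₁⟩ ⟨H₂, a₂, b₂, c₂⟩
  set E := Equiv.ofBijective _ (Gluex.bij he₁ he₂ he) with hE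
  set G := Equiv.ofBijective _ (Gluex.bij hg₁ hg₂ hg) with hG
  set H : Pt ≃ Pt := E.symm.trans ((Equiv.sumCongr H₁ H₂).trans G) with hH
  have p₁ : ∀ z, H (e₁ z) = g₁ (H₁ z) := fun z => by
    have : E.symm (e₁ z) = Sum.inl z := E.symm_apply_eq.2 rfl
    simp only [hH, Equiv.trans_apply, this]
    rfl
  have p₂ : ∀ z, H (e₂ z) = g₂ (H₂ z) := fun z => by
    have : E.symm (e₂ z) = Sum.inr z := E.symm_apply_eq.2 rfl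
    simp only [hH, Equiv.trans_apply, this]
    rfl
  have q₁ : ∀ z, H.symm (g₁ z) = e₁ (H₁.symm z) := fun z => by
    rw [Equiv.symm_apply_eq, p₁, Equiv.apply_symm_apply]
  have q₂ : ∀ z, H.symm (g₂ z) = e₂ (H₂.symm z) := fun z => by
    rw [Equiv.symm_apply_eq, p₂, Equiv.apply_symm_apply]
  refine ⟨H, ?_, fun O hO => ?_, fun O hO => ?_⟩
  · rw [Gluex.img he p₁ p₂, a₁, a₂, image_preimage_eq_inter_range, image_preimage_eq_inter_range,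
      hg, inter_union_compl]
  · rw [Gluex.img he p₁ p₂]
    exact (hg₁.img _ (b₁ _ (he₁.pre _ hO))).union (hg₂.img _ (b₂ _ (he₂.pre _ hO)))
  · rw [Gluex.img hg q₁ q₂]
    exact (he₁.img _ (c₁ _ (hg₁.pre _ hO))).union (he₂.img _ (c₂ _ (hg₂.pre _ hO)))

theorem p_IND (hONE : S_ONE) (hEMB : S_EMB) (hRES : S_RES) (hGLUE : S_GLUE) : S_IND := by
  intro k P Q hk
  obtain ⟨k, rfl⟩ : ∃ j, k = j + 1 := ⟨k - 1, by omega⟩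
  clear hk
  induction k generalizing P Q with
  | zero => exact hONE P Q
  | succ k ih =>
    intro hP hQ
    obtain ⟨C, c1, c2, c3, c4, c5⟩ := Gluex.split hP.2.2.1
    obtain ⟨D, d1, d2, d3, d4, d5⟩ := Gluex.split hQ.2.2.1
    obtain ⟨e₁, he₁, r₁⟩ := hEMB C c1 c2
    obtain ⟨e₂, he₂, r₂⟩ := hEMB Cᶜ c1.compl c3
    obtain ⟨g₁, hg₁, s₁⟩ := hEMB D d1 d2
    obtain ⟨g₂, hg₂, s₂⟩ := hEMB Dᶜ d1.compl d3
    exact hGLUE e₁ e₂ g₁ g₂ P Q he₁ he₂ hg₁ hg₂ (by rw [r₁, r₂]) (by rw [s₁, s₂])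
      (hONE _ _ (hRES e₁ _ 1 P he₁ hP (r₁ ▸ c4)) (hRES g₁ _ 1 Q hg₁ hQ (s₁ ▸ d4)))
      (ih _ _ (hRES e₂ _ _ P he₂ hP (r₂ ▸ c5)) (hRES g₂ _ _ Q hg₂ hQ (s₂ ▸ d5)))

end Pool.Agent.P.MP_54474a_lc.OR
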