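import Pool.Agent.P.MP_54474a_lc.OR.Iface

/-!
Permanent pairs of large index are located along the true path.
-/

namespace Pool.Agent.P.MP_54474a_lc.OR

open Set Filter Topology

theorem p_GOOD (hINV : S_INV) (hCOV : S_COV) (hDESC : S_DESC) (hTR : S_TR) (hREG : S_REG)
    (hFIX : S_FIX) : S_GOOD := by
  intro D ok f hf n
  obtain ⟨s1, -, hc, H⟩ := ok.live_ev (hf (n + 2)) 0
  refine ⟨s1, fun s p hp hd => ?_⟩
  have hk : ∀ t g, g <+: fn f (n + 2) → D.k t g ≤ s1 := by
    intro t g hg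
    rcases le_or_gt s1 t with h | h
    · exact (ok.k_pre (H t h).1 hg).trans ((H t h).2.1.le.trans (ok.k_le s1 _))
    · exact (ok.k_le t g).trans h.le
  have hy := pt_mem_cyl (pr p false)
  have hP : D.PermAt s p false (pt (pr p false)) := ⟨hp.1, hy, fun t ht q hq hyq =>
    hp.2 t ht q hq false (hDESC D ok s t false ht p hp.1 q hq _ hy hyq).1⟩
  have hI := hINV D ok s p hp.1
  have ht2 : tag p ≤ 2 := by rcases hI.tg with h | ⟨h, -⟩ | ⟨h, -⟩ <;> omega
  have case1 : fn f (n + 2) <+: loc p → fn f n <+: base p := fun h => by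
    refine prefix_up ((fn_prefix f (by omega)).trans h) ?_
    have := h.length_le
    rw [fn_length] at this ⊢
    omega
  rcases node_cases (fn f (n + 2)) (loc p) with h | h | h | h
  · exact Or.inl (case1 h)
  · obtain ⟨i, hi, e⟩ : ∃ i, i ≤ n + 2 ∧ loc p = fn f i :=
      ⟨_, by simpa using h.length_le, prefix_fn h⟩
    rcases hi.eq_or_lt with rfl | hi
    · exact Or.inl (case1 (by rw [e]))
    rcases hI.tg with t0 | ⟨t1, -⟩ | ⟨t2, hne, -⟩
    · exact (hFIX D ok (fn f (i + 1)) s p false _ (hf _) (fn_ne_nil f i) hP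
        (Or.inl (by rw [lab_eq, e, t0]; simp))
        fun t c' => (hk t _ (fn_prefix f (by omega))).trans (hd c')).elim
    · by_cases h' : i ≤ n
      · exact Or.inr ⟨t1, by rw [e]; exact fn_prefix f h'⟩
      · left
        rw [base, t1, e, up_fn]
        exact fn_prefix f (by omega)
    · exact (hFIX D ok (loc p) s p false _ (by rw [e]; exact hf i) hne hP
        (Or.inr (by rw [lab_eq, t2])) fun t c' => (hk t _ h).trans (hd c')).elim
  · exfalso
    obtain ⟨t, ht, ha, -, -⟩ := ok.live_acts (hf (n + 2)) s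
    have hu : pt (pr p false) ∈ cyl (D.u false (pd p false)) := cyl_anti (hI.pre false) hy
    obtain ⟨q, hq, hyq⟩ := hCOV D ok t false _ _ ((hI.lt false).trans_le ht) hu
    obtain ⟨q', hq', hyq'⟩ := hCOV D ok (t + 1) false _ _ (by have := hI.lt false; omega) hu
    obtain ⟨w, rfl⟩ := hP.2.2 t ht q hq hyq
    obtain ⟨w', e'⟩ := hP.2.2 (t + 1) (by omega) q' hq' hyq'
    have hl : loc q' = loc p := by rw [e', loc_sub]
    refine h.not_prefix' ?_
    rw [← hl]
    rcases hTR D ok t false _ q' ⟨hq, hq',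
      (hDESC D ok t (t + 1) false (Nat.le_succ t) _ hq q' hq' _ hyq hyq').1⟩ with
      ⟨⟨v, -, e⟩, -⟩ | ⟨β, r, b, hβ, -, -, -, he⟩
    · rw [e, loc_sub, Dat.relo_some ha, loc_of_lab (lab_rel_of (by simpa using h))]
      exact cp_prefix_right _ _
    · obtain rfl : fn f (n + 2) = β := by simpa [ha] using hβ
      rcases he with ⟨e, -⟩ | ⟨e, -⟩
      · rw [e, loc_sub, loc_of_lab (D.lab_pA ..)]
      · rw [e, loc_sub, loc_of_lab (D.lab_pB ..)]
        split_ifs
        · exact List.prefix_rfl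
        · exact up_prefix _ _
  · have := hREG D ok {b | Lf b (fn f (n + 2))} s1 (by simp)
      (fun β hβ γ hγ => Lf.mono hβ hγ List.prefix_rfl) (fun t ht β hβ => hc t ht β hβ) s p hp.1 h
      false
    exact absurd (hd false) (not_le.2 this)

theorem p_ADDR (hINV : S_INV) (hGOOD : S_GOOD) : S_ADDR := by
  intro D ok f hf n
  obtain ⟨d, hd⟩ := hGOOD D ok f hf (n + 1)
  refine ⟨d, ?_⟩
  rintro y ⟨s, p, z, hp, hy⟩ hu i hi hag
  have hI := hINV D ok s p hp.1
  have hm : ∀ c, y c ∈ cyl (pr p c) := fun c => by rw [hy c]; exact cat_mem_cyl _ _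
  have hcell : ∀ j ∈ loc p, ∀ c, D.cell j c (pr p c) = D.cellP j c (y c) := fun j hj c =>
    D.cell_of_mem c (hm c) ((ok.ent hI.act j hj).le.trans (hI.len c))
  have hz : fn f (i + 1) <+: base p → ∀ c, D.cellP (f i) c (y c) = 0 := fun h c => by
    have h1 : f i ∈ base p := h.subset (mem_fn.2 ⟨i, Nat.lt_succ_self i, rfl⟩)
    rw [← hcell _ ((base_prefix p).subset h1)]
    exact hI.inb c _ h1
  by_cases h : fn f (i + 1) <+: base p
  · rw [hz h, hz h]
  rcases hd s p hp (fun c => hu c _ (cyl_anti (hI.pre c) (hm c))) with h1 | ⟨t1, h1⟩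
  · exact (h ((fn_prefix f (by omega)).trans h1)).elim
  rcases hI.tg with t0 | ⟨-, hne, e1, e2⟩ | ⟨t2, -⟩
  · omega
  swap
  · omega
  obtain ⟨i0, e⟩ : ∃ i0, loc p = fn f (i0 + 1) := by
    obtain ⟨i0, hi0⟩ := Nat.exists_eq_succ_of_ne_zero (List.length_pos_iff.2 hne).ne'
    exact ⟨i0, (prefix_fn h1).trans (by rw [hi0])⟩
  have hb : base p = fn f i0 := by
    rw [base, t1, e, up_fn]
    rfl
  have hl : last (loc p) = f i0 := by rw [e, last_fn]
  have hmem := last_mem hne
  rw [hcell _ hmem, hcell _ hmem, hl] at e1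
  rw [hcell _ hmem, hl] at e2
  rcases lt_trichotomy i i0 with hlt | rfl | hgt
  · exact (h (by rw [hb]; exact fn_prefix f hlt)).elim
  · exact e1
  · exact (e2 (hag false _ (mem_fn.2 ⟨i0, hgt, rfl⟩))).elim

end Pool.Agent.P.MP_54474a_lc.OR
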