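import Pool.Agent.P.MP_54474a_lc.OR.Iface

/-!
Existence of a correct guess.
-/

namespace Pool.Agent.P.MP_54474a_lc.OR

open Set Filter Topology

namespace Guessx

theorem fin (I : Inp) (c : Bool) (n : ℕ) : (I.P c \ cyl (seg (I.x c) n)).Finite := by
  have hK : IsCompact (I.P c \ cyl (seg (I.x c) n)) :=
    ((I.isClosed_P c).sdiff (isOpen_cyl _)).isCompact
  obtain ⟨t, -, ht⟩ := hK.elim_nhds_subcover (fun y => {z | z ∈ I.P c → z = y}) fun y hy => by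
    obtain ⟨m, hm⟩ := I.iso c y hy.1 fun h => hy.2 (h ▸ self_mem_cyl _ _)
    exact mem_nhds_iff_cyl.2 ⟨m, fun z hz hP => hm z hP hz⟩
  refine t.finite_toSet.subset fun z hz => ?_
  obtain ⟨y, hy, h⟩ := mem_iUnion₂.1 (ht hz)
  exact h hz.1 ▸ hy

theorem inf (I : Inp) (δ : Node) (c : Bool) (h : I.x c ∈ I.bP δ c) :
    ((I.P c ∩ I.bP δ c) \ {I.x c}).Infinite := by
  intro hf
  have h1 : ∀ᶠ n in atTop, ∀ p ∈ (I.P c ∩ I.bP δ c) \ {I.x c}, p ∉ cyl (seg (I.x c) n) := by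
    refine (eventually_all_finite hf).2 fun p hp => ?_
    obtain ⟨i, hi⟩ := Function.ne_iff.1 (show p ≠ I.x c from hp.2)
    filter_upwards [eventually_gt_atTop i] with n hn hc
    exact hi (mem_cyl_seg.1 hc i hn)
  obtain ⟨n, h2, h3⟩ := (h1.and (eventually_ge_atTop δ.sum)).exists
  obtain ⟨y, hy, hc, hne⟩ := I.lim c n
  exact h2 y ⟨⟨hy, (I.bP_congr c hc fun i hi => (List.le_sum_of_mem hi).trans h3).2 h⟩, hne⟩ hc

theorem sets (I : Inp) (δ : Node) (n : ℕ) (h : ∀ c, I.x c ∈ I.bP δ c) :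
    ∃ (N : ℕ) (A : Bool → Set Pt) (g : Bool → Pt → ℕ), 1 ≤ N ∧ ∀ c, (A c).Finite ∧
      (I.P c ∩ I.bP δ c) \ cyl (seg (I.x c) n) ⊆ A c ∧ A c ⊆ (I.P c ∩ I.bP δ c) \ {I.x c} ∧
      BijOn (g c) (A c) (Icc 1 N) := by
  have hB : ∀ c, ((I.P c ∩ I.bP δ c) \ cyl (seg (I.x c) n)).Finite := fun c =>
    (fin I c n).subset fun z hz => ⟨hz.1.1, hz.2⟩
  obtain ⟨N, hN, hN'⟩ : ∃ N, 1 ≤ N ∧
      ∀ c, ((I.P c ∩ I.bP δ c) \ cyl (seg (I.x c) n)).ncard ≤ N :=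
    ⟨((I.P false ∩ I.bP δ false) \ cyl (seg (I.x false) n)).ncard +
      ((I.P true ∩ I.bP δ true) \ cyl (seg (I.x true) n)).ncard + 1, by omega,
      fun c => by cases c <;> omega⟩
  have key : ∀ c, ∃ (A : Set Pt) (g : Pt → ℕ), A.Finite ∧
      (I.P c ∩ I.bP δ c) \ cyl (seg (I.x c) n) ⊆ A ∧ A ⊆ (I.P c ∩ I.bP δ c) \ {I.x c} ∧
      BijOn g A (Icc 1 N) := fun c => by
    obtain ⟨A, h1, h2, h3⟩ := (inf I δ c (h c)).exists_superset_ncard_eq
      (fun z hz => ⟨hz.1, fun e => hz.2 (mem_singleton_iff.1 e ▸ self_mem_cyl _ _)⟩) (hB c) (hN' c)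
    have hA : A.Finite := finite_of_ncard_ne_zero (by omega)
    obtain ⟨g, hg⟩ := hA.exists_bijOn_of_encard_eq (t := Icc 1 N) (by
      rw [← hA.cast_ncard_eq, ← (finite_Icc 1 N).cast_ncard_eq, h3, ncard_Icc_nat,
        Nat.add_sub_cancel])
    exact ⟨A, g, hA, h1, h2, hg⟩
  choose A g hA using key
  exact ⟨N, A, g, hN, hA⟩

end Guessx

theorem p_GUESS : S_GUESS := by
  classical
  intro I δ a n hx
  obtain ⟨m, hnm, hδm⟩ : ∃ m, n ≤ m ∧ δ.length + 1 ≤ m :=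
    ⟨max n (δ.length + 1), le_max_left _ _, le_max_right _ _⟩
  obtain ⟨N, A, g, hN, hA⟩ := Guessx.sets I δ m hx
  have h1 : ∀ᶠ L in atTop, ∀ c, ∀ p ∈ A c, ∀ z ∈ I.P c, z ∈ cyl (seg p L) → z = p := by
    refine eventually_all.2 fun c => (eventually_all_finite (hA c).1).2 fun p hp => ?_
    obtain ⟨k, hk⟩ := I.iso c p ((hA c).2.2.1 hp).1.1 ((hA c).2.2.1 hp).2
    filter_upwards [eventually_ge_atTop k] with L hL z hz hc
    exact hk z hz (cyl_seg_anti p hL hc)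
  obtain ⟨L, hL, hmL⟩ := (h1.and (eventually_ge_atTop m)).exists
  have hL' : ∀ c, ∀ p ∈ A c, ∀ z ∈ I.P c, seg z L = seg p L → z = p := fun c p hp z hz h =>
    hL c p hp z hz (mem_cyl_seg.2 (seg_eq_iff.1 h))
  obtain ⟨i, hi⟩ := I.cell_univ L fun c s => if h : ∃ p ∈ A c, s = seg p L then g c h.choose
    else if s.take m = seg (I.x c) m then 0 else 1
  have hv : ∀ c y, (∃ p ∈ A c, seg y L = seg p L ∧ I.cellP i c y = g c p) ∨
      ((∀ p ∈ A c, seg y L ≠ seg p L) ∧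
        I.cellP i c y = if seg y m = seg (I.x c) m then 0 else 1) := fun c y => by
    rw [Inp.cellP, hi]
    by_cases h : ∃ p ∈ A c, seg y L = seg p L
    · exact Or.inl ⟨_, h.choose_spec.1, h.choose_spec.2, dif_pos h⟩
    · exact Or.inr ⟨fun p hp e => h ⟨p, hp, e⟩, by rw [dif_neg h, seg_take_le _ hmL]⟩
  have f1 : ∀ c y, I.cellP i c y ≤ N := fun c y => by
    rcases hv c y with ⟨p, hp, -, h⟩ | ⟨-, h⟩
    · exact h ▸ ((hA c).2.2.2.mapsTo hp).2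
    · rw [h]
      split_ifs <;> omega
  have f2 : ∀ c, ∀ p ∈ A c, I.cellP i c p = g c p := fun c p hp => by
    rcases hv c p with ⟨q, hq, e, h⟩ | ⟨h, -⟩
    · rw [h, hL' c q hq p ((hA c).2.2.1 hp).1.1 e]
    · exact absurd rfl (h p hp)
  have f3 : ∀ c, ∀ z ∈ I.P c, z ∈ I.bP δ c → z ∉ A c → I.cellP i c z = 0 := fun c z hz hb hn => by
    rcases hv c z with ⟨q, hq, e, -⟩ | ⟨-, h⟩
    · exact absurd (hL' c q hq z hz e ▸ hq) hn
    · rw [h, if_pos]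
      by_contra h2
      exact hn ((hA c).2.1 ⟨⟨hz, hb⟩, fun h3 => h2 (seg_eq_iff.2 (mem_cyl_seg.1 h3))⟩)
  have f4 : ∀ c y, I.cellP i c y = 0 → ∀ j < m, y j = I.x c j := fun c y h0 => by
    rcases hv c y with ⟨p, hp, -, h⟩ | ⟨-, h⟩
    · have := ((hA c).2.2.2.mapsTo hp).1
      omega
    · refine seg_eq_iff.1 ?_
      by_contra h2
      rw [if_neg h2] at h
      omega
  refine ⟨i, ⟨fun c c' y _ => ?_, fun c z hz z' hz' hb hb' e => ⟨fun h0 => ?_, fun h0 => ?_⟩⟩,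
    fun y hy => mem_cyl_seg.2 fun j hj => f4 a y (I.bP_concat.1 hy).2 j (by omega)⟩
  · simp only [up_concat, last_concat]
    rcases Nat.eq_zero_or_pos (I.cellP i c y) with h | h
    · exact ⟨_, I.x_mem c', hx c',
        (f3 c' _ (I.x_mem c') (hx c') fun hn => ((hA c').2.2.1 hn).2 rfl).trans h.symm⟩
    · obtain ⟨p, hp, e⟩ := (hA c').2.2.2.surjOn (⟨h, f1 c y⟩ : I.cellP i c y ∈ Icc 1 N)
      exact ⟨p, ((hA c').2.2.1 hp).1.1, ((hA c').2.2.1 hp).1.2, (f2 c' p hp).trans e⟩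
  · simp only [up_concat, last_concat] at hb hb' e h0
    have h2 : z ∈ A c := by
      by_contra hn
      exact h0 (f3 c z hz hb hn)
    have h3 : z' ∈ A c := by
      by_contra hn
      exact h0 (e.trans (f3 c z' hz' hb' hn))
    exact (hA c).2.2.2.injOn h2 h3 ((f2 c z h2).symm.trans (e.trans (f2 c z' h3)))
  · simp only [last_concat] at e h0
    refine seg_eq_iff.2 fun j hj => ?_
    rw [List.length_append, List.length_singleton] at hj
    rw [f4 c z h0 j (by omega), f4 c z' (e ▸ h0) j (by omega)]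

end Pool.Agent.P.MP_54474a_lc.OR
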