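import Pool.Agent.P.MP_54474a_lc.OR.Nodes

/-!
Statements of the steps of the proof.
-/

namespace Pool.Agent.P.MP_54474a_lc.OR

open Set Filter Topology

namespace Dat
variable (D : Dat)

/-- Relocation at stage `s`. -/
noncomputable def relo (s : ℕ) (p : Pair) : Pair := (D.act s).elim p fun β => rel β p

/-- `q` refines the relocated pair `p`, which is not swapped as a target. -/
def Pure (s : ℕ) (p q : Pair) : Prop :=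
  (∃ w, w ≠ [] ∧ q = sub (D.relo s p) w) ∧ ∀ β, D.act s = some β → D.CanS s β → ¬ D.Tgt s β p

structure Inv (s : ℕ) (p : Pair) : Prop where
  lt : ∀ c, pd p c < s
  len : ∀ c, s ≤ (pr p c).length
  pre : ∀ c, D.u c (pd p c) <+: pr p c
  act : D.Active s (loc p)
  kle : ∀ c, D.k s (loc p) ≤ pd p c
  inb : ∀ c, D.inB (base p) c (pr p c)
  tg : tag p = 0 ∨ (tag p = 1 ∧ loc p ≠ [] ∧
      D.cell (last (loc p)) false (pr p false) = D.cell (last (loc p)) true (pr p true) ∧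
      D.cell (last (loc p)) false (pr p false) ≠ 0) ∨
    (tag p = 2 ∧ loc p ≠ [] ∧
      D.inB (up 1 (loc p)) ((loc p).length + 1).bodd (pr p ((loc p).length + 1).bodd))

/-- From stage `s` on the pair containing `y` on side `c` is a refinement of `p`. -/
def PermAt (s : ℕ) (p : Pair) (c : Bool) (y : Pt) : Prop :=
  p ∈ D.cfg s ∧ y ∈ cyl (pr p c) ∧
    ∀ t, s ≤ t → ∀ q ∈ D.cfg t, y ∈ cyl (pr q c) → ∃ w, q = sub p w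

/-- Pieces on side `a` of pairs based above `δ` in state `ν`. -/
def O (δ : Node) (N : ℕ) (ν : Str) (a : Bool) : Set Pt :=
  {y | ∃ s, ∃ p ∈ D.cfg s, δ <+: base p ∧ D.St s N p = ν ∧ y ∈ cyl (pr p a)}

/-- The image of the set number `e` of side `c`. -/
def V (s0 e : ℕ) (c : Bool) (α : Node) (d : ℕ) : Set Pt :=
  {z | ∃ s, s0 ≤ s ∧ ∃ p ∈ D.cfg s, D.inW s e (pr p c) = true ∧
    (α <+: base p ∨ (tag p = 1 ∧ loc p <+: α) ∨ pd p c ≤ d) ∧ z ∈ cyl (pr p (!c))}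

variable {D}
@[simp] theorem pd_relo (s : ℕ) (p : Pair) (c : Bool) : pd (D.relo s p) c = pd p c := by
  unfold relo; cases D.act s <;> simp
@[simp] theorem pr_relo (s : ℕ) (p : Pair) (c : Bool) : pr (D.relo s p) c = pr p c := by
  unfold relo; cases D.act s <;> simp
theorem relo_none {s : ℕ} (h : D.act s = none) (p : Pair) : D.relo s p = p := by simp [relo, h]
theorem relo_some {s : ℕ} {β : Node} (h : D.act s = some β) (p : Pair) :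
    D.relo s p = rel β p := by simp [relo, h]
theorem relo_eq {s : ℕ} {p : Pair} (h : ∀ β, D.act s = some β → ¬ Lf β (loc p)) :
    D.relo s p = p := by
  cases e : D.act s with
  | none => exact relo_none e p
  | some β => rw [relo_some e, rel_of_not (h β e)]

/-- Where the pairs of stage `s + 1` come from. -/
theorem Ok.step (ok : D.Ok) {s : ℕ} {q : Pair} (hq : q ∈ D.cfg (s + 1)) :
    (∃ z : Str, z.length = s + 1 ∧ q = D.new s z) ∨ (∃ p ∈ D.cfg s, D.Pure s p q) ∨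
    ∃ β t b, D.act s = some β ∧ D.CanS s β ∧ t ∈ D.cfg s ∧ D.Tgt s β t ∧
      (q = sub (D.pA s β t) [b] ∨ q = sub (D.pB s β t) [b]) := by
  rcases (ok.cfgS s q).1 hq with ⟨p, b, hp, rfl⟩ | h
  swap
  · exact Or.inl h
  right
  have key : ∀ β γ, D.act s = some β → D.act s = some γ → γ = β := fun β γ h h' => by
    simpa [h] using h'.symm
  rcases hp with ⟨h1, h2⟩ | ⟨β, h1, ⟨h2, r, hr, rfl⟩ | ⟨h2, ⟨r, hr, -, h3, rfl⟩ |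
    ⟨w, -, -, rfl⟩ | ⟨t, ht, h3, h4⟩⟩⟩
  · exact Or.inl ⟨p, h2, ⟨[b], by simp, by rw [relo_none h1]⟩, fun β h => by simp [h1] at h⟩
  · exact Or.inl ⟨r, hr, ⟨[b], by simp, by rw [relo_some h1]⟩,
      fun γ h h' => (h2 (key β γ h1 h ▸ h')).elim⟩
  · exact Or.inl ⟨r, hr, ⟨[b], by simp, by rw [relo_some h1]⟩,
      fun γ h _ => key β γ h1 h ▸ h3⟩
  · have := ok.sup_mem s β h1 h2
    exact Or.inl ⟨_, this.1, ⟨w ++ [b], by simp, by rw [relo_some h1, sub_sub]⟩,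
      fun γ h _ => key β γ h1 h ▸ ok.not_tgt_sup h2.1 this.2⟩
  · exact Or.inr ⟨β, t, b, h1, h2, ht, h3, h4.imp (fun e => by rw [e]) fun e => by rw [e]⟩

end Dat

namespace Inp
variable (I : Inp)

/-- The matching of the two classes along the path `f`. -/
def Mp (f : ℕ → ℕ) (y : Bool → Pt) : Prop := (∀ c, y c ∈ I.P c) ∧ ∀ n, I.Agree f n y

/-- `M` is a proper homeomorphism between the complements of the two classes. -/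
structure Mat (M : (Bool → Pt) → Prop) : Prop where
  out : ∀ y, M y → ∀ c, y c ∉ I.P c
  ex : ∀ c z, z ∉ I.P c → ∃ y, M y ∧ y c = z
  uniq : ∀ y y' c, M y → M y' → y c = y' c → y = y'
  cont : ∀ y, M y → ∀ c L, ∃ L', ∀ y', M y' → y' (!c) ∈ cyl (seg (y (!c)) L') →
    y' c ∈ cyl (seg (y c) L)
  prop : ∀ d, ∃ d', ∀ y, M y → ∀ c c' e e', y c ∈ cyl (I.u c e) → y c' ∈ cyl (I.u c' e') →
    e ≤ d → e' < d'

/-- `M` respects the cells along `f` outside compact sets. -/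
def Addr (f : ℕ → ℕ) (M : (Bool → Pt) → Prop) : Prop :=
  ∀ n, ∃ d, ∀ y, M y → (∀ c e, y c ∈ cyl (I.u c e) → d ≤ e) → ∀ i, i ≤ n → I.Agree f i y

def GeoPath (f : ℕ → ℕ) : Prop := ∀ n, I.Geo (fn f (n + 1)) ∧ ∀ c, I.x c ∈ I.bP (fn f n) c

end Inp

/-- A bijection of Cantor space preserving effectively open sets maps `P` onto `Q`. -/
def Iso (P Q : Set Pt) : Prop :=
  ∃ H : Pt ≃ Pt, H '' P = Q ∧ (∀ O, CeO O → CeO (H '' O)) ∧ ∀ O, CeO O → CeO (H.symm '' O)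

def JT (P : Set Pt) : Prop := ∀ O, CeO O → ∃ C, IsClopen C ∧ P ∩ closure O = P ∩ C

def Gd (k : ℕ) (P : Set Pt) : Prop :=
  IsPi01 P ∧ P.Countable ∧ (derivedSet P).encard = k ∧ JT P

structure Emb (e : Pt → Pt) : Prop where
  cont : Continuous e
  inj : Function.Injective e
  clopen : IsClopen (range e)
  img : ∀ O, CeO O → CeO (e '' O)
  pre : ∀ O, CeO O → CeO (e ⁻¹' O)

/-! ### Pairs -/

def S_INV : Prop := ∀ D : Dat, D.Ok → ∀ s, ∀ p ∈ D.cfg s, D.Inv s p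

def S_COV : Prop := ∀ D : Dat, D.Ok → ∀ s c d y, d < s → y ∈ cyl (D.u c d) →
  ∃ p ∈ D.cfg s, y ∈ cyl (pr p c)

def S_UNQ : Prop := ∀ D : Dat, D.Ok → ∀ s c, ∀ p ∈ D.cfg s, ∀ q ∈ D.cfg s, ∀ y,
  y ∈ cyl (pr p c) → y ∈ cyl (pr q c) → p = q

def S_DESC : Prop := ∀ D : Dat, D.Ok → ∀ s t c, s ≤ t → ∀ p ∈ D.cfg s, ∀ q ∈ D.cfg t, ∀ y,
  y ∈ cyl (pr p c) → y ∈ cyl (pr q c) → pr p c <+: pr q c ∧ pd q c = pd p c

def S_TR : Prop := ∀ D : Dat, D.Ok → ∀ s c p q, D.Succ s c p q → D.Pure s p q ∨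
  ∃ β t b, D.act s = some β ∧ D.CanS s β ∧ t ∈ D.cfg s ∧ D.Tgt s β t ∧
    ((q = sub (D.pA s β t) [b] ∧
      ((c = D.side s β ∧ p = D.sup s) ∨ (c = (!D.side s β) ∧ p = t))) ∨
     (q = sub (D.pB s β t) [b] ∧
      ((c = D.side s β ∧ p = t) ∨ (c = (!D.side s β) ∧ p = D.sup s))))

def S_REG : Prop := ∀ D : Dat, D.Ok → ∀ (R : Set Node) (s1 : ℕ), [] ∉ R →
  (∀ β ∈ R, ∀ γ, β <+: γ → γ ∈ R) → (∀ t, s1 ≤ t → ∀ β, D.act t = some β → β ∉ R) →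
  ∀ t, ∀ p ∈ D.cfg t, loc p ∈ R → ∀ c, pd p c < s1

/-! ### Nodes -/

def S_DICH : Prop := ∀ D : Dat, D.Ok → ∀ s β, D.Calm s β → (∃ t, D.Still t β) ∨ D.Live β

def S_QUIET : Prop := ∀ D : Dat, D.Ok → ∀ d, ∃ t1, d < t1 ∧ ∀ t, t1 ≤ t → ∀ β,
  D.Active t β → D.k t β ≤ d → D.Calm t β ∧ β.length ≤ d + 1 ∧
    (D.act t = some β → D.Live β ∧ ∀ γ, γ <+: β → d ≤ D.m t γ)

def S_GEO : Prop := ∀ D : Dat, D.Ok → ∀ β, D.Live β →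
  (β ≠ [] → D.Geo β) ∧ ∀ c, D.x c ∈ D.bP β c

def S_CHK : Prop := ∀ (I : Inp) (β : Node) (M : ℕ), I.Geo β → ∃ s0, ∀ s, s0 ≤ s → I.ChkAt s β M

def S_GUESS : Prop := ∀ (I : Inp) (δ : Node) (a : Bool) (n : ℕ), (∀ c, I.x c ∈ I.bP δ c) →
  ∃ i, I.Geo (δ ++ [i]) ∧ I.bP (δ ++ [i]) a ⊆ cyl (seg (I.x a) n)

/-! ### Stabilization -/

def S_FIX : Prop := ∀ D : Dat, D.Ok → ∀ η s p c y, D.Live η → η ≠ [] → D.PermAt s p c y →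
  (lab p = (up 1 η, 0) ∨ lab p = (η, 2)) → (∀ t c', D.k t η ≤ pd p c') → False

def S_PURE : Prop := ∀ D : Dat, D.Ok → ∀ c d y M, y ∈ cyl (D.u c d) →
  ∃ s, M ≤ s ∧ ∃ p, D.PermAt s p c y

def S_PIND : Prop := ∀ D : Dat, D.Ok → ∀ s, ∀ p ∈ D.cfg s, D.Calm s (loc p) →
  (∀ t, s ≤ t → ∀ w β, sub p w ∈ D.cfg t → D.act t = some β → D.CanS t β →
    ¬ D.Tgt t β (sub p w) ∧ ¬ D.Sup t β (sub p w)) → D.Perm s p

def S_PERM : Prop := ∀ D : Dat, D.Ok → ∀ c d y, y ∈ cyl (D.u c d) →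
  ∃ s p, D.Perm s p ∧ y ∈ cyl (pr p c)

def S_UNIF : Prop := ∀ D : Dat, D.Ok → ∀ d, ∃ s, d < s ∧
  (∀ t, s ≤ t → ∀ p ∈ D.cfg t, ∀ c, pd p c ≤ d → D.Perm t p) ∧
  ∀ t, ∀ p ∈ D.cfg t, ∀ c c', pd p c ≤ d → pd p c' < s

def S_MT : Prop := ∀ D : Dat, D.Ok → D.Mat D.Mt

/-! ### The true path -/

def S_SIG : Prop := ∀ D : Dat, D.Ok → (∀ δ N ν a, CeO (D.O δ N ν a)) ∧
  ∀ s0 e c α d, CeO (D.V s0 e c α d)

def S_BLOCK : Prop := ∀ D : Dat, D.Ok → ∀ S s1, D.Active s1 S → D.Calm s1 S → D.Still s1 S →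
  (∀ M, ∃ s, M ≤ s ∧ ∃ γ, D.Active s γ ∧ D.srv s γ = S ∧ D.Need s γ) →
  ∃ γ z, D.Active s1 γ ∧ D.srv s1 γ = S ∧ γ ≠ [] ∧
    (∀ s, s1 ≤ s → ∀ p ∈ D.cfg s, ¬ D.Sup s γ p) ∧
    (∃ s, s1 ≤ s ∧ ∃ t ∈ D.cfg s, D.Tgt s γ t) ∧ z ∈ D.P (D.side s1 γ) ∧
    z ∈ D.bP (up 1 γ) (D.side s1 γ) ∧ D.cellP (last γ) (D.side s1 γ) z = D.jj s1 γ

def S_STUCK : Prop := ∀ D : Dat, D.Ok → ∀ S s1, D.Active s1 S → D.Calm s1 S → D.Still s1 S →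
  (∀ M, ∃ s, M ≤ s ∧ ∃ γ, D.Active s γ ∧ D.srv s γ = S ∧ D.Need s γ) →
  (∀ a ν, (S ≠ [] → a = S.length.bodd) →
    (∃ y ∈ D.O (up 1 S) S.length ν a, y ∈ D.bP S a) →
    ∀ z ∈ D.P a, z ∈ D.bP S a → z ∈ closure (D.O (up 1 S) S.length ν a)) → False

def S_ROOT : Prop := ∀ D : Dat, D.Ok → D.Live []

def S_CHILD : Prop := ∀ D : Dat, D.Ok → ∀ δ, D.Live δ → ∃ i, D.Live (δ ++ [i])

def S_GOOD : Prop := ∀ D : Dat, D.Ok → ∀ f, (∀ n, D.Live (fn f n)) → ∀ n, ∃ d, ∀ s p,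
  D.Perm s p → (∀ c, d ≤ pd p c) → fn f n <+: base p ∨ (tag p = 1 ∧ loc p <+: fn f n)

def S_ADDR : Prop := ∀ D : Dat, D.Ok → ∀ f, (∀ n, D.Live (fn f n)) → D.Addr f D.Mt

def S_BINV : Prop := ∀ D : Dat, D.Ok → ∀ (α : Node) (n s : ℕ) (p q : Pair),
  α.length = n + 1 → D.Calm s α → D.Succ s (!(n + 1).bodd) p q → α <+: base p →
  D.inW s (n / 2) (pr p (n + 1).bodd) = true →
  α <+: base q ∧ D.inW (s + 1) (n / 2) (pr q (n + 1).bodd) = true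

def S_TERM : Prop := ∀ D : Dat, D.Ok → ∀ s, ∀ p ∈ D.cfg s, tag p = 1 → D.Calm s (loc p) →
  D.Perm s p

def S_BLUE : Prop := ∀ D : Dat, D.Ok → ∀ f, (∀ n, D.Live (fn f n)) → ∀ e c,
  CeO {z | ∃ y, D.Mt y ∧ y c ∈ D.W e ∧ y (!c) = z}

/-! ### Assembly -/

def S_MP : Prop := ∀ (I : Inp) (f : ℕ → ℕ), I.GeoPath f →
  (∀ c, ∀ z ∈ I.P c, ∃ y, I.Mp f y ∧ y c = z) ∧
  ∀ y y' c, I.Mp f y → I.Mp f y' → y c = y' c → y = y'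

def S_LOC : Prop := ∀ (I : Inp) (f : ℕ → ℕ) (M : (Bool → Pt) → Prop), I.GeoPath f → I.Mat M →
  I.Addr f M → ∀ y, I.Mp f y → ∀ c L, ∃ L', ∀ y', (M y' ∨ I.Mp f y') →
    y' (!c) ∈ cyl (seg (y (!c)) L') → y' c ∈ cyl (seg (y c) L)

def S_ASM : Prop := ∀ (I : Inp) (f : ℕ → ℕ) (M : (Bool → Pt) → Prop), I.GeoPath f → I.Mat M →
  I.Addr f M → (∀ e c, CeO {z | ∃ y, M y ∧ y c ∈ I.W e ∧ y (!c) = z}) →
  Iso (I.P false) (I.P true)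

def S_IMPL : Prop := ∀ I : Inp, ∃ D : Dat, D.toInp = I ∧ D.Ok

/-! ### Input data -/

def S_INU : Prop := ∀ P : Set Pt, IsPi01 P → P.Nonempty → (∀ σ, ∃ y ∈ cyl σ, y ∉ P) →
  ∃ u : ℕ → Str, Computable u ∧ (∀ n m y, y ∈ cyl (u n) → y ∈ cyl (u m) → n = m) ∧
    ∀ y, y ∉ P ↔ ∃ n, y ∈ cyl (u n)

def S_INW : Prop := ∃ inW : ℕ → ℕ → Str → Bool,
  Computable (fun q : ℕ × ℕ × Str => inW q.1 q.2.1 q.2.2) ∧
  (∀ s s' e σ σ', s ≤ s' → σ <+: σ' → inW s e σ = true → inW s' e σ' = true) ∧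
  ∀ O, CeO O → ∃ e, ∀ y, y ∈ O ↔ ∃ s, inW s e (seg y s) = true

def S_INC : Prop := (∃ cell : ℕ → Bool → Str → ℕ,
  Computable (fun q : ℕ × Bool × Str => cell q.1 q.2.1 q.2.2) ∧
  (∀ i a σ σ', i ≤ σ.length → σ <+: σ' → cell i a σ' = cell i a σ) ∧
  ∀ (L : ℕ) (c : Bool → Str → ℕ), ∃ i, ∀ a y, cell i a (seg y i) = c a (seg y L)) ∧
  ∃ it : ℕ → Bool × Str × ℕ, Computable it ∧ ∀ q M, ∃ n, M ≤ n ∧ it n = q

def S_EQV : Prop := ∀ P : Set Pt, IsPi01 P → P.Countable → (∀ σ, ∃ y ∈ cyl σ, y ∉ P) ∧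
  ((∀ F, F ⊆ P → IsPi01Jump F → ∃ C, IsClopen C ∧ F = P ∩ C) ↔ JT P)

def S_TOP : Prop := ∀ P : Set Pt, Gd 1 P → ∃ x ∈ P,
  (∀ y ∈ P, y ≠ x → ∃ n, ∀ z ∈ P, z ∈ cyl (seg y n) → z = y) ∧
  (∀ n, ∃ y ∈ P, y ∈ cyl (seg x n) ∧ y ≠ x) ∧
  (∀ O, CeO O → x ∈ closure O → ∃ n, ∀ y ∈ P, y ∈ cyl (seg x n) → y ∈ closure O) ∧
  ∀ O, CeO O → ∃ C, IsClopen C ∧ C ⊆ O ∧ P ∩ O ⊆ C

def S_INP : Prop := ∀ P Q : Set Pt, Gd 1 P → Gd 1 Q → ∃ I : Inp, I.P false = P ∧ I.P true = Q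

def S_ONE : Prop := ∀ P Q : Set Pt, Gd 1 P → Gd 1 Q → Iso P Q

/-! ### Several limit points -/

def S_EMB : Prop := ∀ C : Set Pt, IsClopen C → C.Nonempty → ∃ e, Emb e ∧ range e = C

def S_RES : Prop := ∀ (e : Pt → Pt) (k j : ℕ) (P : Set Pt), Emb e → Gd k P →
  (derivedSet P ∩ range e).encard = j → Gd j (e ⁻¹' P)

def S_UNI : Prop := ∀ (e e' : Pt → Pt) (j k : ℕ) (P Q : Set Pt), Emb e → Emb e' →
  range e' = (range e)ᶜ → Gd j P → Gd k Q → Gd (j + k) (e '' P ∪ e' '' Q)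

def S_GLUE : Prop := ∀ (e₁ e₂ g₁ g₂ : Pt → Pt) (P Q : Set Pt), Emb e₁ → Emb e₂ → Emb g₁ →
  Emb g₂ → range e₂ = (range e₁)ᶜ → range g₂ = (range g₁)ᶜ → Iso (e₁ ⁻¹' P) (g₁ ⁻¹' Q) →
  Iso (e₂ ⁻¹' P) (g₂ ⁻¹' Q) → Iso P Q

def S_IND : Prop := ∀ (k : ℕ) (P Q : Set Pt), 0 < k → Gd k P → Gd k Q → Iso P Q

def S_AUT : Prop := ∀ P Q : EPi, (Iso P.1 Q.1 → Automorphic P Q) ∧
  ∀ k, Automorphic P Q → Gd k P.1 → Gd k Q.1

/-! ### Existence -/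

def S_STACK : Prop := ∀ (R : Type) [Primcodable R] (r0 : R) (nxt : ℕ → List R → R)
  (bad : ℕ → R → Bool), Computable (fun q : ℕ × List R => nxt q.1 q.2) →
  Computable (fun q : ℕ × R => bad q.1 q.2) → (∀ s r, bad s r = true → bad (s + 1) r = true) →
  (∀ s, bad s r0 = false) → (∀ K, ∃ s0, ∀ s, s0 ≤ s → ∀ s', bad s' (nxt s K) = false) →
  ∃ (ρ : ℕ → R) (st : ℕ → ℕ) (S : ℕ → List R), Computable S ∧ ρ 0 = r0 ∧ StrictMono st ∧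
    (∀ t, ρ (t + 1) = nxt (st t) ((List.range (t + 1)).map ρ)) ∧
    (∀ t s, bad s (ρ t) = false) ∧ (∀ s, r0 ∈ S s) ∧ (∀ t s, st t < s → ρ (t + 1) ∈ S s) ∧
    ∀ t s, st t < s → ∀ r ∈ S s, (∃ i, i ≤ t + 1 ∧ r = ρ i) ∨ ∃ s' K, st t < s' ∧ r = nxt s' K

def S_EXA : Prop := ∀ inW : ℕ → ℕ → Str → Bool,
  Computable (fun q : ℕ × ℕ × Str => inW q.1 q.2.1 q.2.2) →
  (∀ s s' e σ σ', s ≤ s' → σ <+: σ' → inW s e σ = true → inW s' e σ' = true) →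
  ∃ τ lam : ℕ → Str, Sig (fun σ : Str => ∀ t, τ t ≠ σ) ∧ τ 0 = [] ∧
    (∀ t, ∃ j s, j ≤ t ∧ (τ t).length ≤ s ∧ τ (t + 1) = seg (pt (τ j)) s ++ [true]) ∧
    (∀ e, e ≤ (lam e).length ∧ ∃ t0, ∀ t, t0 ≤ t → lam e <+: τ t) ∧
    ∀ e, (∀ y ∈ cyl (lam (e + 1)), ∀ s, inW s e (seg y s) = false) ∨
      ∀ j, pt (τ j) ∈ cyl (lam e) → ∀ n, ∃ y ∈ cyl (seg (pt (τ j)) n),
        ∃ s, inW s e (seg y s) = true

def S_FINB : Prop := ∀ (P F : Set Pt) (x : Pt) (n : ℕ), IsClosed P → derivedSet P ⊆ {x} →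
  F ⊆ P → (P ∩ cyl (seg x n) ⊆ F ∨ P ∩ cyl (seg x n) ⊆ Fᶜ) → ∃ C, IsClopen C ∧ F = P ∩ C

def S_EX : Prop := ∃ P, Gd 1 P

end Pool.Agent.P.MP_54474a_lc.OR
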