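import Pool.Agent.P.MP_54474a_lc.OR.Dec

/-!
The construction as a computable recursion on snapshots.
-/

namespace Pool.Agent.P.MP_54474a_lc.OR

namespace Impl

open Set Pool.Agent.Lib.Helper43

attribute [local irreducible] Computable

/-- Stage, actor, whether it served, and its counter. -/
abbrev Rec : Type := ℕ × Node × Bool × ℕ
abbrev Sn : Type := List Pair × List Rec

noncomputable def upd (γ : Node) (st : ℕ × ℕ × Bool) (r : Rec) : ℕ × ℕ × Bool :=
  cond (tv (Lf r.2.1 γ) || (!r.2.2.1 && γ == r.2.1 ++ [r.2.2.2])) (r.1, 0, false)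
    (cond (γ == r.2.1) (cond r.2.2.1 (st.1, st.2.1, true) (st.1, st.2.1 + 1, false)) st)

noncomputable def ns (h : List Rec) (γ : Node) : ℕ × ℕ × Bool := h.foldl (upd γ) (0, 0, false)

def cands (X : Sn) : List Node :=
  [] :: X.2.flatMap fun r => (List.range X.2.length).map fun i => r.2.1 ++ [i]

variable {α : Type} [Primcodable α] (I : Inp)

noncomputable def snap (X : Sn) : Dat :=
  { I with
    cfg := fun _ => {p | p ∈ X.1}
    k := fun _ β => (ns X.2 β).1
    m := fun _ β => (ns X.2 β).2.1
    sv := fun _ β => (ns X.2 β).2.2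
    act := fun _ => none
    sup := fun _ => default
    len := fun _ => 0
    code := fun _ _ => [] }

theorem ns_concat (h : List Rec) (r : Rec) (γ : Node) : ns (h ++ [r]) γ = upd γ (ns h γ) r := by
  simp [ns]

theorem ns_bound (h : List Rec) (γ : Node) :
    (ns h γ).2.1 ≤ h.length ∧ (0 < (ns h γ).2.1 → ∃ r ∈ h, r.2.1 = γ) := by
  induction h using List.reverseRecOn with
  | nil => simp [ns]
  | append_singleton h r ih =>
    rw [ns_concat]
    by_cases e : γ = r.2.1
    · refine ⟨?_, fun _ => ⟨r, by simp, e.symm⟩⟩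
      unfold upd
      cases (tv (Lf r.2.1 γ) || (!r.2.2.1 && γ == r.2.1 ++ [r.2.2.2])) <;> cases r.2.2.1 <;>
        simp [e] <;> rw [← e] <;> omega
    · unfold upd
      cases (tv (Lf r.2.1 γ) || (!r.2.2.1 && γ == r.2.1 ++ [r.2.2.2]))
      · have : (γ == r.2.1) = false := by simpa using e
        simp only [this, cond_false, List.length_append, List.mem_append]
        exact ⟨by omega, fun h' => (ih.2 h').imp fun r hr => ⟨Or.inl hr.1, hr.2⟩⟩
      · simp

theorem mem_cands {X : Sn} {s : ℕ} {β : Node} (h : (snap I X).Active s β) : β ∈ cands X := by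
  rcases List.eq_nil_or_concat' β with rfl | ⟨δ, i, rfl⟩
  · simp [cands]
  · have h1 : i < (ns X.2 δ).2.1 := (Dat.active_concat.1 h).2
    obtain ⟨r, hr, rfl⟩ := (ns_bound X.2 δ).2 (by omega)
    have h2 := (ns_bound X.2 r.2.1).1
    simp only [cands, List.mem_cons, List.mem_flatMap, List.mem_map, List.mem_range]
    exact Or.inr ⟨r, hr, i, by omega, rfl⟩

noncomputable def actor (s : ℕ) (X : Sn) : Option Node :=
  (cands X).find? fun β => tv ((snap I X).Can s β ∧ ∀ γ ∈ cands X, (snap I X).Can s γ → ¬ Hi γ β)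

noncomputable def supC (s : ℕ) (X : Sn) : Pair :=
  ((actor I s X).bind fun β => X.1.find? fun p => tv ((snap I X).Sup s β p)).getD default

def lenC (X : Sn) : ℕ := X.1.foldl (fun n p => n + Encodable.encode p + 1) 0

def codeC (X : Sn) (t : Pair) : Str := (List.range (lenC X)).map fun i => i == Encodable.encode t

noncomputable def snap' (s : ℕ) (X : Sn) : Dat :=
  { snap I X with
    act := fun _ => actor I s X
    sup := fun _ => supC I s X
    len := fun _ => lenC X
    code := fun _ => codeC X }

noncomputable def midS (s : ℕ) (X : Sn) (β : Node) : List Pair :=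
  (X.1.filter fun p => tv (p ≠ supC I s X ∧ ¬ (snap I X).Tgt s β p)).map (rel β) ++
  ((strs (lenC X)).filter fun w => tv (∀ t ∈ X.1, (snap I X).Tgt s β t → codeC X t ≠ w)).map
    (sub (rel β (supC I s X))) ++
  (X.1.filter fun t => tv ((snap I X).Tgt s β t)).flatMap
    fun t => [(snap' I s X).pA s β t, (snap' I s X).pB s β t]

noncomputable def mid (s : ℕ) (X : Sn) : List Pair :=
  ((actor I s X).map fun β =>
    cond (tv ((snap I X).CanS s β)) (midS I s X β) (X.1.map (rel β))).getD X.1

noncomputable def step (s : ℕ) (X : Sn) : Sn :=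
  (((mid I s X).flatMap fun p => [sub p [false], sub p [true]]) ++ (strs (s + 1)).map (I.new s),
    ((actor I s X).map fun β =>
      X.2 ++ [(s, β, tv ((snap I X).CanS s β), (ns X.2 β).2.1)]).getD X.2)

noncomputable def run (s : ℕ) : Sn := @Nat.rec (fun _ => Sn) ([], []) (step I) s

noncomputable def dat : Dat :=
  { I with
    cfg := fun s => {p | p ∈ (run I s).1}
    k := fun s β => (ns (run I s).2 β).1
    m := fun s β => (ns (run I s).2 β).2.1
    sv := fun s β => (ns (run I s).2 β).2.2
    act := fun s => actor I s (run I s)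
    sup := fun s => supC I s (run I s)
    len := fun s => lenC (run I s)
    code := fun s => codeC (run I s) }

/-! ### Computability -/

section
variable {s : α → ℕ} {X : α → Sn} {β : α → Node} {p : α → Pair}

@[fun_prop] theorem c_ns {h : α → List Rec} (hh : Computable h) (hβ : Computable β) :
    Computable fun a => ns (h a) (β a) := by
  unfold ns upd
  refine CFP.foldl (h := fun a st r => _) (CFP.cond (CFP.or (Dec.lf ?_ ?_) ?_) ?_ ?_) ?_ hh <;>
    fun_prop

@[fun_prop] theorem c_cands (hX : Computable X) : Computable fun a => cands (X a) := by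
  unfold cands; fun_prop

@[fun_prop] theorem c_m (hX : Computable X) (hβ : Computable β) :
    Computable fun a => (snap I (X a)).m (s a) (β a) := by
  change Computable fun a => (ns (X a).2 (β a)).2.1; fun_prop

@[fun_prop] theorem c_k (hX : Computable X) (hβ : Computable β) :
    Computable fun a => (snap I (X a)).k (s a) (β a) := by
  change Computable fun a => (ns (X a).2 (β a)).1; fun_prop

@[fun_prop] theorem c_sv (hX : Computable X) (hβ : Computable β) :
    Computable fun a => (snap I (X a)).sv (s a) (β a) := by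
  change Computable fun a => (ns (X a).2 (β a)).2.2; fun_prop

theorem c_tau (hX : Computable X) (hβ : Computable β) :
    Computable fun a => (snap I (X a)).tau (s a) (β a) := by
  change Computable fun a => cond (I.it (ns (X a).2 (β a)).2.1).1 2 1; fun_prop

theorem c_nu (hX : Computable X) (hβ : Computable β) :
    Computable fun a => (snap I (X a)).nu (s a) (β a) := by
  change Computable fun a => (I.it (ns (X a).2 (β a)).2.1).2.1; fun_prop

theorem c_jj (hX : Computable X) (hβ : Computable β) :
    Computable fun a => (snap I (X a)).jj (s a) (β a) := by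
  change Computable fun a => (I.it (ns (X a).2 (β a)).2.1).2.2; fun_prop

theorem c_srv (hX : Computable X) (hβ : Computable β) :
    Computable fun a => (snap I (X a)).srv (s a) (β a) := c_up (c_tau I hX hβ) hβ

theorem c_side (hX : Computable X) (hβ : Computable β) :
    Computable fun a => (snap I (X a)).side (s a) (β a) :=
  CFP.bodd (CFP.add (CFP.length hβ) (c_tau I hX hβ))

theorem c_tlab (hX : Computable X) (hβ : Computable β) :
    Computable fun a => (snap I (X a)).tlab (s a) (β a) :=
  (Dec.eq (c_tau I hX hβ) (by fun_prop)).ite (by fun_prop) (by fun_prop)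

theorem d_active (hX : Computable X) (hβ : Computable β) :
    Dec fun a => (snap I (X a)).Active (s a) (β a) := by
  refine Dec.of_iff (p := fun a => ∀ n ∈ List.range (β a).length,
    (β a).getD n 0 < (ns (X a).2 ((β a).take n)).2.1) ?_ fun a => ⟨fun h γ i hi => ?_, fun h n hn => ?_⟩
  · exact Dec.ball (by fun_prop) (Dec.lt (by fun_prop) (by fun_prop))
  · obtain ⟨l, hl⟩ := hi
    have := h γ.length (by simp [← hl])
    change i < (ns (X a).2 γ).2.1
    simpa [← hl] using this
  · rw [List.mem_range] at hn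
    refine h _ _ ?_
    rw [List.getD_eq_getElem _ _ hn, ← List.take_succ_eq_append_getElem hn]
    exact List.take_prefix _ _

theorem d_tgt (hs : Computable s) (hX : Computable X) (hβ : Computable β) (hp : Computable p) :
    Dec fun a => (snap I (X a)).Tgt (s a) (β a) (p a) := by
  have h1 := c_side I (s := s) hX hβ
  refine Dec.and (Dec.eq ?_ (c_tlab I hX hβ)) (Dec.and (Dec.allB (Dec.le ?_ ?_))
    (Dec.and (Dec.exB (Dec.le ?_ ?_)) (Dec.and
      (Dec.eq (c_St I hs (CFP.length (c_srv I hX hβ)) hp) (c_nu I hX hβ))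
      (Dec.eq (c_cell I ?_ (CFP.not h1) (c_pr hp (CFP.not h1))) (c_jj I hX hβ))))) <;> fun_prop

theorem d_sup (hs : Computable s) (hX : Computable X) (hβ : Computable β) (hp : Computable p) :
    Dec fun a => (snap I (X a)).Sup (s a) (β a) (p a) := by
  have h1 := c_side I (s := s) hX hβ
  have h2 := c_srv I (s := s) hX hβ
  refine Dec.and (Dec.eq ?_ (CFP.prodMk (c_up ?_ h2) ?_))
    (Dec.and (Dec.allB (Dec.and (Dec.le ?_ ?_)
      (Dec.lt (c_m I ?_ (CFP.comp h2 (CFP.fst CFP.id))) ?_))) (Dec.and
      (Dec.eq (c_St I hs (CFP.length h2) hp) (c_nu I hX hβ))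
      (Dec.and (Dec.inB I ?_ h1 (c_pr hp h1))
      (Dec.eq (c_cell I ?_ h1 (c_pr hp h1)) (c_jj I hX hβ))))) <;> fun_prop

theorem d_need (hs : Computable s) (hX : Computable X) (hβ : Computable β) :
    Dec fun a => (snap I (X a)).Need (s a) (β a) := by
  refine Dec.and (Dec.ne hβ ?_) (Dec.and (Dec.eq ?_ ?_) (Dec.and
    (Dec.bex (l := fun a => (X a).1) ?_ (d_tgt I ?_ ?_ ?_ ?_))
    (Dec.alive I hs hβ (c_side I hX hβ) (c_jj I hX hβ)))) <;> fun_prop

theorem d_canS (hs : Computable s) (hX : Computable X) (hβ : Computable β) :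
    Dec fun a => (snap I (X a)).CanS (s a) (β a) := by
  refine Dec.and (d_active I hX hβ) (Dec.and (Dec.ne hβ ?_) (Dec.and (Dec.eq ?_ ?_)
    (Dec.bex (l := fun a => (X a).1) ?_ (d_sup I ?_ ?_ ?_ ?_)))) <;> fun_prop

theorem d_canA (hs : Computable s) (hX : Computable X) (hβ : Computable β) :
    Dec fun a => (snap I (X a)).CanA (s a) (β a) := by
  refine Dec.and (d_active I hX hβ) (Dec.and (d_need I hs hX hβ).not (Dec.and
    (Dec.or (Dec.eq hβ ?_) (Dec.and (Dec.lt ?_ ?_) (Dec.chk I hs hβ ?_)))
    (Dec.of_iff (p := fun a => ∀ γ ∈ cands (X a), (snap I (X a)).Active (s a) γ →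
      (snap I (X a)).srv (s a) γ = β a → ¬ (snap I (X a)).Need (s a) γ)
      (Dec.ball (c_cands hX) (Dec.imp (d_active I ?_ ?_)
      (Dec.imp (Dec.eq (c_srv I ?_ ?_) ?_) (d_need I ?_ ?_ ?_).not)))
      fun a => ⟨fun h γ hγ => h γ (mem_cands I hγ) hγ, fun h γ _ => h γ⟩))) <;> fun_prop

theorem d_can (hs : Computable s) (hX : Computable X) (hβ : Computable β) :
    Dec fun a => (snap I (X a)).Can (s a) (β a) := (d_canS I hs hX hβ).or (d_canA I hs hX hβ)

@[fun_prop] theorem c_actor (hs : Computable s) (hX : Computable X) :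
    Computable fun a => actor I (s a) (X a) := by
  refine CFP.find? (Dec.and (d_can I ?_ ?_ ?_) (Dec.ball ?_ (Dec.imp (d_can I ?_ ?_ ?_)
    (Dec.hi ?_ ?_).not))) ?_ <;> fun_prop

@[fun_prop] theorem c_supC (hs : Computable s) (hX : Computable X) :
    Computable fun a => supC I (s a) (X a) := by
  refine CFP.optGetD (CFP.optBind ?_ (CFP.find? (d_sup I ?_ ?_ ?_ ?_) ?_)) ?_ <;> fun_prop

@[fun_prop] theorem c_lenC (hX : Computable X) : Computable fun a => lenC (X a) := by
  unfold lenC; fun_prop

@[fun_prop] theorem c_codeC (hX : Computable X) (hp : Computable p) :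
    Computable fun a => codeC (X a) (p a) := by unfold codeC; fun_prop

theorem c_pA (hs : Computable s) (hX : Computable X) (hβ : Computable β) (hp : Computable p) :
    Computable fun a => (snap' I (s a) (X a)).pA (s a) (β a) (p a) := by
  have h1 := c_side I (s := s) hX hβ
  refine c_mkp h1 (c_pc (c_sub (c_supC I hs hX) (c_codeC hX hp)) h1) (c_pc hp (CFP.not h1))
    (CFP.prodMk hβ ((Dec.eq (c_jj I (s := s) hX hβ) ?_).ite ?_ ?_)) <;> fun_prop

theorem c_pB (hs : Computable s) (hX : Computable X) (hβ : Computable β) (hp : Computable p) :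
    Computable fun a => (snap' I (s a) (X a)).pB (s a) (β a) (p a) := by
  have h1 := c_side I (s := s) hX hβ
  refine c_mkp h1 (c_pc hp h1) (c_pc (c_sub (c_supC I hs hX) (c_codeC hX hp)) (CFP.not h1))
    ((Dec.eq (c_tau I (s := s) hX hβ) ?_).ite ?_ ?_) <;> fun_prop

theorem c_midS (hs : Computable s) (hX : Computable X) (hβ : Computable β) :
    Computable fun a => midS I (s a) (X a) (β a) := by
  refine CFP.append (CFP.append
    (CFP.map ?_ (CFP.filter (Dec.and (Dec.ne ?_ ?_) (d_tgt I ?_ ?_ ?_ ?_).not) ?_))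
    (CFP.map ?_ (CFP.filter (Dec.ball ?_ (Dec.imp (d_tgt I ?_ ?_ ?_ ?_) (Dec.ne ?_ ?_))) ?_)))
    (CFP.flatMap (CFP.cons (c_pA I ?_ ?_ ?_ ?_) (CFP.cons (c_pB I ?_ ?_ ?_ ?_) ?_))
      (CFP.filter (d_tgt I ?_ ?_ ?_ ?_) ?_)) <;> fun_prop

@[fun_prop] theorem c_mid (hs : Computable s) (hX : Computable X) :
    Computable fun a => mid I (s a) (X a) := by
  refine CFP.optGetD (CFP.optMap ?_ (CFP.cond (d_canS I ?_ ?_ ?_) (c_midS I ?_ ?_ ?_) ?_)) ?_ <;>
    fun_prop

theorem c_step (hs : Computable s) (hX : Computable X) :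
    Computable fun a => step I (s a) (X a) := by
  refine CFP.prodMk ?_ (CFP.optGetD (CFP.optMap ?_ (CFP.append ?_ (CFP.cons (CFP.prodMk ?_
    (CFP.prodMk ?_ (CFP.prodMk (d_canS I ?_ ?_ ?_) ?_))) ?_))) ?_) <;> fun_prop

end

theorem c_run : Computable (run I) := by
  refine CFP.natRec (f := fun s : ℕ => s) (g := fun _ => (([], []) : Sn))
    (h := fun _ s X => step I s X) ?_ ?_ (c_step I ?_ ?_) <;> fun_prop

/-! ### The laws -/

theorem exists_hi_min {p : Node → Prop} (l : List Node) (h : ∃ γ ∈ l, p γ) :
    ∃ β ∈ l, p β ∧ ∀ γ ∈ l, p γ → ¬ Hi γ β := by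
  induction l with
  | nil => simp at h
  | cons a l ih =>
    by_cases h1 : ∃ γ ∈ l, p γ
    · obtain ⟨β, h2, h3, h4⟩ := ih h1
      by_cases h5 : p a ∧ Hi a β
      · refine ⟨a, by simp, h5.1, fun γ hγ hp hh => ?_⟩
        rcases List.mem_cons.1 hγ with rfl | hγ
        · exact Hi.irrefl _ hh
        · exact h4 γ hγ hp (hh.trans h5.2)
      · refine ⟨β, by simp [h2], h3, fun γ hγ hp hh => ?_⟩
        rcases List.mem_cons.1 hγ with rfl | hγ
        · exact h5 ⟨hp, hh⟩
        · exact h4 γ hγ hp hh
    · obtain ⟨γ, hγ, hp⟩ := h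
      rcases List.mem_cons.1 hγ with rfl | hγ
      · refine ⟨γ, by simp, hp, fun δ hδ hp' hh => ?_⟩
        rcases List.mem_cons.1 hδ with rfl | hδ
        · exact Hi.irrefl _ hh
        · exact h1 ⟨δ, hδ, hp'⟩
      · exact (h1 ⟨γ, hγ, hp⟩).elim

theorem lt_lenC {X : Sn} {t : Pair} (h : t ∈ X.1) : Encodable.encode t < lenC X := by
  have key : ∀ (l : List Pair) (n : ℕ), n ≤ l.foldl (fun n p => n + Encodable.encode p + 1) n ∧
      ∀ t ∈ l, Encodable.encode t < l.foldl (fun n p => n + Encodable.encode p + 1) n := by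
    intro l
    induction l with
    | nil => simp
    | cons a l ih =>
      intro n
      have := ih (n + Encodable.encode a + 1)
      refine ⟨by rw [List.foldl_cons]; omega, fun t ht => ?_⟩
      rw [List.foldl_cons]
      rcases List.mem_cons.1 ht with rfl | ht
      · omega
      · exact this.2 t ht
  exact (key X.1 0).2 t h

theorem mem_mid (s : ℕ) (q : Pair) : q ∈ mid I s (run I s) ↔ (dat I).Mid s q := by
  unfold mid Dat.Mid
  change _ ↔ (actor I s (run I s) = none ∧ q ∈ (run I s).1) ∨ ∃ β, actor I s (run I s) = some β ∧ _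
  cases actor I s (run I s) with
  | none => simp
  | some β =>
    simp only [Option.map_some, Option.getD_some, reduceCtorEq, false_and, Option.some.injEq,
      exists_eq_left', false_or]
    by_cases h : (snap I (run I s)).CanS s β
    · have h' : (dat I).CanS s β := h
      rw [tv_eq_true.2 h, cond_true]
      simp only [h', not_true, false_and, true_and, false_or, midS, List.mem_append, List.mem_map,
        List.mem_filter, List.mem_flatMap, tv_eq_true, mem_strs, or_assoc, List.mem_cons,
        List.not_mem_nil, or_false, and_assoc]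
      refine or_congr (exists_congr fun p => ?_) (or_congr (exists_congr fun w => ?_) Iff.rfl)
      · rw [eq_comm (b := q)]; rfl
      · rw [eq_comm (b := q)]; rfl
    · have h' : ¬ (dat I).CanS s β := h
      rw [tv_eq_false.2 h, cond_false]
      simp only [h', not_false_iff, false_and, true_and, or_false, List.mem_map]
      refine exists_congr fun p => ?_
      rw [eq_comm (b := q)]; rfl

theorem hist_none {s : ℕ} (h : (dat I).act s = none) : (run I (s + 1)).2 = (run I s).2 := by
  have h' : actor I s (run I s) = none := h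
  change (step I s (run I s)).2 = _
  simp [step, h']

theorem ns_some {s : ℕ} {β : Node} (h : (dat I).act s = some β) (γ : Node) :
    ns (run I (s + 1)).2 γ =
      upd γ (ns (run I s).2 γ) (s, β, tv ((dat I).CanS s β), (dat I).m s β) := by
  have h' : actor I s (run I s) = some β := h
  rw [← ns_concat]
  change ns (step I s (run I s)).2 γ = _
  simp only [step, h', Option.map_some, Option.getD_some]
  rfl

theorem dat_ok : (dat I).Ok where
  cfg0 := by ext p; simp [dat, run]
  cfgS s q := by
    change q ∈ (step I s (run I s)).1 ↔ _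
    simp only [step, List.mem_append, List.mem_flatMap, List.mem_map, mem_mid, mem_strs,
      List.mem_cons, List.not_mem_nil, or_false, Bool.exists_bool, and_or_left]
    refine or_congr Iff.rfl (exists_congr fun z => ?_)
    rw [eq_comm (b := q)]; rfl
  st0 β := ⟨rfl, rfl, rfl⟩
  st_reset s γ := by
    rintro ⟨β, h1, h2⟩
    have h3 : ns (run I (s + 1)).2 γ = (s, 0, false) := by
      rw [ns_some I h1, upd]
      rcases h2 with h2 | ⟨h2, h3⟩
      · simp [tv_eq_true.2 h2]
      · simp [tv_eq_false.2 h2, ← h3]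
    exact ⟨congrArg (·.1) h3, congrArg (·.2.1) h3, congrArg (·.2.2) h3⟩
  st_serve s γ h1 h2 := by
    have h3 : ns (run I (s + 1)).2 γ = ((dat I).k s γ, (dat I).m s γ, true) := by
      rw [ns_some I h1, upd]
      simp [tv_eq_true.2 h2, tv_eq_false.2 (Lf.irrefl γ)]
      exact ⟨rfl, rfl⟩
    exact ⟨congrArg (·.1) h3, congrArg (·.2.1) h3, congrArg (·.2.2) h3⟩
  st_adv s γ h1 h2 := by
    have h3 : ns (run I (s + 1)).2 γ = ((dat I).k s γ, (dat I).m s γ + 1, false) := by
      rw [ns_some I h1, upd]
      have : (γ == γ ++ [(dat I).m s γ]) = false := by simp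
      simp [tv_eq_false.2 h2, tv_eq_false.2 (Lf.irrefl γ), this]
      exact ⟨rfl, rfl⟩
    exact ⟨congrArg (·.1) h3, congrArg (·.2.1) h3, congrArg (·.2.2) h3⟩
  st_other s γ h1 h2 := by
    have h3 : ns (run I (s + 1)).2 γ = ns (run I s).2 γ := by
      cases e : (dat I).act s with
      | none => rw [hist_none I e]
      | some β =>
        have h4 : (γ == β) = false := by
          rw [beq_eq_false_iff_ne]; rintro rfl; exact h1 e
        have h5 : ¬ Lf β γ := fun h => h2 ⟨β, e, Or.inl h⟩
        have h6 : (!tv ((dat I).CanS s β) && γ == β ++ [(dat I).m s β]) = false := by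
          rw [Bool.eq_false_iff]
          intro h
          simp only [Bool.and_eq_true, Bool.not_eq_true', tv_eq_false, beq_iff_eq] at h
          exact h2 ⟨β, e, Or.inr h⟩
        rw [ns_some I e, upd]
        simp only [tv_eq_false.2 h5, h4, h6, Bool.or_self, cond_false]
    exact ⟨congrArg (·.1) h3, congrArg (·.2.1) h3, congrArg (·.2.2) h3⟩
  act_some s β h := by
    have h0 : actor I s (run I s) = some β := h
    unfold actor at h0
    have h1 := List.find?_some h0
    rw [tv_eq_true] at h1
    exact ⟨h1.1, fun γ hγ => h1.2 γ (mem_cands I (s := s) hγ.active) hγ⟩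
  act_none s h γ hγ := by
    obtain ⟨β, h1, h2⟩ := exists_hi_min (p := (snap I (run I s)).Can s) (cands (run I s))
      ⟨γ, mem_cands I (s := s) hγ.active, hγ⟩
    exact List.find?_eq_none.1 (show actor I s (run I s) = none from h) β h1 (tv_eq_true.2 h2)
  sup_mem s β h h' := by
    obtain ⟨p, hp, hs⟩ := h'.2.2.2
    have h1 : actor I s (run I s) = some β := h
    cases e : (run I s).1.find? fun p => tv ((snap I (run I s)).Sup s β p) with
    | none => exact (List.find?_eq_none.1 e p hp (tv_eq_true.2 hs)).elim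
    | some q =>
      have h2 : (dat I).sup s = q := by
        change supC I s (run I s) = q
        simp [supC, h1, e]
      rw [h2]
      have h3 := List.find?_some e
      exact ⟨List.mem_of_find?_eq_some e, tv_eq_true.1 h3⟩
  code_len s β _ _ t _ _ := by
    change (codeC (run I s) t).length = lenC (run I s)
    simp [codeC]
  code_inj s β _ _ t ht t' _ _ _ h := by
    have h1 : codeC (run I s) t = codeC (run I s) t' := h
    have h2 := List.map_inj_left.1 h1 _ (List.mem_range.2 (lt_lenC ht))
    exact Encodable.encode_injective (by simpa using h2)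
  sig := by
    classical
    have := c_run I
    refine (Sig.of_bool (f := fun q : ℕ × Pair => (run I q.1).1.any fun p => p == q.2)
      (by fun_prop)).of_eq fun q => ?_
    simp [dat]

end Impl

theorem p_IMPL : S_IMPL := fun I => ⟨Impl.dat I, rfl, Impl.dat_ok I⟩

end Pool.Agent.P.MP_54474a_lc.OR
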