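import Pool.Agent.P.MP_54474a_lc.OR.Iface

namespace Pool.Agent.P.MP_54474a_lc.OR

open Set Filter Topology

namespace Inux

open Pool.Agent.Lib.Helper43

attribute [local irreducible] Computable

theorem enum_nat {ok : ℕ → Bool} (hc : Computable ok) (hinf : ∀ b, ∃ c, b ≤ c ∧ ok c = true) :
    ∃ g : ℕ → ℕ, Computable g ∧ Function.Injective g ∧ ∀ c, ok c = true ↔ ∃ n, g n = c := by
  have hex : ∀ b, ∃ c, (decide (b ≤ c) && ok c) = true := fun b => by simpa using hinf b
  have hf : Computable fun b => Nat.find (hex b) := CFP.find (by fun_prop) hex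
  have spec : ∀ b, b ≤ Nat.find (hex b) ∧ ok (Nat.find (hex b)) = true := fun b => by
    simpa using Nat.find_spec (hex b)
  have least : ∀ b c, b ≤ c → ok c = true → Nat.find (hex b) ≤ c := fun b c h1 h2 =>
    Nat.find_min' (hex b) (by simp [h1, h2])
  generalize hF : (fun b => Nat.find (hex b)) = F at hf
  have spec' : ∀ b, b ≤ F b ∧ ok (F b) = true := by rw [← hF]; exact spec
  have least' : ∀ b c, b ≤ c → ok c = true → F b ≤ c := by rw [← hF]; exact least
  let g : ℕ → ℕ := fun n => @Nat.rec (fun _ => ℕ) (F 0) (fun _ ih => F (ih + 1)) n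
  have g0 : g 0 = F 0 := rfl
  have gs : ∀ n, g (n + 1) = F (g n + 1) := fun _ => rfl
  have hm : StrictMono g := strictMono_nat_of_lt_succ fun n => by
    rw [gs]; exact (spec' _).1
  have hg : Computable g :=
    CFP.natRec (f := fun n => n) (g := fun _ => F 0) (h := fun _ _ ih => F (ih + 1))
      (by fun_prop) (by fun_prop) (by fun_prop)
  clear_value g
  refine ⟨g, hg, hm.injective, fun c => ⟨fun h => ?_, ?_⟩⟩
  · have h1 : ∃ n, c ≤ g n := ⟨c, hm.le_apply⟩
    refine ⟨Nat.find h1, le_antisymm ?_ (Nat.find_spec h1)⟩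
    rcases hn : Nat.find h1 with _ | n
    · rw [g0]; exact least' 0 c (Nat.zero_le _) h
    · have h2 := Nat.find_min h1 (m := n) (by omega)
      rw [gs]; exact least' _ c (by omega) h
  · rintro ⟨n, rfl⟩
    cases n with
    | zero => rw [g0]; exact (spec' _).2
    | succ n => rw [gs]; exact (spec' _).2

theorem enum_str {D : Str → Bool} (hc : Computable D) (hinf : {s | D s = true}.Infinite) :
    ∃ u : ℕ → Str, Computable u ∧ Function.Injective u ∧ ∀ s, D s = true ↔ ∃ n, u n = s := by
  let d : ℕ → Str := fun c => (Encodable.decode c : Option Str).getD []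
  have hd : Computable d := CFP.optGetD Computable.decode (by fun_prop)
  have de : ∀ s, d (Encodable.encode s) = s := fun s => by simp [d]
  generalize d = d at hd de
  obtain ⟨g, g1, g2, g3⟩ := enum_nat (ok := fun c => (Encodable.encode (d c) == c) && D (d c))
    (by fun_prop) fun b => by
      obtain ⟨c, ⟨s, hs, rfl⟩, hb⟩ :=
        (hinf.image (Encodable.encode_injective (α := Str)).injOn).exists_gt b
      exact ⟨_, hb.le, by simp only [de, beq_self_eq_true, Bool.true_and]; exact hs⟩
  have g4 : ∀ n, Encodable.encode (d (g n)) = g n ∧ D (d (g n)) = true := fun n => by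
    simpa using (g3 (g n)).2 ⟨n, rfl⟩
  refine ⟨fun n => d (g n), by fun_prop, fun n m h => g2 ?_, fun s => ⟨fun h => ?_, ?_⟩⟩
  · rw [← (g4 n).1, ← (g4 m).1]; exact congrArg _ h
  · obtain ⟨n, hn⟩ := (g3 (Encodable.encode s)).1
      (by simp only [de, beq_self_eq_true, Bool.true_and]; exact h)
    exact ⟨n, by simp only [hn, de]⟩
  · rintro ⟨n, rfl⟩; exact (g4 n).2

theorem exists_min {T : Str → Bool} (hT : Computable T) : ∃ D : Str → Bool, Computable D ∧
    ∀ s, D s = true ↔ T s = false ∧ ∀ n < s.length, T (s.take n) = true :=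
  ⟨fun s => !T s && (List.range s.length).all fun n => T (s.take n), by fun_prop,
    fun s => by simp⟩

end Inux

theorem p_INU : S_INU := by
  intro P hP ⟨z, hz⟩ hnd
  obtain ⟨T, hT, htree, hpath⟩ := hP.exists_tree
  obtain ⟨D, hD, hDs⟩ := Inux.exists_min hT
  have uniq : ∀ s t y, D s = true → D t = true → y ∈ cyl s → y ∈ cyl t → s.length ≤ t.length →
      s = t := fun s t y hs ht h1 h2 hl => by
    have h3 := prefix_of_mem h1 h2 hl
    rcases hl.eq_or_lt with he | hlt
    · exact h3.eq_of_length he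
    · have h4 := ((hDs t).1 ht).2 _ hlt
      rw [← List.prefix_iff_eq_take.1 h3, ((hDs s).1 hs).1] at h4
      exact absurd h4 (by simp)
  have cover : ∀ y, y ∉ P → ∃ n, D (seg y n) = true := fun y hy => by
    have h1 : ∃ n, T (seg y n) = false := by
      by_contra h
      exact hy ((hpath y).2 fun n => by simpa using fun h' => h ⟨n, h'⟩)
    refine ⟨Nat.find h1, (hDs _).2 ⟨Nat.find_spec h1, fun n hn => ?_⟩⟩
    rw [seg_length] at hn
    rw [seg_take_le y hn.le]
    simpa using Nat.find_min h1 hn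
  have out : ∀ s y, D s = true → y ∈ cyl s → y ∉ P := fun s y hs hy hp => by
    have h1 := (hpath y).1 hp s.length
    rw [show seg y s.length = s from hy, ((hDs s).1 hs).1] at h1
    exact absurd h1 (by simp)
  have hinf : {s | D s = true}.Infinite := by
    refine Set.Infinite.of_image List.length (Set.infinite_of_forall_exists_gt fun n => ?_)
    obtain ⟨y, hy, hyP⟩ := hnd (seg z n)
    obtain ⟨m, hm⟩ := cover y hyP
    refine ⟨m, ⟨_, hm, seg_length _ _⟩, ?_⟩
    by_contra hle
    refine out _ z hm (mem_cyl_seg.2 fun i hi => ?_) hz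
    exact (mem_cyl_seg.1 hy i (by omega)).symm
  obtain ⟨u, u1, u2, u3⟩ := Inux.enum_str hD hinf
  have u4 : ∀ n, D (u n) = true := fun n => (u3 _).2 ⟨n, rfl⟩
  refine ⟨u, u1, fun n m y h1 h2 => u2 ?_, fun y => ⟨fun hy => ?_, ?_⟩⟩
  · rcases le_total (u n).length (u m).length with h | h
    · exact uniq _ _ y (u4 n) (u4 m) h1 h2 h
    · exact (uniq _ _ y (u4 m) (u4 n) h2 h1 h).symm
  · obtain ⟨m, hm⟩ := cover y hy
    obtain ⟨n, hn⟩ := (u3 _).1 hm
    exact ⟨n, by rw [hn]; exact self_mem_cyl y m⟩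
  · rintro ⟨n, hn⟩; exact out _ y (u4 n) hn

end Pool.Agent.P.MP_54474a_lc.OR
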