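import Pool.Agent.P.MP_54474a_lc.OR.Iface

namespace Pool.Agent.P.MP_54474a_lc.OR

open Set Filter Topology

namespace Invx

variable {D : Dat} {s : ℕ} {β : Node} {p t : Pair}

/-- The invariant just after the action of stage `s`. -/
structure MI (D : Dat) (s : ℕ) (p : Pair) : Prop where
  lt : ∀ c, pd p c < s
  len : ∀ c, s ≤ (pr p c).length
  pre : ∀ c, D.u c (pd p c) <+: pr p c
  act : D.Active (s + 1) (loc p)
  kle : ∀ c, D.k (s + 1) (loc p) ≤ pd p c
  inb : ∀ c, D.inB (base p) c (pr p c)
  tg : tag p = 0 ∨ (tag p = 1 ∧ loc p ≠ [] ∧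
      D.cell (last (loc p)) false (pr p false) = D.cell (last (loc p)) true (pr p true) ∧
      D.cell (last (loc p)) false (pr p false) ≠ 0) ∨
    (tag p = 2 ∧ loc p ≠ [] ∧
      D.inB (up 1 (loc p)) ((loc p).length + 1).bodd (pr p ((loc p).length + 1).bodd))

theorem ext (ok : D.Ok) (h : MI D s p) {w : Str} (hw : w ≠ []) : D.Inv (s + 1) (sub p w) := by
  have hl := List.length_pos_iff.2 hw
  have he : ∀ i ∈ loc p, ∀ c, i ≤ (pr p c).length := fun i hi c => by
    have := ok.ent h.act i hi
    have := h.len c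
    omega
  refine ⟨fun c => ?_, fun c => ?_, fun c => ?_, h.act, fun c => ?_, fun c => ?_, ?_⟩
  · rw [pd_sub]; exact (h.lt c).trans (Nat.lt_succ_self s)
  · have := h.len c
    rw [pr_sub, List.length_append]; omega
  · rw [pd_sub, pr_sub]; exact (h.pre c).trans (List.prefix_append _ _)
  · rw [pd_sub]; exact h.kle c
  · rw [pr_sub, base_sub]
    exact (h.inb c).ext (List.prefix_append _ _) fun i hi => he i ((base_prefix p).subset hi) c
  · simp only [pr_sub, tag_sub, loc_sub]
    rcases h.tg with h1 | ⟨h1, h2, h3, h4⟩ | ⟨h1, h2, h3⟩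
    · exact Or.inl h1
    · have e : ∀ c, D.cell (last (loc p)) c (pr p c ++ w) = D.cell (last (loc p)) c (pr p c) :=
        fun c => D.cell_dec _ c _ _ (he _ (last_mem h2) c) (List.prefix_append _ _)
      exact Or.inr (Or.inl ⟨h1, h2, by rw [e, e, h3], by rw [e]; exact h4⟩)
    · exact Or.inr (Or.inr ⟨h1, h2, h3.ext (List.prefix_append _ _)
        fun i hi => he i ((up_prefix _ _).subset hi) _⟩)

theorem new (ok : D.Ok) {z : Str} (hz : z.length = s + 1) : D.Inv (s + 1) (D.new s z) := by
  have hl : loc (D.new s z) = [] := loc_of_lab (D.lab_new s z)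
  have ht : tag (D.new s z) = 0 := tag_of_lab (D.lab_new s z)
  have hb : base (D.new s z) = [] := by rw [base_of_lab (D.lab_new s z)]; simp
  refine ⟨fun c => by simp, fun c => by simp; omega, fun c => by simp, ?_, fun c => ?_,
    fun c => ?_, Or.inl ht⟩
  · rw [hl]; exact Dat.active_nil
  · have := ok.k_le s (loc (D.new s z))
    rw [Inp.pd_new]
    rcases ok.st_cases s (loc (D.new s z)) with h | h <;> omega
  · rw [hb]; intro i hi; simp at hi

theorem relo (ok : D.Ok) (h : D.Inv s p) : MI D s (D.relo s p) := by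
  by_cases hc : ∀ β, D.act s = some β → ¬ Lf β (loc p)
  · rw [Dat.relo_eq hc]
    refine ⟨h.lt, h.len, h.pre, ok.keep h.act hc, fun c => ?_, h.inb, h.tg⟩
    rw [(ok.m_le_succ (Dat.not_reset_of_active h.act hc)).2]
    exact h.kle c
  push Not at hc
  obtain ⟨β, hβ, hl⟩ := hc
  rw [Dat.relo_some hβ]
  have h1 : loc (rel β p) = cp (base p) β := loc_of_lab (lab_rel_of hl)
  have h2 := ok.keep_actor hβ (h1 ▸ cp_prefix_right (base p) β : loc (rel β p) <+: β)
  refine ⟨by simpa using h.lt, by simpa using h.len, by simpa using h.pre, h2.1, fun c => ?_,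
    fun c => ?_, Or.inl (tag_of_lab (lab_rel_of hl))⟩
  · rw [h2.2, pd_rel]
    exact (ok.k_pre h.act (loc_rel_prefix β p)).trans (h.kle c)
  · rw [pr_rel]
    exact (h.inb c).pre (base_rel_prefix β p)

theorem key (ht : D.Inv s t) (hT : D.Tgt s β t) :
    D.inB (up 1 β) (!D.side s β) (pr t (!D.side s β)) := by
  rcases D.tau_cases s β with e | e
  · have := ht.inb (!D.side s β)
    rwa [hT.base_eq, Dat.srv, e] at this
  · have h1 : lab t = (β, 2) := by rw [hT.1]; simp [Dat.tlab, e]
    have h2 : loc t = β := loc_of_lab h1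
    have h3 : tag t = 2 := tag_of_lab h1
    have h4 : (!D.side s β) = (β.length + 1).bodd := by simp [Dat.side, e, Nat.bodd_succ]
    rcases ht.tg with h | h | h
    · omega
    · omega
    · rw [h4, ← h2]; exact h.2.2

theorem pA (ok : D.Ok) (ha : D.act s = some β) (hc : D.CanS s β) (hu : D.Inv s (D.sup s))
    (ht : D.Inv s t) (hT : D.Tgt s β t) : MI D s (D.pA s β t) := by
  have hS := (ok.sup_mem s β ha hc).2
  have hne := hc.2.1
  have h1 : loc (D.pA s β t) = β := loc_of_lab (D.lab_pA s β t)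
  have h2 : tag (D.pA s β t) = if D.jj s β = 0 then 0 else 1 := tag_of_lab (D.lab_pA s β t)
  have h3 := ok.keep_actor ha (List.prefix_rfl : β <+: β)
  have he : ∀ i ∈ β, ∀ c, i ≤ (pr (D.sup s) c).length := fun i hi c =>
    (ok.ent hc.1 i hi).le.trans (hu.len c)
  have h4 : ∀ c, D.inB (up 1 β) c (pr (D.pA s β t) c) ∧
      D.cell (last β) c (pr (D.pA s β t) c) = D.jj s β := fun c => by
    rcases bool_cases (D.side s β) c with rfl | rfl
    · rw [Dat.pr_pA]
      exact ⟨hS.2.2.2.1.ext (List.prefix_append _ _)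
        fun i hi => he i ((up_prefix _ _).subset hi) _,
        (D.cell_dec _ _ _ _ (he _ (last_mem hne) _) (List.prefix_append _ _)).trans hS.2.2.2.2⟩
    · rw [Dat.pr_pA_not]
      exact ⟨key ht hT, hT.2.2.2.2⟩
  refine ⟨fun c => ?_, fun c => ?_, fun c => ?_, h1.symm ▸ h3.1, fun c => ?_, fun c => ?_, ?_⟩
  · rcases bool_cases (D.side s β) c with rfl | rfl
    · simpa using hu.lt _
    · simpa using ht.lt _
  · rcases bool_cases (D.side s β) c with rfl | rfl
    · have := hu.len (D.side s β)
      rw [Dat.pr_pA, List.length_append]; omega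
    · simpa using ht.len _
  · rcases bool_cases (D.side s β) c with rfl | rfl
    · rw [Dat.pr_pA, Dat.pd_pA]; exact (hu.pre _).trans (List.prefix_append _ _)
    · simpa using ht.pre _
  · rw [h1, h3.2]
    rcases bool_cases (D.side s β) c with rfl | rfl
    · simpa using (hS.2.1 _).1
    · simpa using hT.2.1 _
  · rw [base, h1, h2]
    split_ifs with e
    · have := (D.inB_concat (α := up 1 β) (i := last β)).2 ⟨(h4 c).1, (h4 c).2.trans e⟩
      rw [up_append_last hne] at this
      rwa [up_zero]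
    · exact (h4 c).1
  · rw [h1, h2]
    split_ifs with e
    · exact Or.inl rfl
    · exact Or.inr (Or.inl ⟨rfl, hne, by rw [(h4 _).2, (h4 _).2], by rw [(h4 _).2]; exact e⟩)

theorem pB (ok : D.Ok) (ha : D.act s = some β) (hc : D.CanS s β) (hu : D.Inv s (D.sup s))
    (ht : D.Inv s t) (hT : D.Tgt s β t) : MI D s (D.pB s β t) := by
  have hS := (ok.sup_mem s β ha hc).2
  have hne := hc.2.1
  have h0 := D.lab_pB s β t
  have h1 : loc (D.pB s β t) <+: β := by
    rw [loc_of_lab h0]
    split_ifs
    · exact List.prefix_rfl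
    · exact up_prefix _ _
  have h2 : base (D.pB s β t) = up 1 (D.srv s β) := by
    rw [base_of_lab h0, Dat.srv, up_up]
    rcases D.tau_cases s β with e | e <;> simp [e]
  have h3 := ok.keep_actor ha h1
  have h5 : up 1 (D.srv s β) <+: base (D.sup s) := by
    have := base_rel_prefix β (D.sup s)
    rwa [base_of_lab hS.1, up_zero] at this
  refine ⟨fun c => ?_, fun c => ?_, fun c => ?_, h3.1, fun c => ?_, fun c => ?_, ?_⟩
  · rcases bool_cases (D.side s β) c with rfl | rfl
    · simpa using ht.lt _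
    · simpa using hu.lt _
  · rcases bool_cases (D.side s β) c with rfl | rfl
    · simpa using ht.len _
    · have := hu.len (!D.side s β)
      rw [Dat.pr_pB_not, List.length_append]; omega
  · rcases bool_cases (D.side s β) c with rfl | rfl
    · simpa using ht.pre _
    · rw [Dat.pr_pB_not, Dat.pd_pB_not]; exact (hu.pre _).trans (List.prefix_append _ _)
  · rw [h3.2]
    refine (ok.k_pre hc.1 h1).trans ?_
    rcases bool_cases (D.side s β) c with rfl | rfl
    · simpa using hT.2.1 _
    · simpa using (hS.2.1 _).1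
  · rw [h2]
    rcases bool_cases (D.side s β) c with rfl | rfl
    · rw [Dat.pr_pB]
      exact (ht.inb _).pre (hT.base_eq ▸ up_prefix _ _)
    · rw [Dat.pr_pB_not]
      refine ((hu.inb _).pre h5).ext (List.prefix_append _ _) fun i hi => ?_
      exact (ok.ent hc.1 i (((up_prefix _ _).trans (D.srv_prefix s β)).subset hi)).le.trans
        (hu.len _)
  · rcases D.tau_cases s β with e | e
    · rw [if_pos e] at h0
      have h6 : loc (D.pB s β t) = β := loc_of_lab h0
      have h7 : (β.length + 1).bodd = D.side s β := by rw [Dat.side, e]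
      refine Or.inr (Or.inr ⟨tag_of_lab h0, h6.symm ▸ hne, ?_⟩)
      have := ht.inb (D.side s β)
      rw [hT.base_eq, Dat.srv, e] at this
      rw [h6, h7, Dat.pr_pB]; exact this
    · rw [if_neg (by omega)] at h0
      exact Or.inl (tag_of_lab h0)

end Invx

theorem p_INV : S_INV := by
  intro D ok s
  induction s with
  | zero => intro p hp; rw [ok.cfg0] at hp; exact hp.elim
  | succ s ih =>
    intro q hq
    rcases ok.step hq with ⟨z, hz, rfl⟩ | ⟨p, hp, ⟨w, hw, rfl⟩, -⟩ |
      ⟨β, t, b, h1, h2, h3, h4, rfl | rfl⟩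
    · exact Invx.new ok hz
    · exact Invx.ext ok (Invx.relo ok (ih p hp)) hw
    · exact Invx.ext ok (Invx.pA ok h1 h2 (ih _ (ok.sup_mem s β h1 h2).1) (ih t h3) h4) (by simp)
    · exact Invx.ext ok (Invx.pB ok h1 h2 (ih _ (ok.sup_mem s β h1 h2).1) (ih t h3) h4) (by simp)

end Pool.Agent.P.MP_54474a_lc.OR
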