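import Pool.Agent.P.MP_54474a_lc.OR.Iface

/-!
Universal enumerations: effectively open sets, finite partitions, and a fair sequence.
-/

namespace Pool.Agent.P.MP_54474a_lc.OR

open Set Filter Topology Pool.Agent.Lib.Helper43

attribute [local irreducible] Computable

namespace Inwx

theorem take_of_pre {σ σ' : Str} (h : σ <+: σ') {n : ℕ} (hn : n ≤ σ.length) :
    σ'.take n = σ.take n := by
  obtain ⟨t, rfl⟩ := h
  exact List.take_append_of_le_length hn

theorem find_table {α : Type} [BEq α] [LawfulBEq α] (l : List α) (c : α → ℕ) {x : α}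
    (hx : x ∈ l) :
    (((l.map fun r => (r, c r)).find? fun q => q.1 == x).map fun q => q.2).getD 0 = c x := by
  induction l with
  | nil => simp at hx
  | cons a l ih =>
    by_cases h : a = x
    · subst h; simp
    · have hx' : x ∈ l := (List.mem_cons.1 hx).resolve_left fun h' => h h'.symm
      have h' : (a == x) = false := by simpa using h
      rw [List.map_cons, List.find?_cons]
      simp only [h']
      exact ih hx'

end Inwx

open Inwx

theorem p_INW : S_INW := by
  refine ⟨fun s e σ => (List.range (σ.length + 1)).any fun n =>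
    (Nat.Partrec.Code.evaln s (Denumerable.ofNat Nat.Partrec.Code e)
      (Encodable.encode (σ.take n))).isSome, by fun_prop, ?_, ?_⟩
  · intro s s' e σ σ' hs hσ h
    simp only [List.any_eq_true, List.mem_range] at h ⊢
    obtain ⟨n, hn, h⟩ := h
    have hl := hσ.length_le
    refine ⟨n, by omega, ?_⟩
    rw [take_of_pre hσ (by omega)]
    obtain ⟨y, hy⟩ := Option.isSome_iff_exists.1 h
    exact Option.isSome_iff_exists.2 ⟨y, Nat.Partrec.Code.evaln_mono hs hy⟩
  · intro O hO
    obtain ⟨W, hW, h⟩ := IsPi01.exists_sig hO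
    obtain ⟨c, hc⟩ := hW.exists_code
    refine ⟨Encodable.encode c, fun y => ?_⟩
    have h1 : y ∈ O ↔ ∃ n, W (seg y n) := by
      have := Set.ext_iff.1 h y
      simp only [mem_compl_iff, mem_ofPred_eq] at this
      rw [← not_iff_not, this, not_exists]
    rw [h1]
    simp only [List.any_eq_true, List.mem_range, seg_length, Denumerable.ofNat_encode, hc]
    constructor
    · rintro ⟨n, s, hs⟩
      refine ⟨max n s, n, Nat.lt_succ_of_le (le_max_left _ _), ?_⟩
      rw [seg_take_le y (le_max_left _ _)]
      obtain ⟨z, hz⟩ := Option.isSome_iff_exists.1 hs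
      exact Option.isSome_iff_exists.2 ⟨z, Nat.Partrec.Code.evaln_mono (le_max_right _ _) hz⟩
    · rintro ⟨s, n, hn, hs⟩
      rw [seg_take_le y (Nat.le_of_lt_succ hn)] at hs
      exact ⟨n, s, hs⟩

theorem p_INC : S_INC := by
  refine ⟨⟨fun i a σ => ((((Encodable.decode i.unpair.2 :
    Option (List ((Bool × Str) × ℕ))).getD []).find?
      fun q => q.1 == (a, σ.take i.unpair.1)).map fun q => q.2).getD 0, by fun_prop, ?_, ?_⟩,
    fun n => (Encodable.decode n.unpair.1 : Option (Bool × Str × ℕ)).getD (false, [], 0),
    by fun_prop, ?_⟩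
  · intro i a σ σ' hi hσ
    simp only [take_of_pre hσ ((Nat.unpair_left_le i).trans hi)]
  · intro L c
    let l : List (Bool × Str) := (strs L).flatMap fun r => [(false, r), (true, r)]
    refine ⟨Nat.pair L (Encodable.encode (l.map fun r => (r, c r.1 r.2))), fun a y => ?_⟩
    simp only [Nat.unpair_pair, Encodable.encodek, Option.getD_some,
      seg_take_le y (Nat.left_le_pair _ _)]
    refine find_table l (fun r => c r.1 r.2) (x := (a, seg y L)) ?_
    simp only [l, List.mem_flatMap, mem_strs]
    exact ⟨seg y L, seg_length y L, by cases a <;> simp⟩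
  · intro q M
    exact ⟨Nat.pair (Encodable.encode q) M, Nat.right_le_pair _ _, by simp⟩

end Pool.Agent.P.MP_54474a_lc.OR
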