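import Pool.Agent.P.MP_54474a_lc.OR.Iface

/-!
Continuity of the combined matching at the points of the classes.
-/

namespace Pool.Agent.P.MP_54474a_lc.OR

open Set Filter Topology

namespace Locx

/-- The cell `j` at level `n` of the path `f` on side `c`. -/
def Rg (I : Inp) (f : ℕ → ℕ) (n j : ℕ) (c : Bool) : Set Pt :=
  I.bP (fn f n) c ∩ {z | I.cellP (f n) c z = j}

theorem clopen_Rg (I : Inp) (f : ℕ → ℕ) (n j : ℕ) (c : Bool) : IsClopen (Rg I f n j c) :=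
  (I.isClopen_bP _ _).inter (I.isClopen_cell _ _ _)

theorem bP_iff {I : Inp} {f : ℕ → ℕ} {y : Bool → Pt} {n : ℕ} (h : ∀ i, i < n → I.Agree f i y) :
    y false ∈ I.bP (fn f n) false ↔ y true ∈ I.bP (fn f n) true := by
  induction n with
  | zero => simp
  | succ n ih =>
    have h1 := ih fun i hi => h i (by omega)
    have h2 := h n (by omega)
    rw [fn_succ, I.bP_concat, I.bP_concat]
    constructor
    · rintro ⟨a, b⟩
      refine ⟨h1.1 a, ?_⟩
      rw [← h2 fun c => by cases c; exacts [a, h1.1 a]]; exact b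
    · rintro ⟨a, b⟩
      refine ⟨h1.2 a, ?_⟩
      rw [h2 fun c => by cases c; exacts [h1.2 a, a]]; exact b

theorem Rg_iff {I : Inp} {f : ℕ → ℕ} {y : Bool → Pt} {n j : ℕ} (h : ∀ i, i ≤ n → I.Agree f i y) :
    y false ∈ Rg I f n j false ↔ y true ∈ Rg I f n j true := by
  have h1 := bP_iff (n := n) fun i hi => h i hi.le
  have h2 := h n le_rfl
  constructor
  · rintro ⟨a, b⟩
    refine ⟨h1.1 a, ?_⟩
    have := h2 fun c => by cases c; exacts [a, h1.1 a]
    exact this.symm.trans b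
  · rintro ⟨a, b⟩
    refine ⟨h1.2 a, ?_⟩
    have := h2 fun c => by cases c; exacts [h1.2 a, a]
    exact this.trans b

theorem Rg_not {I : Inp} {f : ℕ → ℕ} {y : Bool → Pt} {n j : ℕ} (h : ∀ i, i ≤ n → I.Agree f i y)
    (c : Bool) : y (!c) ∈ Rg I f n j (!c) ↔ y c ∈ Rg I f n j c := by
  cases c
  · exact (Rg_iff h).symm
  · exact Rg_iff h

theorem small_cell {I : Inp} {f : ℕ → ℕ} (hG : I.GeoPath f) {c : Bool} {x : Pt} (hx : x ∈ I.P c)
    (L : ℕ) : ∃ n j, x ∈ Rg I f n j c ∧ ∀ z ∈ I.P c, z ∈ Rg I f n j c → z ∈ cyl (seg x L) := by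
  have key : ∀ n, x ∈ I.bP (fn f n) c → ∀ z ∈ I.P c, z ∈ Rg I f n (I.cellP (f n) c x) c →
      (I.cellP (f n) c x ≠ 0 → z = x) ∧ (I.cellP (f n) c x = 0 → seg z (n + 1) = seg x (n + 1)) := by
    intro n h1 z hz h2
    have := (hG n).1.2 c z hz x hx (by simpa using h2.1) (by simpa using h1)
      (by rw [last_fn]; exact h2.2)
    rw [last_fn, fn_length, show I.cellP (f n) c z = I.cellP (f n) c x from h2.2] at this
    exact this
  by_cases h : x ∈ I.bP (fn f (L + 1)) c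
  · rw [fn_succ, I.bP_concat] at h
    refine ⟨L, I.cellP (f L) c x, ⟨h.1, rfl⟩, fun z hz h2 => ?_⟩
    exact mem_cyl_seg.2 fun i hi => seg_eq_iff.1 ((key L h.1 z hz h2).2 h.2) i (by omega)
  · have : ∃ n, x ∈ I.bP (fn f n) c ∧ x ∉ I.bP (fn f (n + 1)) c := by
      by_contra hc
      push Not at hc
      refine h ?_
      generalize L + 1 = m
      induction m with
      | zero => simp
      | succ m ih => exact hc m ih
    obtain ⟨n, h1, h2⟩ := this
    refine ⟨n, I.cellP (f n) c x, ⟨h1, rfl⟩, fun z hz h3 => ?_⟩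
    rw [(key n h1 z hz h3).1 fun h0 => h2 (by rw [fn_succ, I.bP_concat]; exact ⟨h1, h0⟩)]
    exact self_mem_cyl _ _

theorem bdd_cover (I : Inp) (c : Bool) {K : Set Pt} (hK : IsClosed K) (h : ∀ z ∈ K, z ∉ I.P c) :
    ∃ d, ∀ z ∈ K, ∃ e, e ≤ d ∧ z ∈ cyl (I.u c e) := by
  obtain ⟨t, ht⟩ := hK.isCompact.elim_finite_subcover (fun e => cyl (I.u c e))
    (fun e => isOpen_cyl _) fun z hz => mem_iUnion.2 ((I.u_cover c z).1 (h z hz))
  refine ⟨t.sup id, fun z hz => ?_⟩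
  obtain ⟨e, he, hz'⟩ := mem_iUnion₂.1 (ht hz)
  exact ⟨e, Finset.le_sup (f := id) he, hz'⟩

end Locx

open Locx in
theorem p_LOC : S_LOC := by
  intro I f M hG hM hA y hy c L
  obtain ⟨n, j, h1, h2⟩ := small_cell hG (hy.1 c) L
  have h3 : y (!c) ∈ Rg I f n j (!c) := (Rg_not (fun i _ => hy.2 i) c).2 h1
  obtain ⟨d1, hd1⟩ := bdd_cover I c (K := Rg I f n j c \ cyl (seg (y c) L))
    ((clopen_Rg I f n j c).isClosed.sdiff (isOpen_cyl _)) fun z hz hp => hz.2 (h2 z hp hz.1)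
  obtain ⟨d0, hd0⟩ := hA n
  obtain ⟨d2, hd2⟩ := hM.prop (d0 + d1)
  obtain ⟨L1, hL1⟩ := mem_nhds_iff_cyl.1 ((clopen_Rg I f n j (!c)).isOpen.mem_nhds h3)
  obtain ⟨L2, hL2⟩ := I.exists_big_piece (hy.1 (!c)) d2
  refine ⟨max L1 L2, fun y' hy' hc => ?_⟩
  have h4 : y' (!c) ∈ Rg I f n j (!c) := hL1 (cyl_seg_anti _ (le_max_left _ _) hc)
  rcases hy' with hy' | hy'
  · obtain ⟨e', he'⟩ := (I.u_cover _ _).1 (hM.out y' hy' (!c))
    have h5 := hL2 _ (cyl_seg_anti _ (le_max_right _ _) hc) e' he'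
    have h6 : ∀ c'' e, y' c'' ∈ cyl (I.u c'' e) → d0 + d1 < e := fun c'' e he => by
      by_contra hn
      have := hd2 y' hy' c'' (!c) e e' he he' (not_lt.1 hn)
      omega
    have h7 := (Rg_not (hd0 y' hy' fun c'' e he => by have := h6 c'' e he; omega) c).1 h4
    by_contra hn
    obtain ⟨e, a, b⟩ := hd1 _ ⟨h7, hn⟩
    have := h6 c e b
    omega
  · exact h2 _ (hy'.1 c) ((Rg_not (fun i _ => hy'.2 i) c).1 h4)

end Pool.Agent.P.MP_54474a_lc.OR
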