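import Pool.Agent.P.MP_54474a_lc.OR.Iface

/-! The matching of the points of the two classes. -/

namespace Pool.Agent.P.MP_54474a_lc.OR

open Set Filter Topology

namespace Mpx

variable {I : Inp} {f : ℕ → ℕ}

theorem mem_succ {n : ℕ} {c : Bool} {z : Pt} :
    z ∈ I.bP (fn f (n + 1)) c ↔ z ∈ I.bP (fn f n) c ∧ I.cellP (f n) c z = 0 := by
  rw [fn_succ, I.bP_concat]

theorem geo1 (hg : I.GeoPath f) (n : ℕ) (a a' : Bool) {y : Pt} (hy : y ∈ I.bP (fn f n) a) :
    ∃ z ∈ I.P a', z ∈ I.bP (fn f n) a' ∧ I.cellP (f n) a' z = I.cellP (f n) a y := by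
  simpa using (hg n).1.1 a a' y (by simpa using hy)

theorem geo2 (hg : I.GeoPath f) (n : ℕ) {a : Bool} {z z' : Pt} (hz : z ∈ I.P a) (hz' : z' ∈ I.P a)
    (h : z ∈ I.bP (fn f n) a) (h' : z' ∈ I.bP (fn f n) a)
    (he : I.cellP (f n) a z = I.cellP (f n) a z') :
    (I.cellP (f n) a z ≠ 0 → z = z') ∧
      (I.cellP (f n) a z = 0 → seg z (n + 1) = seg z' (n + 1)) := by
  simpa using (hg n).1.2 a z hz z' hz' (by simpa using h) (by simpa using h') (by simpa using he)

theorem agree_cell {n : ℕ} {y : Bool → Pt} (h : I.Agree f n y) (hy : ∀ c, y c ∈ I.bP (fn f n) c)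
    (c c' : Bool) : I.cellP (f n) c (y c) = I.cellP (f n) c' (y c') := by
  have := h hy
  cases c <;> cases c' <;> simp [this]

theorem both {y : Bool → Pt} (h : ∀ n, I.Agree f n y) (n : ℕ) {c : Bool}
    (hy : y c ∈ I.bP (fn f n) c) (c' : Bool) : y c' ∈ I.bP (fn f n) c' := by
  induction n generalizing c' with
  | zero => intro i hi; simp at hi
  | succ n ih =>
    obtain ⟨h1, h2⟩ := mem_succ.1 hy
    exact mem_succ.2 ⟨ih h1 c', (agree_cell (h n) (ih h1) c' c).trans h2⟩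

theorem eq_of_all (hg : I.GeoPath f) {c : Bool} {z z' : Pt} (hz : z ∈ I.P c) (hz' : z' ∈ I.P c)
    (h : ∀ n, z ∈ I.bP (fn f n) c) (h' : ∀ n, z' ∈ I.bP (fn f n) c) : z = z' := by
  funext i
  have h1 := (mem_succ.1 (h (i + 1))).2
  have h2 := (mem_succ.1 (h' (i + 1))).2
  exact seg_eq_iff.1 ((geo2 hg i hz hz' (h i) (h' i) (h1.trans h2.symm)).2 h1) i (Nat.lt_succ_self i)

theorem exit {c : Bool} {z : Pt} (h : ¬ ∀ n, z ∈ I.bP (fn f n) c) :
    ∃ n, z ∈ I.bP (fn f n) c ∧ I.cellP (f n) c z ≠ 0 := by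
  by_contra hn
  refine h fun n => ?_
  induction n with
  | zero => intro i hi; simp at hi
  | succ n ih => exact mem_succ.2 ⟨ih, by_contra fun h0 => hn ⟨n, ih, h0⟩⟩

end Mpx

open Mpx in
theorem p_MP : S_MP := by
  intro I f hg
  refine ⟨fun c z hz => ?_, fun y y' c hy hy' he => ?_⟩
  · by_cases hall : ∀ n, z ∈ I.bP (fn f n) c
    · refine ⟨I.x, ⟨I.x_mem, fun n _ => ?_⟩,
        eq_of_all hg (I.x_mem c) hz (fun n => (hg n).2 c) hall⟩
      rw [(mem_succ.1 ((hg (n + 1)).2 false)).2, (mem_succ.1 ((hg (n + 1)).2 true)).2]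
    · obtain ⟨n, h1, h2⟩ := exit hall
      obtain ⟨z', hz', h3, h4⟩ := geo1 hg n c (!c) h1
      have key : ∀ y : Bool → Pt, y c = z → y (!c) = z' → I.Mp f y := by
        intro y e1 e2
        have hb : ∀ c', y c' ∈ I.P c' ∧ y c' ∈ I.bP (fn f n) c' ∧
            I.cellP (f n) c' (y c') = I.cellP (f n) c z := fun c' => by
          rcases bool_cases c c' with rfl | rfl
          · rw [e1]; exact ⟨hz, h1, rfl⟩
          · rw [e2]; exact ⟨hz', h3, h4⟩
        refine ⟨fun c' => (hb c').1, fun i hi => ?_⟩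
        rcases lt_trichotomy i n with hin | rfl | hin
        · have hm : f i ∈ fn f n := mem_fn.2 ⟨i, hin, rfl⟩
          rw [(hb false).2.1 _ hm, (hb true).2.1 _ hm]
        · rw [(hb false).2.2, (hb true).2.2]
        · have h5 := hi c (f n) (mem_fn.2 ⟨n, hin, rfl⟩)
          rw [e1] at h5
          exact absurd h5 h2
      refine ⟨fun c' => if c' = c then z else z', key _ (if_pos rfl) (if_neg ?_), if_pos rfl⟩
      cases c <;> simp
  · funext c'
    by_cases hall : ∀ n, y c ∈ I.bP (fn f n) c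
    · exact eq_of_all hg (hy.1 c') (hy'.1 c') (fun n => both hy.2 n (hall n) c')
        fun n => both hy'.2 n (he ▸ hall n) c'
    · obtain ⟨n, h1, h2⟩ := exit hall
      have a1 := both hy.2 n h1
      have a2 := both hy'.2 n (he ▸ h1 : y' c ∈ I.bP (fn f n) c)
      have b1 := agree_cell (hy.2 n) a1 c' c
      have b2 := agree_cell (hy'.2 n) a2 c' c
      refine (geo2 hg n (hy.1 c') (hy'.1 c') (a1 c') (a2 c') ?_).1 (b1 ▸ h2)
      rw [b1, b2, he]

end Pool.Agent.P.MP_54474a_lc.OR
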