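import Pool.Agent.P.MP_54474a_lc.OR.Iface

/-! Every point outside the class eventually stays in refinements of one pair. -/

namespace Pool.Agent.P.MP_54474a_lc.OR

open Set Filter Topology

namespace Purex

/-- The potential of a label. -/
def mu (c : Bool) (l : Node × ℕ) : ℕ :=
  if l.2 = 2 then (if c = (l.1.length + 1).bodd then 2 * l.1.length else 0) else 2 * l.1.length + 1

theorem mu_le (c : Bool) (l : Node × ℕ) : mu c l ≤ 2 * l.1.length + 1 := by
  unfold mu
  split_ifs <;> omega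

theorem mu_A (D : Dat) (s : ℕ) {β : Node} (hβ : β ≠ []) (c : Bool) (t : Pair) :
    mu c (D.tlab s β) < mu c (lab (D.pA s β t)) := by
  have h0 : 0 < β.length := List.length_pos_iff.2 hβ
  have h1 : mu c (lab (D.pA s β t)) = 2 * β.length + 1 := by
    rw [Dat.lab_pA, mu, if_neg]
    split_ifs <;> simp
  rw [h1, Dat.tlab]
  split_ifs
  · have := mu_le c (up 1 β, 0)
    simp only [up_length] at this
    omega
  · simp only [mu, if_true]
    split_ifs <;> omega

theorem mu_B (D : Dat) (s : ℕ) {β : Node} (hβ : β ≠ []) (t : Pair) :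
    mu (D.side s β) (D.tlab s β) < mu (D.side s β) (lab (D.pB s β t)) := by
  have h0 : 0 < β.length := List.length_pos_iff.2 hβ
  rw [Dat.lab_pB, Dat.tlab, Dat.side]
  rcases D.tau_cases s β with e | e
  · simp [e, mu]
    omega
  · simp [e, mu, Nat.bodd_succ]

theorem stab {f : ℕ → ℕ} {B T : ℕ} (h : ∀ t, T ≤ t → f t ≤ B) :
    ∃ s, T ≤ s ∧ ∀ t, T ≤ t → f t ≤ f s := by
  induction B with
  | zero => exact ⟨T, le_rfl, fun t ht => (h t ht).trans (Nat.zero_le _)⟩
  | succ B ih =>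
    by_cases h1 : ∃ s, T ≤ s ∧ f s = B + 1
    · obtain ⟨s, hs, e⟩ := h1
      exact ⟨s, hs, fun t ht => e ▸ h t ht⟩
    · push Not at h1
      exact ih fun t ht => Nat.le_of_lt_succ (lt_of_le_of_ne (h t ht) (h1 t ht))

end Purex

open Purex in
theorem p_PURE (hINV : S_INV) (hCOV : S_COV) (hUNQ : S_UNQ) (hDESC : S_DESC) (hTR : S_TR)
    (hQUIET : S_QUIET) : S_PURE := by
  intro D ok c d y M hy
  obtain ⟨t1, hd, hQ⟩ := hQUIET D ok d
  have hex : ∀ t, ∃ p, t1 ≤ t → p ∈ D.cfg t ∧ y ∈ cyl (pr p c) := fun t => by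
    by_cases h : t1 ≤ t
    · obtain ⟨p, hp⟩ := hCOV D ok t c d y (by omega) hy
      exact ⟨p, fun _ => hp⟩
    · exact ⟨D.sup 0, fun h' => absurd h' h⟩
  choose q hq using hex
  have hpd : ∀ t, t1 ≤ t → pd (q t) c = d := fun t ht =>
    D.u_disj c _ _ y (cyl_anti ((hINV D ok t _ (hq t ht).1).pre c) (hq t ht).2) hy
  have hloc : ∀ t, t1 ≤ t → D.Calm t (loc (q t)) ∧ (loc (q t)).length ≤ d + 1 := fun t ht => by
    have hI := hINV D ok t _ (hq t ht).1
    have := hQ t ht _ hI.act (hpd t ht ▸ hI.kle c)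
    exact ⟨this.1, this.2.1⟩
  have step : ∀ t, t1 ≤ t → (∃ w, q (t + 1) = sub (q t) w) ∨
      mu c (lab (q t)) < mu c (lab (q (t + 1))) := by
    intro t ht
    have ht' : t1 ≤ t + 1 := by omega
    have hns : ∀ β, D.act t = some β → D.CanS t β → q t ≠ D.sup t := by
      intro β h1 h2 e
      have h3 := (ok.sup_mem t β h1 h2).2.2.1 c
      rw [← e, hpd t ht] at h3
      exact absurd (((hQ t ht β (ok.active h1) h3.1).2.2 h1).2 _ (D.srv_prefix t β)) (not_le.2 h3.2)
    rcases hTR D ok t c (q t) (q (t + 1)) ⟨(hq t ht).1, (hq _ ht').1,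
      (hDESC D ok t (t + 1) c (by omega) _ (hq t ht).1 _ (hq _ ht').1 y (hq t ht).2
        (hq _ ht').2).1⟩ with ⟨⟨w, -, e⟩, -⟩ | ⟨β, r, b, h1, h2, -, h3, h4⟩
    · left
      rw [Dat.relo_eq ((hloc t ht).1 t le_rfl)] at e
      exact ⟨w, e⟩
    · right
      rcases h4 with ⟨e, ⟨-, e'⟩ | ⟨-, e'⟩⟩ | ⟨e, ⟨e2, e'⟩ | ⟨-, e'⟩⟩
      · exact absurd e' (hns β h1 h2)
      · rw [e, e', lab_sub, h3.1]
        exact mu_A D t h2.2.1 c r
      · rw [e, e', lab_sub, h3.1, e2]
        exact mu_B D t h2.2.1 r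
      · exact absurd e' (hns β h1 h2)
  obtain ⟨s, hs, hmax⟩ := stab (f := fun t => mu c (lab (q t))) (B := 2 * (d + 1) + 1)
    (T := max M t1) fun t ht => by
      have h1 := (hloc t (le_of_max_le_right ht)).2
      have h2 : mu c (lab (q t)) ≤ 2 * (loc (q t)).length + 1 := mu_le c _
      omega
  have hs1 := le_of_max_le_right hs
  have all : ∀ t, s ≤ t → ∃ w, q t = sub (q s) w := by
    intro t ht
    induction t, ht using Nat.le_induction with
    | base => exact ⟨[], (sub_nil _).symm⟩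
    | succ t ht ih =>
      obtain ⟨w, e⟩ := ih
      rcases step t (hs1.trans ht) with ⟨w', e'⟩ | h
      · exact ⟨w ++ w', by rw [e', e, sub_sub]⟩
      · rw [e, lab_sub] at h
        exact absurd (hmax (t + 1) (by omega)) (not_le.2 h)
  refine ⟨s, le_of_max_le_left hs, q s, (hq s hs1).1, (hq s hs1).2, fun t ht r hr hyr => ?_⟩
  rw [hUNQ D ok t c r hr _ (hq t (hs1.trans ht)).1 y hyr (hq t (hs1.trans ht)).2]
  exact all t ht

end Pool.Agent.P.MP_54474a_lc.OR
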