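import Pool.Agent.P.MP_54474a_lc.OR.Iface

/-!
Nodes with a small restraint are eventually calm, and those that still act are live.
-/

namespace Pool.Agent.P.MP_54474a_lc.OR

open Set Filter Topology

namespace Quietx

variable {D : Dat}

theorem back_step (ok : D.Ok) {d t : ℕ} {β : Node} (ht : d < t) (ha : D.Active (t + 1) β)
    (hk : D.k (t + 1) β ≤ d) : ¬ D.Reset t β ∧ D.Active t β ∧ D.k t β ≤ d := by
  rcases ok.st_cases t β with h | ⟨h1, h2, -⟩
  · omega
  · exact ⟨h1, ok.back' ha h1, by omega⟩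

theorem back_le (ok : D.Ok) {d s t : ℕ} {β : Node} (hs : d < s) (h : s ≤ t) (ha : D.Active t β)
    (hk : D.k t β ≤ d) : D.Active s β ∧ D.k s β ≤ d := by
  induction t, h using Nat.le_induction with
  | base => exact ⟨ha, hk⟩
  | succ t ht ih =>
    have := back_step ok (by omega) ha hk
    exact ih this.2.1 this.2.2

theorem node_ev (hDICH : S_DICH) (ok : D.Ok) (d : ℕ) (β : Node) :
    ∀ᶠ t in atTop, D.Active t β → D.k t β ≤ d → D.Calm t β ∧
      (D.Still t β ∨ (D.Live β ∧ d ≤ D.m t β)) := by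
  by_cases h : ∀ t, d < t → D.Active t β ∧ D.k t β ≤ d
  · have hc : D.Calm (d + 1) β := fun t ht γ hγ hl => by
      have h1 := h (t + 1) (by omega)
      exact (back_step ok (by omega) h1.1 h1.2).1 ⟨γ, hγ, Or.inl hl⟩
    rcases hDICH D ok _ β hc with ⟨s, hs⟩ | hl
    · filter_upwards [eventually_ge_atTop s, eventually_ge_atTop (d + 1)] with t h1 h2 _ _
      exact ⟨hc.mono h2, Or.inl (hs.mono h1)⟩
    · obtain ⟨s, -, -, hs⟩ := ok.live_ev hl d
      filter_upwards [eventually_ge_atTop s, eventually_ge_atTop (d + 1)] with t h1 h2 _ _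
      exact ⟨hc.mono h2, Or.inr ⟨hl, (hs t h1).2.2⟩⟩
  · obtain ⟨s, hs⟩ := not_forall.1 h
    obtain ⟨h1, h2⟩ := Classical.not_imp.1 hs
    filter_upwards [eventually_ge_atTop s] with t ht ha hk
    exact (h2 (back_le ok h1 ht ha hk)).elim

end Quietx

theorem p_QUIET (hDICH : S_DICH) : S_QUIET := by
  intro D ok d
  have h := (eventually_all_finite (ok.finite_active (d + 1))).2
    fun β _ => Quietx.node_ev hDICH ok d β
  obtain ⟨s, hs⟩ := eventually_atTop.1 h
  refine ⟨max s (d + 1), lt_of_lt_of_le (Nat.lt_succ_self d) (le_max_right _ _),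
    fun t ht β ha hk => ?_⟩
  have h1 := Quietx.back_le ok (Nat.lt_succ_self d) ((le_max_right _ _).trans ht) ha hk
  obtain ⟨h2, h3⟩ := hs t ((le_max_left _ _).trans ht) β h1.1 ha hk
  refine ⟨h2, ok.len_le h1.1, fun hact => ?_⟩
  rcases h3 with h3 | h3
  · exact (h3 t le_rfl β hact List.prefix_rfl).elim
  · exact ⟨h3.1, fun γ hγ => h3.2.trans (ok.m_pre ha hγ)⟩

end Pool.Agent.P.MP_54474a_lc.OR
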