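import Pool.Agent.P.MP_54474a_lc.OR.Iface

/-!
Restriction of a good class to a clopen piece, and union of two good classes.
-/

namespace Pool.Agent.P.MP_54474a_lc.OR

open Set Filter Topology

namespace Resx

variable {e e' : Pt → Pt}

theorem closedEmb (h : Emb e) : IsClosedEmbedding e := h.cont.isClosedEmbedding h.inj

theorem openEmb (h : Emb e) : IsOpenEmbedding e :=
  ⟨(closedEmb h).isEmbedding, h.clopen.isOpen⟩

theorem der_pre (h : Emb e) (P : Set Pt) : derivedSet (e ⁻¹' P) = e ⁻¹' derivedSet P := by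
  ext x
  rw [mem_preimage, mem_derivedSet, mem_derivedSet, ← comap_principal]
  exact (openEmb h).accPt_comap_iff

theorem pre_cl (h : Emb e) (O : Set Pt) : e ⁻¹' closure O = closure (e ⁻¹' O) :=
  (openEmb h).isOpenMap.preimage_closure_eq_closure_preimage h.cont O

theorem img_clopen (h : Emb e) {C : Set Pt} (hC : IsClopen C) : IsClopen (e '' C) :=
  ⟨(closedEmb h).isClosedMap C hC.isClosed, (openEmb h).isOpenMap C hC.isOpen⟩

theorem pi_iff {P : Set Pt} : IsPi01 P ↔ CeO Pᶜ := by rw [CeO, compl_compl]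

theorem enc_pre (h : Emb e) (S : Set Pt) : (e ⁻¹' S).encard = (S ∩ range e).encard := by
  rw [← image_preimage_eq_inter_range, h.inj.encard_image]

theorem pre_left (h : Emb e) (hr : range e' = (range e)ᶜ) (A B : Set Pt) :
    e ⁻¹' (e '' A ∪ e' '' B) = A := by
  ext x
  constructor
  · rintro (⟨y, hy, hxy⟩ | ⟨y, -, hxy⟩)
    · exact h.inj hxy ▸ hy
    · have : e x ∈ range e' := ⟨y, hxy⟩
      rw [hr] at this
      exact (this ⟨x, rfl⟩).elim
  · exact fun hx => Or.inl ⟨x, hx, rfl⟩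

theorem pre_right (h : Emb e') (hr : range e' = (range e)ᶜ) (A B : Set Pt) :
    e' ⁻¹' (e '' A ∪ e' '' B) = B := by
  rw [union_comm]
  exact pre_left h (by rw [hr, compl_compl]) B A

theorem split (hr : range e' = (range e)ᶜ) (S : Set Pt) :
    S = e '' (e ⁻¹' S) ∪ e' '' (e' ⁻¹' S) := by
  rw [image_preimage_eq_inter_range, image_preimage_eq_inter_range, hr, inter_union_compl]

theorem disj (hr : range e' = (range e)ᶜ) (A B : Set Pt) : Disjoint (e '' A) (e' '' B) := by
  rw [disjoint_left]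
  rintro _ ⟨x, -, rfl⟩ ⟨y, -, hy⟩
  have : e x ∈ range e' := ⟨y, hy⟩
  rw [hr] at this
  exact this ⟨x, rfl⟩

end Resx

open Resx

theorem p_RES : S_RES := by
  rintro e k j P h ⟨h1, h2, -, h4⟩ hj
  refine ⟨?_, h2.preimage_of_injOn h.inj.injOn, ?_, fun O hO => ?_⟩
  · rw [pi_iff, ← preimage_compl]
    exact h.pre _ (pi_iff.1 h1)
  · rw [der_pre h, enc_pre h, hj]
  · obtain ⟨C, hC, hPC⟩ := h4 _ (h.img O hO)
    refine ⟨e ⁻¹' C, hC.preimage h.cont, ?_⟩
    have := congrArg (fun S => e ⁻¹' S) hPC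
    simp only [preimage_inter] at this
    rw [← this, pre_cl h, preimage_image_eq _ h.inj]

theorem p_UNI : S_UNI := by
  rintro e e' j k P Q h h' hr ⟨h1, h2, h3, h4⟩ ⟨g1, g2, g3, g4⟩
  refine ⟨?_, (h2.image e).union (g2.image e'), ?_, fun O hO => ?_⟩
  · rw [pi_iff, split hr (e '' P ∪ e' '' Q)ᶜ, preimage_compl, preimage_compl, pre_left h hr,
      pre_right h' hr]
    exact (h.img _ (pi_iff.1 h1)).union (h'.img _ (pi_iff.1 g1))
  · rw [split hr (derivedSet (e '' P ∪ e' '' Q)), ← der_pre h, ← der_pre h', pre_left h hr,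
      pre_right h' hr, encard_union_eq (disj hr _ _), h.inj.encard_image, h'.inj.encard_image,
      h3, g3, Nat.cast_add]
  · obtain ⟨C, hC, hPC⟩ := h4 _ (h.pre O hO)
    obtain ⟨C', hC', hQC⟩ := g4 _ (h'.pre O hO)
    refine ⟨e '' C ∪ e' '' C', (img_clopen h hC).union (img_clopen h' hC'), ?_⟩
    rw [split hr ((e '' P ∪ e' '' Q) ∩ closure O),
      split hr ((e '' P ∪ e' '' Q) ∩ (e '' C ∪ e' '' C'))]
    simp only [preimage_inter, pre_left h hr, pre_right h' hr, pre_cl h, pre_cl h', hPC, hQC]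

end Pool.Agent.P.MP_54474a_lc.OR
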