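import Pool.Agent.P.MP_54474a_lc.OR.Iface

namespace Pool.Agent.P.MP_54474a_lc.OR

open Set Filter Topology
open Pool.Agent.Lib.Helper43

attribute [local irreducible] Computable

section
variable {α : Type} [Primcodable α]

@[fun_prop] theorem comp_pc {f : α → Pair} {g : α → Bool} (hf : Computable f) (hg : Computable g) :
    Computable fun a => pc (f a) (g a) := by
  unfold pc
  fun_prop

@[fun_prop] theorem comp_pd {f : α → Pair} {g : α → Bool} (hf : Computable f) (hg : Computable g) :
    Computable fun a => pd (f a) (g a) := CFP.fst (comp_pc hf hg)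

@[fun_prop] theorem comp_pr {f : α → Pair} {g : α → Bool} (hf : Computable f) (hg : Computable g) :
    Computable fun a => pr (f a) (g a) := CFP.snd (comp_pc hf hg)

@[fun_prop] theorem comp_loc {f : α → Pair} (hf : Computable f) : Computable fun a => loc (f a) :=
  CFP.fst (CFP.snd (CFP.snd hf))

@[fun_prop] theorem comp_tag {f : α → Pair} (hf : Computable f) : Computable fun a => tag (f a) :=
  CFP.snd (CFP.snd (CFP.snd hf))

@[fun_prop] theorem comp_up {f : α → ℕ} {g : α → Node} (hf : Computable f) (hg : Computable g) :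
    Computable fun a => up (f a) (g a) :=
  CFP.take (CFP.sub (CFP.length hg) hf) hg

@[fun_prop] theorem comp_base {f : α → Pair} (hf : Computable f) :
    Computable fun a => base (f a) := comp_up (comp_tag hf) (comp_loc hf)

@[fun_prop] theorem Inp.comp_inW (I : Inp) {f g : α → ℕ} {h : α → Str} (hf : Computable f)
    (hg : Computable g) (hh : Computable h) : Computable fun a => I.inW (f a) (g a) (h a) :=
  CFP.comp (g := fun a => (f a, g a, h a)) I.c_inW (CFP.prodMk hf (CFP.prodMk hg hh))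

@[fun_prop] theorem Inp.comp_St (I : Inp) {f g : α → ℕ} {h : α → Pair} (hf : Computable f)
    (hg : Computable g) (hh : Computable h) : Computable fun a => I.St (f a) (g a) (h a) := by
  unfold Inp.St
  refine CFP.map (g := fun a n => I.inW (f a) (n / 2) (pr (h a) (n + 1).bodd)) ?_ (CFP.range hg)
  exact I.comp_inW (by fun_prop) (by fun_prop) (comp_pr (by fun_prop) (by fun_prop))

end

namespace Sgx

theorem pre_iff (d g : Node) : (g.take d.length == d) = true ↔ d <+: g := by
  rw [beq_iff_eq, List.prefix_iff_eq_take, eq_comm]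

theorem ceo (D : Dat) (ok : D.Ok) (a : Bool) (t : ℕ × Pair → Bool) (ht : Computable t) :
    CeO {y | ∃ s, ∃ p ∈ D.cfg s, t (s, p) = true ∧ y ∈ cyl (pr p a)} := by
  have h1 : Sig fun q : Str × ℕ × Pair => q.2.2 ∈ D.cfg q.2.1 :=
    ok.sig.comp (f := fun q : Str × ℕ × Pair => q.2) (by fun_prop)
  have h2 : Sig fun q : Str × ℕ × Pair => (t q.2 && (q.1 == pr q.2.2 a)) = true :=
    Sig.of_bool (CFP.and (CFP.comp ht (by fun_prop)) (CFP.beq (by fun_prop) (by fun_prop)))
  have h3 := ceo_of_sig (Sig.ex (p := fun (σ : Str) (q : ℕ × Pair) =>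
    q.2 ∈ D.cfg q.1 ∧ (t q && (σ == pr q.2 a)) = true) (h1.and h2))
  refine (congrArg CeO (Set.ext fun y => ?_)).mp h3
  simp only [mem_ofPred_eq, Bool.and_eq_true, beq_iff_eq]
  constructor
  · rintro ⟨_, ⟨⟨s, p⟩, h, h', rfl⟩, hy⟩
    exact ⟨s, p, h, h', hy⟩
  · rintro ⟨s, p, h, h', hy⟩
    exact ⟨_, ⟨(s, p), h, h', rfl⟩, hy⟩

end Sgx

theorem p_SIG : S_SIG := by
  intro D ok
  refine ⟨fun δ N ν a => ?_, fun s0 e c α d => ?_⟩
  · have h := Sgx.ceo D ok a
      (fun q => ((base q.2).take δ.length == δ) && (D.St q.1 N q.2 == ν))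
      (CFP.and (CFP.beq (by fun_prop) (by fun_prop)) (CFP.beq (by fun_prop) (by fun_prop)))
    refine (congrArg CeO (Set.ext fun y => ?_)).mp h
    simp only [Dat.O, mem_ofPred_eq, Bool.and_eq_true, Sgx.pre_iff, beq_iff_eq (b := ν), and_assoc]
  · have h := Sgx.ceo D ok (!c)
      (fun q => decide (s0 ≤ q.1) && (D.inW q.1 e (pr q.2 c) &&
        (((base q.2).take α.length == α) ||
          ((tag q.2 == 1 && (α.take (loc q.2).length == loc q.2)) || decide (pd q.2 c ≤ d)))))
      (CFP.and (by fun_prop) (CFP.and (by fun_prop) (CFP.or (CFP.beq (by fun_prop) (by fun_prop))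
        (CFP.or (CFP.and (CFP.beq (by fun_prop) (by fun_prop))
          (CFP.beq (by fun_prop) (by fun_prop))) (by fun_prop)))))
    refine (congrArg CeO (Set.ext fun y => ?_)).mp h
    simp only [Dat.V, mem_ofPred_eq, Bool.and_eq_true, Bool.or_eq_true, Sgx.pre_iff,
      beq_iff_eq (b := 1), decide_eq_true_eq]
    constructor
    · rintro ⟨s, p, h1, ⟨h2, h3, h4⟩, h5⟩
      exact ⟨s, h2, p, h1, h3, h4, h5⟩
    · rintro ⟨s, h2, p, h1, h3, h4, h5⟩
      exact ⟨s, p, h1, ⟨h2, h3, h4⟩, h5⟩

end Pool.Agent.P.MP_54474a_lc.OR
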