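import Pool.Agent.P.MP_54474a_lc.OR.Iface

/-!
A stack of records with finite injury.
-/

namespace Pool.Agent.P.MP_54474a_lc.OR

open Set Filter Topology
open Pool.Agent.Lib.Helper43

namespace Stackx

variable {R : Type} (r0 : R) (nxt : ℕ → List R → R) (bad : ℕ → R → Bool)

/-- The part of the stack below the first bad record. -/
def cut (s : ℕ) (l : List R) : List R := l.takeWhile fun r => !bad s r

/-- The stack at a stage. -/
def stk : ℕ → List R
  | 0 => [r0]
  | s + 1 => cut bad s (stk s) ++ [nxt s (cut bad s (stk s))]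

theorem cut_eq (s : ℕ) (l : List R) :
    cut bad s l = l.reverse.foldl (fun acc x => bif bad s x then [] else x :: acc) [] := by
  rw [List.foldl_reverse, cut]
  induction l with
  | nil => rfl
  | cons a l ih => cases h : bad s a <;> simp [h, ih]

attribute [local irreducible] Computable in
theorem comp [Primcodable R] (h1 : Computable fun q : ℕ × List R => nxt q.1 q.2)
    (h2 : Computable fun q : ℕ × R => bad q.1 q.2) : Computable (stk r0 nxt bad) := by
  have hc : Computable fun p : ℕ × ℕ × List R => cut bad p.2.1 p.2.2 := by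
    simp only [cut_eq]
    refine CFP.foldl (CFP.cond (CFP.comp (g := fun p : (ℕ × ℕ × List R) × List R × R =>
      (p.1.2.1, p.2.2)) h2 (by fun_prop)) (by fun_prop) (by fun_prop)) (by fun_prop) (by fun_prop)
  have hn : Computable fun p : ℕ × ℕ × List R => nxt p.2.1 (cut bad p.2.1 p.2.2) :=
    CFP.comp (g := fun p : ℕ × ℕ × List R => (p.2.1, cut bad p.2.1 p.2.2)) h1
      (CFP.prodMk (by fun_prop) hc)
  refine Computable.of_eq (CFP.natRec (f := fun n : ℕ => n) (g := fun _ => [r0])
    (h := fun _ s l => cut bad s l ++ [nxt s (cut bad s l)]) CFP.id (CFP.const _)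
    (CFP.append hc (CFP.cons hn (CFP.const _)))) fun n => ?_
  induction n with
  | zero => rfl
  | succ n ih => rw [stk, ← ih]

variable {r0 nxt bad}

theorem cut_app {K : List R} (hK : ∀ r ∈ K, ∀ s, bad s r = false) (s : ℕ) (L : List R) :
    cut bad s (K ++ L) = K ++ cut bad s L :=
  List.takeWhile_append_of_pos fun a ha => by rw [hK a ha]; rfl

theorem pre {s1 : ℕ} (hK : ∀ r ∈ stk r0 nxt bad s1, ∀ s, bad s r = false) {s : ℕ} (hs : s1 ≤ s) :
    stk r0 nxt bad s1 <+: stk r0 nxt bad s := by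
  induction s, hs using Nat.le_induction with
  | base => exact List.prefix_rfl
  | succ s _ ih =>
    obtain ⟨L, hL⟩ := ih
    rw [stk, ← hL, cut_app hK, List.append_assoc]
    exact List.prefix_append _ _

theorem again (hb : ∀ s r, bad s r = true → bad (s + 1) r = true) {K : List R}
    (hK : ∀ r ∈ K, ∀ s, bad s r = false) {s s' : ℕ} (hs : cut bad s (stk r0 nxt bad s) = K)
    (h : bad s' (nxt s K) = true) : ∃ s2, s < s2 ∧ cut bad s2 (stk r0 nxt bad s2) = K := by
  by_contra hc
  push Not at hc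
  have key : ∀ t, s + 1 ≤ t → ∃ L, stk r0 nxt bad t = K ++ nxt s K :: L := by
    intro t ht
    induction t, ht using Nat.le_induction with
    | base => exact ⟨[], by rw [stk, hs]⟩
    | succ t ht ih =>
      obtain ⟨L, hL⟩ := ih
      have h1 := hc t ht
      rw [stk]
      rw [hL, cut_app hK, cut, List.takeWhile_cons] at h1 ⊢
      split_ifs at h1 ⊢
      · exact ⟨_, by rw [List.append_assoc, List.cons_append]⟩
      · exact absurd (List.append_nil K) h1
  have hbad : ∀ t, s' ≤ t → bad t (nxt s K) = true := fun t ht => by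
    induction t, ht using Nat.le_induction with
    | base => exact h
    | succ t _ ih => exact hb _ _ ih
  obtain ⟨L, hL⟩ := key _ (le_max_left (s + 1) s')
  refine hc _ (le_max_left (s + 1) s') ?_
  rw [hL, cut_app hK, cut, List.takeWhile_cons, hbad _ (le_max_right _ _)]
  exact List.append_nil K

theorem step (hb : ∀ s r, bad s r = true → bad (s + 1) r = true)
    (hn : ∀ K, ∃ s0, ∀ s, s0 ≤ s → ∀ s', bad s' (nxt s K) = false) (s1 : ℕ) :
    ∃ s, (∀ r ∈ stk r0 nxt bad s1, ∀ s, bad s r = false) → s1 ≤ s ∧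
      stk r0 nxt bad (s + 1) = stk r0 nxt bad s1 ++ [nxt s (stk r0 nxt bad s1)] ∧
      ∀ s', bad s' (nxt s (stk r0 nxt bad s1)) = false := by
  by_contra hc
  push Not at hc
  have hK := (hc 0).1
  have key : ∀ n, ∃ s, s1 + n ≤ s ∧ cut bad s (stk r0 nxt bad s) = stk r0 nxt bad s1 := by
    intro n
    induction n with
    | zero => exact ⟨s1, le_rfl, by simpa [cut] using fun r hr => hK r hr s1⟩
    | succ n ih =>
      obtain ⟨s, h1, h2⟩ := ih
      obtain ⟨s', h3⟩ := (hc s).2 (by omega) (by rw [stk, h2])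
      obtain ⟨s2, h4, h5⟩ := again hb hK h2 (eq_true_of_ne_false h3)
      exact ⟨s2, by omega, h5⟩
  obtain ⟨s0, h0⟩ := hn (stk r0 nxt bad s1)
  obtain ⟨s, h1, h2⟩ := key s0
  obtain ⟨s', h3⟩ := (hc s).2 (by omega) (by rw [stk, h2])
  exact h3 (h0 s (by omega) s')

end Stackx

open Stackx in
theorem p_STACK : S_STACK := by
  intro R _ r0 nxt bad h1 h2 hb h0 hn
  choose f hf using step (r0 := r0) hb hn
  obtain ⟨u, u0, us⟩ : ∃ u : ℕ → ℕ, u 0 = 0 ∧ ∀ t, u (t + 1) = f (u t) + 1 :=
    ⟨fun t => Nat.rec 0 (fun _ ih => f ih + 1) t, rfl, fun _ => rfl⟩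
  obtain ⟨ρ, ρ0, ρs⟩ : ∃ ρ : ℕ → R, ρ 0 = r0 ∧
      ∀ t, ρ (t + 1) = nxt (f (u t)) (stk r0 nxt bad (u t)) :=
    ⟨fun t => Nat.rec r0 (fun t _ => nxt (f (u t)) (stk r0 nxt bad (u t))) t, rfl, fun _ => rfl⟩
  have hg : ∀ t, ∀ r ∈ stk r0 nxt bad (u t), ∀ s, bad s r = false := by
    intro t
    induction t with
    | zero =>
      intro r hr
      rw [u0, stk, List.mem_singleton] at hr
      exact hr ▸ h0
    | succ t ih =>
      intro r hr
      rw [us, (hf _ ih).2.1, List.mem_append, List.mem_singleton] at hr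
      rcases hr with hr | rfl
      exacts [ih r hr, (hf _ ih).2.2]
  have hm : ∀ t, stk r0 nxt bad (u t) = (List.range (t + 1)).map ρ := by
    intro t
    induction t with
    | zero => rw [u0, ← ρ0]; rfl
    | succ t ih =>
      rw [us, (hf _ (hg t)).2.1, List.range_succ, List.map_append, ← ih, ← ρs]
      rfl
  have hρ : ∀ t, ρ t ∈ stk r0 nxt bad (u t) := fun t => by
    rw [hm]
    exact List.mem_map_of_mem (List.mem_range.2 t.lt_succ_self)
  refine ⟨ρ, fun t => f (u t), stk r0 nxt bad, comp r0 nxt bad h1 h2, ρ0,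
    strictMono_nat_of_lt_succ fun t => ?_, fun t => by rw [ρs, hm], fun t => hg t _ (hρ t),
    fun s => ?_, fun t s hs => (pre (hg (t + 1)) (by rw [us]; exact hs)).subset (hρ _),
    fun t s hs => ?_⟩
  · exact (us t).symm.le.trans (hf _ (hg (t + 1))).1
  · exact (pre (hg 0) (u0.le.trans s.zero_le)).subset (ρ0 ▸ hρ 0)
  · induction s, hs using Nat.le_induction with
    | base =>
      intro r hr
      rw [Nat.succ_eq_add_one, ← us, hm] at hr
      obtain ⟨i, hi, rfl⟩ := List.mem_map.1 hr
      exact Or.inl ⟨i, Nat.lt_succ_iff.1 (List.mem_range.1 hi), rfl⟩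
    | succ s hs ih =>
      intro r hr
      rw [stk, List.mem_append, List.mem_singleton] at hr
      rcases hr with hr | rfl
      · exact ih r ((List.takeWhile_prefix _).subset hr)
      · exact Or.inr ⟨s, _, hs, rfl⟩

end Pool.Agent.P.MP_54474a_lc.OR
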