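import Pool.Agent.P.MP_54474a_lc.OR.Iface

namespace Pool.Agent.P.MP_54474a_lc.OR

open Set Filter Topology

namespace Stuckx

variable {D : Dat} {S g : Node} {s1 s : ℕ}

/-- All data attached to a node extending a calm and still node are frozen. -/
theorem fz (ok : D.Ok) (ha : D.Active s1 S) (hc : D.Calm s1 S) (hs : D.Still s1 S)
    (h : S <+: g) (ht : s1 ≤ s) :
    D.tau s g = D.tau s1 g ∧ D.nu s g = D.nu s1 g ∧ D.jj s g = D.jj s1 g ∧
      D.srv s g = D.srv s1 g ∧ D.side s g = D.side s1 g := by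
  have hm := (ok.frozen ha hc hs h ht).2.1
  have h1 : D.tau s g = D.tau s1 g := by unfold Dat.tau; rw [hm]
  refine ⟨h1, ?_, ?_, ?_, ?_⟩
  · unfold Dat.nu; rw [hm]
  · unfold Dat.jj; rw [hm]
  · unfold Dat.srv; rw [h1]
  · unfold Dat.side; rw [h1]

theorem concat_eq {d β : Node} {i j : ℕ} (h : d ++ [i] <+: β) (h' : d ++ [j] <+: β) : i = j := by
  have := (List.prefix_of_prefix_length_le h h' (by simp)).eq_of_length (by simp)
  simpa using this

/-- The label of the relocated pair. -/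
theorem lab_eq' {p : Pair} (hSg : S <+: g) (hb : up 1 S <+: base p)
    (htg : tag p = 0 ∨ (0 < tag p ∧ loc p ≠ []))
    (hR : ¬ (loc p ≠ [] ∧ (S <+: loc p ∨ Lf (loc p) S))) : lab (rel g p) = (up 1 S, 0) := by
  rcases List.eq_nil_or_concat' S with rfl | ⟨d, i, rfl⟩
  · have h1 : loc p = [] := by
      by_contra h
      exact hR ⟨h, Or.inl List.nil_prefix⟩
    have h2 : tag p = 0 := htg.resolve_right fun h => h.2 h1
    rw [rel_of_not (by rw [h1]; simp), lab_eq, h1, h2]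
    simp
  · rw [up_concat] at hb ⊢
    have hdg : d <+: g := (List.prefix_append _ _).trans hSg
    have hdl : d <+: loc p := hb.trans (base_prefix p)
    by_cases e : d = loc p
    · have h2 : tag p = 0 := by
        refine htg.resolve_right fun h => up_ne h.2 h.1 ?_
        exact (base_prefix p).eq_of_length_le (e ▸ hb.length_le)
      rw [rel_of_not (by rw [← e]; exact fun h => h.not_prefix' hdg), lab_eq, ← e, h2]
    · obtain ⟨i', hi'⟩ := prefix_concat_of_ne hdl e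
      have hne : loc p ≠ [] := by
        intro h
        rw [h] at hi'
        simp at hi'
      have hlt : i < i' := by
        rcases lt_trichotomy i i' with h | rfl | h
        · exact h
        · exact (hR ⟨hne, Or.inl hi'⟩).elim
        · exact (hR ⟨hne, Or.inr ((lf_sibling h).mono hi' List.prefix_rfl)⟩).elim
      rw [lab_rel_of ((lf_sibling hlt).mono hSg hi')]
      congr 1
      by_contra hc
      obtain ⟨j, hj⟩ := prefix_concat_of_ne (prefix_cp hb hdg) (Ne.symm hc)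
      have h1 := concat_eq (hj.trans (cp_prefix_right _ _)) hSg
      have h2 := concat_eq ((hj.trans (cp_prefix_left _ _)).trans (base_prefix p)) hi'
      omega

end Stuckx

open Stuckx

theorem p_BLOCK : S_BLOCK := by
  intro D ok S s1 ha hc hs H
  have key : ∃ γ, D.Active s1 γ ∧ S <+: γ ∧
      ∀ M, ∃ s, M ≤ s ∧ s1 ≤ s ∧ D.srv s γ = S ∧ D.Need s γ := by
    by_contra hn
    have h1 : ∀ γ, D.Active s1 γ ∧ S <+: γ →
        ∃ M, ∀ s, M ≤ s → s1 ≤ s → D.srv s γ = S → ¬ D.Need s γ := by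
      intro γ hγ
      by_contra h2
      refine hn ⟨γ, hγ.1, hγ.2, fun M => ?_⟩
      by_contra h3
      exact h2 ⟨M, fun s e1 e2 e3 e4 => h3 ⟨s, e1, e2, e3, e4⟩⟩
    choose! B hB using h1
    obtain ⟨M0, hM0⟩ := ((ok.finite_active s1).image B).bddAbove
    obtain ⟨s, h2, γ, h3, h4, h5⟩ := H (max M0 s1)
    have h6 : S <+: γ := h4 ▸ D.srv_prefix s γ
    have h7 : s1 ≤ s := (le_max_right _ _).trans h2
    have h8 := (ok.frozen_active ha hc hs h6 h7).1 h3
    exact hB γ ⟨h8, h6⟩ s ((hM0 ⟨γ, h8, rfl⟩).trans ((le_max_left _ _).trans h2)) h7 h4 h5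
  obtain ⟨γ, hγ, hS, K⟩ := key
  obtain ⟨s0, -, h0, e0, n0⟩ := K 0
  have hsv : D.sv s1 γ = false := (ok.frozen ha hc hs hS h0).2.2.symm.trans n0.2.1
  obtain ⟨z, hz1, hz2, hz3⟩ := D.pt_of_alive (β := γ) (a := D.side s1 γ) (j := D.jj s1 γ)
    fun M => by
      obtain ⟨s, h1, h2, -, h4⟩ := K M
      have h5 := fz ok ha hc hs hS h2
      exact ⟨s, h1, h5.2.2.1 ▸ h5.2.2.2.2 ▸ h4.2.2.2⟩
  refine ⟨γ, z, hγ, (fz ok ha hc hs hS h0).2.2.2.1.symm.trans e0, n0.1, ?_,
    ⟨s0, h0, n0.2.2.1⟩, hz1, hz2, hz3⟩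
  intro s h1 p hp hsup
  exact ok.frozen_not_can hc hs hS h1 (Or.inl ⟨(ok.frozen_active ha hc hs hS h1).2 hγ, n0.1,
    (ok.frozen ha hc hs hS h1).2.2.trans hsv, p, hp, hsup⟩)

theorem p_STUCK (hINV : S_INV) (hREG : S_REG) (hUNIF : S_UNIF) (hBLOCK : S_BLOCK) :
    S_STUCK := by
  intro D ok S s1 ha hc hs H hcl
  obtain ⟨g, z, hg, hsrv, hne, hno, ⟨s, hs1, t, ht, htgt⟩, hz1, hz2, hz3⟩ :=
    hBLOCK D ok S s1 ha hc hs H
  have hSg : S <+: g := hsrv ▸ D.srv_prefix s1 g
  have hSu : S <+: up 1 g := by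
    rw [← hsrv]
    exact up_anti (by rcases D.tau_cases s1 g with h | h <;> omega) g
  have F := fun s (h : s1 ≤ s) => fz ok ha hc hs hSg h
  have hside : S ≠ [] → D.side s1 g = S.length.bodd := by
    intro h
    have h1 : S.length = g.length - D.tau s1 g := by rw [← hsrv]; exact up_length _ _
    have h2 := List.length_pos_iff.2 h
    have h3 : g.length + D.tau s1 g = S.length + 2 * D.tau s1 g := by omega
    unfold Dat.side
    rw [h3]
    simp
  have hbt : base t = S := htgt.base_eq.trans ((F s hs1).2.2.2.1.trans hsrv)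
  have It := hINV D ok s t ht
  have hcz := hcl (D.side s1 g) (D.nu s1 g) hside ⟨pt (pr t (D.side s1 g)),
    ⟨s, t, ht, hbt ▸ up_prefix _ _, by
      have := htgt.2.2.2.1
      rwa [(F s hs1).2.2.2.1, hsrv, (F s hs1).2.1] at this, pt_mem_cyl _⟩,
    (D.inB_iff _ (pt_mem_cyl _) fun i hi =>
      ((ok.ent ha i hi).le.trans hs1).trans (It.len _)).1 (hbt ▸ It.inb _)⟩
    z hz1 (D.bP_anti hSu _ hz2)
  obtain ⟨s2, -, -, hU⟩ := hUNIF D ok s1
  obtain ⟨L, hL⟩ := D.exists_big_piece hz1 (s2 + s1 + 1)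
  obtain ⟨y, ⟨s', p, hp, hb, hst, hy⟩, hyz⟩ := mem_closure_iff_cyl.1 hcz (max L s1)
  have Ip := hINV D ok s' p hp
  have hbig := hL y (cyl_seg_anti z (le_max_left _ _) hyz) _ (cyl_anti (Ip.pre _) hy)
  have hs' : s1 ≤ s' := by have := Ip.lt (D.side s1 g); omega
  have hpd : ∀ c, s1 < pd p c := fun c => by
    by_contra h
    have := hU s' p hp c (D.side s1 g) (not_lt.1 h)
    omega
  have hR : ¬ (loc p ≠ [] ∧ (S <+: loc p ∨ Lf (loc p) S)) := by
    intro h
    have := hREG D ok {b | b ≠ [] ∧ (S <+: b ∨ Lf b S)} s1 (fun h => h.1 rfl)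
      (fun β hβ γ hβγ => ⟨fun e => hβ.1 (List.prefix_nil.1 (e ▸ hβγ)),
        hβ.2.imp (fun h => h.trans hβγ) fun h => h.mono hβγ List.prefix_rfl⟩)
      (fun t ht β hβ h => h.2.elim (hs t ht β hβ) (hc t ht β hβ)) s' p hp h false
    have := hpd false
    omega
  have hent : ∀ i ∈ g, i ≤ s1 := fun i hi => (ok.ent hg i hi).le
  have hent' : ∀ i ∈ up 1 g, i ≤ s1 := fun i hi => hent i ((up_prefix 1 g).subset hi)
  have F' := F s' hs'
  refine hno s' hs' p hp ⟨?_, fun c => ⟨?_, ?_⟩, ?_, ?_, ?_⟩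
  · rw [F'.2.2.2.1, hsrv]
    refine lab_eq' hSg hb ?_ hR
    rcases Ip.tg with h | h | h
    · exact Or.inl h
    · exact Or.inr ⟨by omega, h.2.1⟩
    · exact Or.inr ⟨by omega, h.2.1⟩
  · have h1 := (ok.frozen ha hc hs hSg hs').1
    have h2 := ok.k_le s1 g
    have := hpd c
    omega
  · rw [F'.2.2.2.1, hsrv]
    have h1 := (ok.frozen ha hc hs List.prefix_rfl hs').2.1
    have h2 := ok.m_le s1 S
    have := hpd c
    omega
  · rw [F'.2.2.2.1, hsrv, F'.2.1]
    exact hst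
  · rw [F'.2.2.2.2]
    refine (D.inB_iff _ hy fun i hi => ((hent' i hi).trans hs').trans (Ip.len _)).2 ?_
    exact (D.bP_congr _ hyz fun i hi => (hent' i hi).trans (le_max_right _ _)).2 hz2
  · have hl := hent _ (last_mem hne)
    rw [F'.2.2.2.2, F'.2.2.1, D.cell_of_mem _ hy ((hl.trans hs').trans (Ip.len _)),
      D.cellP_congr _ hyz (hl.trans (le_max_right _ _)), hz3]

end Pool.Agent.P.MP_54474a_lc.OR
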