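import Pool.Agent.P.MP_54474a_lc.OR.Iface

namespace Pool.Agent.P.MP_54474a_lc.OR

open Set Filter Topology

namespace Topx

theorem not_countable : ¬ (univ : Set Pt).Countable := by
  intro h
  obtain ⟨f, hf⟩ := h.exists_eq_range univ_nonempty
  have : (fun n => !f n n) ∈ range f := hf ▸ mem_univ _
  obtain ⟨n, hn⟩ := this
  have := congrFun hn n
  simp at this

theorem nd {P : Set Pt} (hc : P.Countable) (σ : Str) : ∃ y ∈ cyl σ, y ∉ P := by
  by_contra h
  push Not at h
  apply not_countable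
  have h1 : (cat σ ⁻¹' P).Countable :=
    hc.preimage_of_injOn fun _ _ _ _ e => cat_inj e
  exact h1.mono fun z _ => h (cat σ z) (cat_mem_cyl σ z)

theorem int_empty {P : Set Pt} (hc : P.Countable) : interior P = ∅ := by
  refine eq_empty_of_forall_notMem fun x hx => ?_
  obtain ⟨n, hn⟩ := mem_interior_iff_cyl.1 hx
  obtain ⟨y, h1, h2⟩ := nd hc (seg x n)
  exact h2 (hn h1)

theorem jump_of {F : Set Pt} (h : IsPi01 F) : IsPi01Jump F := by
  obtain ⟨T, hT, ht, h⟩ := h.exists_tree
  refine ⟨T, ⟨fun σ _ => T σ, hT.comp Computable.fst, fun _ => Eventually.of_forall fun _ => rfl⟩,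
    ht, Set.ext h⟩

end Topx

theorem p_EQV : S_EQV := by
  intro P hP hc
  refine ⟨Topx.nd hc, fun h O hO => ?_, fun h F hF hJ => ?_⟩
  · refine h _ inter_subset_left ((isPi01Jump_iff hP (Topx.int_empty hc) inter_subset_left).2
      ⟨Oᶜ, hO, ?_⟩)
    rw [interior_compl, sdiff_compl]
  · obtain ⟨Q, hQ, rfl⟩ := (isPi01Jump_iff hP (Topx.int_empty hc) hF).1 hJ
    obtain ⟨C, hC, e⟩ := h Qᶜ (by unfold CeO; rwa [compl_compl])
    refine ⟨C, hC, ?_⟩
    rw [← e, closure_compl, sdiff_eq]

theorem p_TOP (hEQV : S_EQV) : S_TOP := by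
  rintro P ⟨hP, hc, h1, hJ⟩
  obtain ⟨x, hx⟩ := Set.encard_eq_one.1 (by simpa using h1)
  have hxd : x ∈ derivedSet P := by rw [hx]; rfl
  have hxP : x ∈ P := (isClosed_iff_derivedSet_subset P).1 hP.isClosed hxd
  refine ⟨x, hxP, fun y _ hne => ?_, accPt_iff_cyl.1 hxd, fun O hO hxO => ?_, fun O hO => ?_⟩
  · have : y ∉ derivedSet P := by rw [hx]; exact hne
    rw [accPt_iff_cyl] at this
    push Not at this
    exact this
  · obtain ⟨C, hC, e⟩ := hJ O hO
    have hxC : x ∈ C := (e ▸ (⟨hxP, hxO⟩ : x ∈ P ∩ closure O) : x ∈ P ∩ C).2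
    obtain ⟨n, hn⟩ := mem_nhds_iff_cyl.1 (hC.isOpen.mem_nhds hxC)
    exact ⟨n, fun y hy hy' => (e.symm ▸ (⟨hy, hn hy'⟩ : y ∈ P ∩ C) : y ∈ P ∩ closure O).2⟩
  · obtain ⟨C0, hC0, e⟩ := ((hEQV P hP hc).2.2 hJ) (P ∩ Oᶜ) inter_subset_left
      (Topx.jump_of (hP.inter hO))
    have e' : P ∩ O = P ∩ C0ᶜ := by
      ext y
      have := Set.ext_iff.1 e y
      simp only [mem_inter_iff, mem_compl_iff] at this ⊢
      tauto
    have hcl : IsClosed (P ∩ O) := e' ▸ hP.isClosed.inter hC0.compl.isClosed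
    obtain ⟨C, hC, h2, h3⟩ := exists_clopen_of_closed_subset_open hcl hO.isOpen inter_subset_right
    exact ⟨C, hC, h3, h2⟩

theorem p_INP (hINU : S_INU) (hINW : S_INW) (hINC : S_INC) (hEQV : S_EQV) (hTOP : S_TOP) :
    S_INP := by
  intro P Q hP hQ
  obtain ⟨xP, hxP, iP, lP, bP, tP⟩ := hTOP P hP
  obtain ⟨xQ, hxQ, iQ, lQ, bQ, tQ⟩ := hTOP Q hQ
  have nP := (hEQV P hP.1 hP.2.1).1
  have nQ := (hEQV Q hQ.1 hQ.2.1).1
  obtain ⟨uP, cuP, dP, vP⟩ := hINU P hP.1 ⟨xP, hxP⟩ nP
  obtain ⟨uQ, cuQ, dQ, vQ⟩ := hINU Q hQ.1 ⟨xQ, hxQ⟩ nQ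
  obtain ⟨TP, cTP, trP, pP⟩ := hP.1.exists_tree
  obtain ⟨TQ, cTQ, trQ, pQ⟩ := hQ.1.exists_tree
  obtain ⟨inW, cW, mW, uW⟩ := hINW
  obtain ⟨⟨cell, cc, dc, uc⟩, it, cit, fit⟩ := hINC
  refine ⟨{ P := fun a => cond a Q P
            x := fun a => cond a xQ xP
            u := fun a => cond a uQ uP
            T := fun a => cond a TQ TP
            inW := inW
            cell := cell
            it := it
            u_disj := fun a => by cases a; exacts [dP, dQ]
            u_cover := fun a => by cases a; exacts [vP, vQ]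
            T_tree := fun a => by cases a; exacts [trP, trQ]
            T_path := fun a => by cases a; exacts [pP, pQ]
            W_mono := mW
            W_univ := uW
            cell_dec := dc
            cell_univ := uc
            it_fair := fit
            c_u := (Computable.cond Computable.fst (cuQ.comp Computable.snd)
              (cuP.comp Computable.snd)).of_eq fun q => by
                obtain ⟨a, n⟩ := q; cases a <;> rfl
            c_T := (Computable.cond Computable.fst (cTQ.comp Computable.snd)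
              (cTP.comp Computable.snd)).of_eq fun q => by
                obtain ⟨a, n⟩ := q; cases a <;> rfl
            c_inW := cW
            c_cell := cc
            c_it := cit
            x_mem := fun a => by cases a; exacts [hxP, hxQ]
            iso := fun a => by cases a; exacts [iP, iQ]
            lim := fun a => by cases a; exacts [lP, lQ]
            nd := fun a => by cases a; exacts [nP, nQ]
            big := fun a => by cases a; exacts [bP, bQ]
            thin := fun a => by cases a; exacts [tP, tQ] }, rfl, rfl⟩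

end Pool.Agent.P.MP_54474a_lc.OR
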