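import Pool.Agent.P.MP_54474a_lc.OR.Iface

/-!
Tracing pairs from one stage to the next.
-/

namespace Pool.Agent.P.MP_54474a_lc.OR

open Set Filter Topology

namespace Trx

variable {D : Dat}

theorem pr_new' (s : ℕ) (z : Str) (c : Bool) : pr (D.new s z) c = D.u c s ++ z := by
  cases c <;> rfl

theorem not_new (hINV : S_INV) (ok : D.Ok) {s t : ℕ} (h : s ≤ t) {p : Pair} (hp : p ∈ D.cfg s)
    {c : Bool} {y : Pt} (hy : y ∈ cyl (pr p c)) {z : Str} (hz : y ∈ cyl (pr (D.new t z) c)) :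
    False := by
  have I := hINV D ok s p hp
  rw [pr_new'] at hz
  have h1 := D.u_disj c _ _ y (cyl_anti (I.pre c) hy) (cyl_anti (List.prefix_append _ _) hz)
  have h2 := I.lt c
  omega

/-- The source of a pair on side `c`. -/
theorem source (ok : D.Ok) {s : ℕ} {q : Pair} (hq : q ∈ D.cfg (s + 1)) (c : Bool) :
    (∃ z : Str, q = D.new s z) ∨ ∃ r ∈ D.cfg s, pr r c <+: pr q c ∧ pd q c = pd r c ∧
      (D.Pure s r q ∨ ∃ β t b, D.act s = some β ∧ D.CanS s β ∧ t ∈ D.cfg s ∧ D.Tgt s β t ∧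
        ((q = sub (D.pA s β t) [b] ∧
          ((c = D.side s β ∧ r = D.sup s) ∨ (c = (!D.side s β) ∧ r = t))) ∨
        (q = sub (D.pB s β t) [b] ∧
          ((c = D.side s β ∧ r = t) ∨ (c = (!D.side s β) ∧ r = D.sup s))))) := by
  rcases ok.step hq with ⟨z, -, h⟩ | ⟨p, hp, h⟩ | ⟨β, t, b, h1, h2, h3, h4, h5⟩
  · exact Or.inl ⟨z, h⟩
  · refine Or.inr ⟨p, hp, ?_, ?_, Or.inl h⟩
    · obtain ⟨w, -, rfl⟩ := h.1
      simp
    · obtain ⟨w, -, rfl⟩ := h.1
      simp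
  · have h6 := (ok.sup_mem s β h1 h2).1
    right
    rcases h5 with rfl | rfl <;> rcases bool_cases (D.side s β) c with rfl | rfl
    · exact ⟨_, h6, by simp, by simp,
        Or.inr ⟨β, t, b, h1, h2, h3, h4, Or.inl ⟨rfl, Or.inl ⟨rfl, rfl⟩⟩⟩⟩
    · exact ⟨_, h3, by simp, by simp,
        Or.inr ⟨β, t, b, h1, h2, h3, h4, Or.inl ⟨rfl, Or.inr ⟨rfl, rfl⟩⟩⟩⟩
    · exact ⟨_, h3, by simp, by simp,
        Or.inr ⟨β, t, b, h1, h2, h3, h4, Or.inr ⟨rfl, Or.inl ⟨rfl, rfl⟩⟩⟩⟩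
    · exact ⟨_, h6, by simp, by simp,
        Or.inr ⟨β, t, b, h1, h2, h3, h4, Or.inr ⟨rfl, Or.inr ⟨rfl, rfl⟩⟩⟩⟩

theorem loc_relo_prefix (s : ℕ) (p : Pair) : loc (D.relo s p) <+: loc p := by
  cases e : D.act s with
  | none => rw [Dat.relo_none e]
  | some β => rw [Dat.relo_some e]; exact loc_rel_prefix β p

end Trx

open Trx

theorem p_DESC (hINV : S_INV) (hUNQ : S_UNQ) : S_DESC := by
  intro D ok s t c h p hp
  induction t, h using Nat.le_induction with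
  | base =>
    intro q hq y h1 h2
    obtain rfl := hUNQ D ok s c p hp q hq y h1 h2
    exact ⟨List.prefix_rfl, rfl⟩
  | succ t ht ih =>
    intro q hq y h1 h2
    rcases source ok hq c with ⟨z, rfl⟩ | ⟨r, hr, h3, h4, -⟩
    · exact (not_new hINV ok ht hp h1 h2).elim
    · have h5 := ih r hr y h1 (cyl_anti h3 h2)
      exact ⟨h5.1.trans h3, h4.trans h5.2⟩

theorem p_TR (hINV : S_INV) (hUNQ : S_UNQ) : S_TR := by
  rintro D ok s c p q ⟨hp, hq, h⟩
  have h2 := pt_mem_cyl (pr q c)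
  have h1 := cyl_anti h h2
  rcases source ok hq c with ⟨z, rfl⟩ | ⟨r, hr, h3, -, h5⟩
  · exact (not_new hINV ok le_rfl hp h1 h2).elim
  · obtain rfl := hUNQ D ok s c p hp r hr _ h1 (cyl_anti h3 h2)
    exact h5

theorem p_REG (hINV : S_INV) : S_REG := by
  intro D ok R s1 h0 hR hact t
  induction t with
  | zero => simp [ok.cfg0]
  | succ t ih =>
    intro q hq hl c
    by_cases ht : t + 1 ≤ s1
    · exact ((hINV D ok _ q hq).lt c).trans_le ht
    rcases ok.step hq with ⟨z, -, rfl⟩ | ⟨p, hp, ⟨w, -, rfl⟩, -⟩ | ⟨β, r, b, h1, -, -, -, h5⟩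
    · exact (h0 hl).elim
    · simpa using ih p hp (hR _ hl _ (loc_relo_prefix t p)) c
    · refine (hact t (by omega) β h1 (hR _ hl _ ?_)).elim
      rcases h5 with rfl | rfl
      · rw [loc_sub, loc_of_lab (D.lab_pA t β r)]
      · rw [loc_sub, loc_of_lab (D.lab_pB t β r)]
        split_ifs
        · exact List.prefix_rfl
        · exact up_prefix _ _

end Pool.Agent.P.MP_54474a_lc.OR
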