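import Pool.Agent.P.MP_54474a_lc.OR.Iface

/-!
Uniform stabilization and the final matching.
-/

namespace Pool.Agent.P.MP_54474a_lc.OR

open Set Filter Topology

namespace Unifx

variable {D : Dat} {s t : ℕ} {p q : Pair}

theorem desc (hDESC : S_DESC) (ok : D.Ok) (h : D.Perm s p) (ht : s ≤ t) (hq : q ∈ D.cfg t)
    {c : Bool} {y : Pt} (h1 : y ∈ cyl (pr p c)) (h2 : y ∈ cyl (pr q c)) : ∃ w, q = sub p w :=
  h.2 t ht q hq c (hDESC D ok s t c ht p h.1 q hq y h1 h2).1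

theorem perm_sub (h : D.Perm s p) (ht : s ≤ t) {w : Str} (hq : sub p w ∈ D.cfg t) :
    D.Perm t (sub p w) := by
  refine ⟨hq, fun t' ht' q hq' c hc => ?_⟩
  rw [pr_sub] at hc
  obtain ⟨w', rfl⟩ := h.2 t' (ht.trans ht') q hq' c ((List.prefix_append _ _).trans hc)
  rw [pr_sub, List.prefix_append_right_inj] at hc
  obtain ⟨w'', rfl⟩ := hc
  exact ⟨w'', (sub_sub p w w'').symm⟩

theorem cover (hPERM : S_PERM) (ok : D.Ok) (d : ℕ) (c : Bool) : ∃ n, ∀ e ≤ d,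
    ∀ y ∈ cyl (D.u c e), ∃ s < n, ∃ p, D.Perm s p ∧ y ∈ cyl (pr p c) := by
  have hK : IsCompact (⋃ e ∈ Iic d, cyl (D.u c e)) :=
    ((finite_Iic d).isClosed_biUnion fun e _ => isClosed_cyl _).isCompact
  obtain ⟨n, hn⟩ := hK.elim_directed_cover
    (fun n : ℕ => {y | ∃ s < n, ∃ p, D.Perm s p ∧ y ∈ cyl (pr p c)})
    (fun n => isOpen_iff_mem_nhds.2 fun y ⟨s, hs, p, hp, hy⟩ =>
      mem_of_superset ((isOpen_cyl _).mem_nhds hy) fun z hz => ⟨s, hs, p, hp, hz⟩)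
    (fun y hy => by
      obtain ⟨e, -, he⟩ := mem_iUnion₂.1 hy
      obtain ⟨s, p, hp, hy⟩ := hPERM D ok c e y he
      exact mem_iUnion.2 ⟨s + 1, s, s.lt_succ_self, p, hp, hy⟩)
    (Monotone.directed_le fun a b hab y ⟨s, hs, h⟩ => ⟨s, hs.trans_le hab, h⟩)
  exact ⟨n, fun e he y hy => hn (mem_iUnion₂.2 ⟨e, he, hy⟩)⟩

theorem uniq0 (hDESC : S_DESC) (ok : D.Ok) (hp : D.Perm s p) (hq : D.Perm t q) (ht : s ≤ t)
    {z z' : Pt} {c : Bool} (h : cat (pr p c) z = cat (pr q c) z') (c' : Bool) :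
    cat (pr p c') z = cat (pr q c') z' := by
  obtain ⟨w, rfl⟩ := desc hDESC ok hp ht hq.1 (cat_mem_cyl _ z) (h ▸ cat_mem_cyl _ z')
  rw [pr_sub, cat_append] at h ⊢
  rw [cat_inj h]

theorem uniq (hDESC : S_DESC) (ok : D.Ok) (y y' : Bool → Pt) (c : Bool) (h : D.Mt y)
    (h' : D.Mt y') (e : y c = y' c) : y = y' := by
  obtain ⟨s, p, z, hp, hy⟩ := h
  obtain ⟨t, q, z', hq, hy'⟩ := h'
  rw [hy, hy'] at e
  funext c'
  rw [hy, hy']
  rcases le_total s t with h | h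
  · exact uniq0 hDESC ok hp hq h e c'
  · exact (uniq0 hDESC ok hq hp h e.symm c').symm

end Unifx

open Unifx

theorem p_UNIF (hINV : S_INV) (hDESC : S_DESC) (hPERM : S_PERM) : S_UNIF := by
  intro D ok d
  choose n hn using cover hPERM ok d
  have key : ∀ t, n false + n true + d + 1 ≤ t → ∀ p ∈ D.cfg t, ∀ c, pd p c ≤ d →
      ∃ s < n false + n true + d + 1, ∃ q w, D.Perm s q ∧ p = sub q w := by
    intro t ht p hp c hc
    obtain ⟨s, hs, q, hq, hy⟩ := hn c _ hc _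
      (cyl_anti ((hINV D ok t p hp).pre c) (pt_mem_cyl _))
    have h1 : s < n false + n true + d + 1 := by cases c <;> omega
    obtain ⟨w, hw⟩ := desc hDESC ok hq (h1.le.trans ht) hp hy (pt_mem_cyl _)
    exact ⟨s, h1, q, w, hq, hw⟩
  refine ⟨n false + n true + d + 1, by omega, fun t ht p hp c hc => ?_, fun t p hp c c' hc => ?_⟩
  · obtain ⟨s, hs, q, w, hq, rfl⟩ := key t ht p hp c hc
    exact perm_sub hq (hs.le.trans ht) hp
  · rcases le_total t (n false + n true + d + 1) with ht | ht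
    · exact ((hINV D ok t p hp).lt c').trans_le ht
    · obtain ⟨s, hs, q, w, hq, rfl⟩ := key t ht p hp c hc
      rw [pd_sub]
      exact ((hINV D ok s q hq.1).lt c').trans hs

theorem p_MT (hINV : S_INV) (hDESC : S_DESC) (hPERM : S_PERM) (hUNIF : S_UNIF) : S_MT := by
  intro D ok
  have mem : ∀ {s p z} {y : Bool → Pt}, D.Perm s p → (∀ c, y c = cat (pr p c) z) → ∀ c,
      y c ∈ cyl (D.u c (pd p c)) := fun hp hy c =>
    cyl_anti ((hINV D ok _ _ hp.1).pre c) (hy c ▸ cat_mem_cyl _ _)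
  refine ⟨?_, fun c z hz => ?_, uniq hDESC ok, ?_, fun d => ?_⟩
  · rintro y ⟨s, p, z, hp, hy⟩ c
    exact (D.u_cover c _).2 ⟨_, mem hp hy c⟩
  · obtain ⟨e, he⟩ := (D.u_cover c z).1 hz
    obtain ⟨s, p, hp, hy⟩ := hPERM D ok c e z he
    obtain ⟨z', rfl⟩ := exists_cat hy
    exact ⟨fun c' => cat (pr p c') z', ⟨s, p, z', hp, fun _ => rfl⟩, rfl⟩
  · rintro y ⟨s, p, z, hp, hy⟩ c L
    refine ⟨(pr p (!c)).length + L, fun y' hy' h => ?_⟩
    have h1 : y (!c) ∈ cyl (pr p (!c)) := hy (!c) ▸ cat_mem_cyl _ _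
    obtain ⟨z', hz⟩ := exists_cat (cyl_anti (prefix_seg h1 (Nat.le_add_right _ L)) h)
    have h2 := uniq hDESC ok y' (fun c' => cat (pr p c') z') (!c) hy'
      ⟨s, p, z', hp, fun _ => rfl⟩ hz
    have h3 : ∀ i < L, z' i = z i := fun i hi => by
      have := mem_cyl_seg.1 h ((pr p (!c)).length + i) (by omega)
      rwa [hz, hy, cat_add, cat_add] at this
    refine mem_cyl_seg.2 fun i hi => ?_
    rw [h2, hy]
    simp only [cat]
    split_ifs
    · rfl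
    · exact h3 _ (by omega)
  · obtain ⟨s, -, -, hs⟩ := hUNIF D ok d
    refine ⟨s, ?_⟩
    rintro y ⟨t, p, z, hp, hy⟩ c c' e e' h h' he
    rw [D.u_disj c _ _ _ h (mem hp hy c)] at he
    rw [D.u_disj c' _ _ _ h' (mem hp hy c')]
    exact hs t p hp.1 c c' he

end Pool.Agent.P.MP_54474a_lc.OR
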