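import Pool.Agent.P.MP_54474a_lc.OR.Asm
import Pool.Agent.P.MP_54474a_lc.OR.Aut
import Pool.Agent.P.MP_54474a_lc.OR.Binv
import Pool.Agent.P.MP_54474a_lc.OR.Blue
import Pool.Agent.P.MP_54474a_lc.OR.Child
import Pool.Agent.P.MP_54474a_lc.OR.Cov
import Pool.Agent.P.MP_54474a_lc.OR.Dich
import Pool.Agent.P.MP_54474a_lc.OR.Emb
import Pool.Agent.P.MP_54474a_lc.OR.Ex
import Pool.Agent.P.MP_54474a_lc.OR.Exa
import Pool.Agent.P.MP_54474a_lc.OR.Fix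
import Pool.Agent.P.MP_54474a_lc.OR.Geo
import Pool.Agent.P.MP_54474a_lc.OR.Glue
import Pool.Agent.P.MP_54474a_lc.OR.Good
import Pool.Agent.P.MP_54474a_lc.OR.Guess
import Pool.Agent.P.MP_54474a_lc.OR.Impl
import Pool.Agent.P.MP_54474a_lc.OR.Inu
import Pool.Agent.P.MP_54474a_lc.OR.Inv
import Pool.Agent.P.MP_54474a_lc.OR.Inw
import Pool.Agent.P.MP_54474a_lc.OR.Loc
import Pool.Agent.P.MP_54474a_lc.OR.Mp
import Pool.Agent.P.MP_54474a_lc.OR.Perm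
import Pool.Agent.P.MP_54474a_lc.OR.Pure
import Pool.Agent.P.MP_54474a_lc.OR.Quiet
import Pool.Agent.P.MP_54474a_lc.OR.Res
import Pool.Agent.P.MP_54474a_lc.OR.Sg
import Pool.Agent.P.MP_54474a_lc.OR.Stack
import Pool.Agent.P.MP_54474a_lc.OR.Stuck
import Pool.Agent.P.MP_54474a_lc.OR.Top
import Pool.Agent.P.MP_54474a_lc.OR.Tr
import Pool.Agent.P.MP_54474a_lc.OR.Unif

namespace Pool.Agent.P.MP_54474a_lc.OR

open Set

theorem h_UNQ : S_UNQ := p_UNQ p_INV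
theorem h_DESC : S_DESC := p_DESC p_INV h_UNQ
theorem h_TR : S_TR := p_TR p_INV h_UNQ
theorem h_REG : S_REG := p_REG p_INV
theorem h_QUIET : S_QUIET := p_QUIET p_DICH
theorem h_FIX : S_FIX := p_FIX p_INV p_COV h_DESC h_TR p_GEO
theorem h_PURE : S_PURE := p_PURE p_INV p_COV h_UNQ h_DESC h_TR h_QUIET
theorem h_PIND : S_PIND := p_PIND p_INV p_COV h_UNQ h_DESC h_TR
theorem h_PERM : S_PERM := p_PERM p_INV h_QUIET h_PURE h_FIX h_PIND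
theorem h_UNIF : S_UNIF := p_UNIF p_INV h_DESC h_PERM
theorem h_STUCK : S_STUCK := p_STUCK p_INV h_REG h_UNIF p_BLOCK
theorem h_ROOT : S_ROOT := p_ROOT p_COV p_DICH h_STUCK
theorem h_CHILD : S_CHILD := p_CHILD p_DICH p_GEO p_CHK p_GUESS p_SIG h_STUCK
theorem h_GOOD : S_GOOD := p_GOOD p_INV p_COV h_DESC h_TR h_REG h_FIX

theorem exists_path {D : Dat} (ok : D.Ok) : ∃ f, ∀ n, D.Live (fn f n) := by
  choose g hg using h_CHILD D ok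
  let nd : ℕ → {δ // D.Live δ} := fun n =>
    Nat.rec ⟨[], h_ROOT D ok⟩ (fun _ δ => ⟨δ.1 ++ [g δ.1 δ.2], hg δ.1 δ.2⟩) n
  have key : ∀ n, fn (fun n => g (nd n).1 (nd n).2) n = (nd n).1 := fun n => by
    induction n with
    | zero => rfl
    | succ n ih => rw [fn_succ, ih]
  exact ⟨_, fun n => (key n).symm ▸ (nd n).2⟩

theorem h_ONE : S_ONE := by
  intro P Q hP hQ
  obtain ⟨I, rfl, rfl⟩ := p_INP p_INU p_INW p_INC p_EQV (p_TOP p_EQV) P Q hP hQ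
  obtain ⟨D, rfl, ok⟩ := p_IMPL I
  obtain ⟨f, hf⟩ := exists_path ok
  exact p_ASM p_MP p_LOC D.toInp f D.Mt
    (fun n => ⟨(p_GEO D ok _ (hf _)).1 (fn_ne_nil f n), (p_GEO D ok _ (hf n)).2⟩)
    (p_MT p_INV h_DESC h_PERM h_UNIF D ok) (p_ADDR p_INV h_GOOD D ok f hf)
    (p_BLUE p_INV p_COV h_UNQ h_DESC h_PERM h_UNIF p_SIG h_GOOD (p_BINV h_TR) (p_TERM h_PIND)
      D ok f hf)

theorem h_IND : S_IND := p_IND h_ONE p_EMB p_RES p_GLUE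

theorem exists_gd (k : ℕ) : ∃ P, Gd (k + 1) P := by
  obtain ⟨P, hP⟩ := p_EX p_INW (p_EXA p_STACK) p_FINB
  induction k with
  | zero => exact ⟨P, hP⟩
  | succ k ih =>
    obtain ⟨Q, hQ⟩ := ih
    obtain ⟨e, he, h1⟩ := p_EMB (cyl [true]) (isClopen_cyl _) ⟨_, pt_mem_cyl _⟩
    obtain ⟨e', he', h2⟩ := p_EMB (cyl [true])ᶜ (isClopen_cyl _).compl
      ⟨fun _ => false, by simp [cyl, seg]⟩
    exact ⟨_, p_UNI e e' _ _ Q P he he' (by rw [h1, h2]) hQ hP⟩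

theorem orbit (k : ℕ) (hk : 0 < k) : ∃ P : EPi, ∀ Q : EPi, Automorphic P Q ↔
    (Q.1.Countable ∧ (derivedSet Q.1).encard = k ∧
      ∀ F, F ⊆ Q.1 → IsPi01Jump F → ∃ C, IsClopen C ∧ F = Q.1 ∩ C) := by
  obtain ⟨k, rfl⟩ := Nat.exists_eq_succ_of_ne_zero hk.ne'
  obtain ⟨P, hP⟩ := exists_gd k
  refine ⟨⟨P, hP.1⟩, fun Q => ⟨fun h => ?_, fun h => ?_⟩⟩
  · have := (p_AUT _ Q).2 _ h hP
    exact ⟨this.2.1, this.2.2.1, (p_EQV Q.1 Q.2 this.2.1).2.2 this.2.2.2⟩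
  · exact (p_AUT _ Q).1
      (h_IND _ P Q.1 hk hP ⟨Q.2, h.1, h.2.1, (p_EQV Q.1 Q.2 h.1).2.1 h.2.2⟩)

end Pool.Agent.P.MP_54474a_lc.OR
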