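import Pool.Agent.P.MP_54474a_lc.OR.Basic

namespace Pool.Agent.P.MP_54474a_lc.OR.Dat

open Set Filter Topology

variable {D : Dat} {s t : ℕ} {β γ : Node}

theorem not_reset_actor (h : D.act s = some β) : ¬ D.Reset s β := by
  rintro ⟨γ, h1, h2⟩
  obtain rfl : β = γ := by simpa [h] using h1
  rcases h2 with h2 | ⟨-, h2⟩
  · exact Lf.irrefl _ h2
  · simpa using congrArg List.length h2

theorem not_reset_of_active (ha : D.Active s β) (h : ∀ γ, D.act s = some γ → ¬ Lf γ β) :
    ¬ D.Reset s β := by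
  rintro ⟨γ, h1, h2 | ⟨-, rfl⟩⟩
  · exact h γ h1 h2
  · exact lt_irrefl _ (active_concat.1 ha).2

/-- The four possible fates of a node at a stage. -/
theorem Ok.st_cases (ok : D.Ok) (s : ℕ) (β : Node) :
    (D.Reset s β ∧ D.k (s + 1) β = s ∧ D.m (s + 1) β = 0 ∧ D.sv (s + 1) β = false) ∨
    (¬ D.Reset s β ∧ D.k (s + 1) β = D.k s β ∧
      ((D.act s = some β ∧ D.CanS s β ∧ D.m (s + 1) β = D.m s β ∧ D.sv (s + 1) β = true) ∨
       (D.act s = some β ∧ ¬ D.CanS s β ∧ D.m (s + 1) β = D.m s β + 1 ∧ D.sv (s + 1) β = false) ∨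
       (D.act s ≠ some β ∧ D.m (s + 1) β = D.m s β ∧ D.sv (s + 1) β = D.sv s β))) := by
  by_cases h : D.Reset s β
  · exact Or.inl ⟨h, ok.st_reset s β h⟩
  refine Or.inr ⟨h, ?_⟩
  by_cases h1 : D.act s = some β
  · by_cases h2 : D.CanS s β
    · have := ok.st_serve s β h1 h2
      exact ⟨this.1, Or.inl ⟨h1, h2, this.2⟩⟩
    · have := ok.st_adv s β h1 h2
      exact ⟨this.1, Or.inr (Or.inl ⟨h1, h2, this.2⟩)⟩
  · have := ok.st_other s β h1 h
    exact ⟨this.1, Or.inr (Or.inr ⟨h1, this.2⟩)⟩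

theorem Ok.m_le (ok : D.Ok) (s : ℕ) (β : Node) : D.m s β ≤ s := by
  induction s with
  | zero => exact (ok.st0 β).2.1.le
  | succ s ih => rcases ok.st_cases s β with h | ⟨-, -, h | h | h⟩ <;> omega

theorem Ok.k_le (ok : D.Ok) (s : ℕ) (β : Node) : D.k s β ≤ s := by
  induction s with
  | zero => exact (ok.st0 β).1.le
  | succ s ih => rcases ok.st_cases s β with h | h <;> omega

theorem Ok.k_mono (ok : D.Ok) (β : Node) (h : s ≤ t) : D.k s β ≤ D.k t β := by
  induction t, h using Nat.le_induction with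
  | base => rfl
  | succ t _ ih => have := ok.k_le t β; rcases ok.st_cases t β with h | h <;> omega

theorem Ok.m_le_succ (ok : D.Ok) (h : ¬ D.Reset s β) :
    D.m s β ≤ D.m (s + 1) β ∧ D.k (s + 1) β = D.k s β := by
  rcases ok.st_cases s β with h' | ⟨-, h1, h' | h' | h'⟩
  · exact (h h'.1).elim
  all_goals omega

theorem Ok.ent (ok : D.Ok) (ha : D.Active s β) : ∀ i ∈ β, i < s := by
  intro i hi
  obtain ⟨a, b, rfl⟩ := List.append_of_mem hi
  exact (ha a i ⟨b, by simp⟩).trans_le (ok.m_le s a)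

theorem Ok.keep (ok : D.Ok) (ha : D.Active s β) (h : ∀ γ, D.act s = some γ → ¬ Lf γ β) :
    D.Active (s + 1) β := fun δ i hi => by
  have h1 : δ <+: β := (List.prefix_append _ _).trans hi
  exact (ha δ i hi).trans_le (ok.m_le_succ (not_reset_of_active (ha.pre h1)
    fun γ hγ hl => h γ hγ (hl.mono List.prefix_rfl h1))).1

/-- The prefixes of the node that acts stay active. -/
theorem Ok.keep_actor (ok : D.Ok) (h : D.act s = some β) (h' : γ <+: β) :
    D.Active (s + 1) γ ∧ D.k (s + 1) γ = D.k s γ := by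
  have h1 : ∀ δ, D.act s = some δ → ¬ Lf δ γ := fun δ hδ hl => by
    obtain rfl : β = δ := by simpa [h] using hδ
    exact hl.not_prefix' h'
  have h2 := (ok.active h).pre h'
  exact ⟨ok.keep h2 h1, (ok.m_le_succ (not_reset_of_active h2 h1)).2⟩

theorem Ok.back (ok : D.Ok) (ha : D.Active (s + 1) β) :
    D.Active s β ∨ ∃ γ, D.act s = some γ ∧ ¬ D.CanS s γ ∧ β = γ ++ [D.m s γ] := by
  induction β using List.reverseRecOn with
  | nil => exact Or.inl active_nil
  | append_singleton δ i ih =>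
    obtain ⟨h1, h2⟩ := active_concat.1 ha
    rcases ih h1 with h3 | ⟨γ, h3, h4, h5⟩
    · rcases ok.st_cases s δ with h | ⟨-, -, h | h | h⟩
      · omega
      · exact Or.inl (active_concat.2 ⟨h3, by omega⟩)
      · rcases Nat.lt_succ_iff_lt_or_eq.1 (h.2.2.1 ▸ h2) with h' | h'
        · exact Or.inl (active_concat.2 ⟨h3, h'⟩)
        · exact Or.inr ⟨δ, h.1, h.2.1, by rw [h']⟩
      · exact Or.inl (active_concat.2 ⟨h3, by omega⟩)
    · have := (ok.st_reset s δ ⟨γ, h3, Or.inr ⟨h4, h5⟩⟩).2.1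
      omega

theorem Ok.back' (ok : D.Ok) (ha : D.Active (s + 1) β) (h : ¬ D.Reset s β) : D.Active s β :=
  (ok.back ha).resolve_right fun ⟨γ, h1, h2⟩ => h ⟨γ, h1, Or.inr h2⟩

theorem Ok.active_zero (ok : D.Ok) (ha : D.Active 0 β) : β = [] := by
  cases β with
  | nil => rfl
  | cons i l => exact absurd (ok.ent ha i (by simp)) (by omega)

theorem Ok.len_le (ok : D.Ok) (ha : D.Active s β) : β.length ≤ s := by
  induction s generalizing β with
  | zero => simp [ok.active_zero ha]
  | succ s ih =>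
    rcases ok.back ha with h | ⟨γ, h, -, rfl⟩
    · exact (ih h).trans (Nat.le_succ s)
    · simpa using ih (ok.active h)

theorem Ok.finite_active (ok : D.Ok) (s : ℕ) : {β | D.Active s β}.Finite := by
  induction s with
  | zero => exact (finite_singleton []).subset fun β h => ok.active_zero h
  | succ s ih =>
    refine (ih.union (ih.image fun γ => γ ++ [D.m s γ])).subset fun β h => ?_
    rcases ok.back h with h1 | ⟨γ, h1, -, h2⟩
    · exact Or.inl h1
    · exact Or.inr ⟨γ, ok.active h1, h2.symm⟩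

theorem reset_concat {i : ℕ} (ha : D.Active s β) (h : D.Reset s β) : D.Reset s (β ++ [i]) := by
  by_contra hc
  refine not_reset_of_active ha (fun γ hγ hl => hc ⟨γ, hγ, Or.inl ?_⟩) h
  exact hl.mono List.prefix_rfl (List.prefix_append _ _)

theorem Ok.child (ok : D.Ok) {i : ℕ} (ha : D.Active s (β ++ [i])) :
    D.m s (β ++ [i]) < D.m s β ∧ D.k s β ≤ D.k s (β ++ [i]) := by
  induction s with
  | zero => simpa using ok.active_zero ha
  | succ s ih =>
    have h0 := (active_concat.1 ha).2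
    rcases ok.st_cases s (β ++ [i]) with h | ⟨hr, hk, h⟩
    · have := ok.k_le s β
      rcases ok.st_cases s β with h' | h' <;> omega
    · have ha' := ok.back' ha hr
      have hr' : ¬ D.Reset s β := fun h' => hr (reset_concat (active_concat.1 ha').1 h')
      have h1 := ih ha'
      have h2 := ok.m_le_succ hr'
      rcases h with h | h | h
      · omega
      · have := ((ok.canA h.1 h.2.1).2.2.1.resolve_left (by simp)).1
        rw [up_concat] at this
        omega
      · omega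

theorem Ok.pre_le (ok : D.Ok) (ha : D.Active s β) (h : γ <+: β) :
    D.m s β + (β.length - γ.length) ≤ D.m s γ ∧ D.k s γ ≤ D.k s β := by
  induction β using List.reverseRecOn with
  | nil => obtain rfl : γ = [] := by simpa using h
           simp
  | append_singleton δ i ih =>
    rcases List.prefix_concat_iff.1 h with rfl | e
    · simp
    · have h1 := ih (active_concat.1 ha).1 e
      have h2 := ok.child ha
      have h3 := e.length_le
      simp only [List.length_append, List.length_singleton]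
      omega

theorem Ok.k_pre (ok : D.Ok) (ha : D.Active s β) (h : γ <+: β) : D.k s γ ≤ D.k s β :=
  (ok.pre_le ha h).2

theorem Ok.m_pre (ok : D.Ok) (ha : D.Active s β) (h : γ <+: β) : D.m s β ≤ D.m s γ := by
  have := (ok.pre_le ha h).1; omega

theorem Ok.m_pre_lt (ok : D.Ok) (ha : D.Active s β) (h : γ <+: β) (hne : γ ≠ β) :
    D.m s β < D.m s γ := by
  have h1 := (ok.pre_le ha h).1
  have h2 := h.length_le
  have h3 : γ.length ≠ β.length := fun e => hne (h.eq_of_length e)
  omega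

/-- A supply pair is not a target. -/
theorem Ok.not_tgt_sup (ok : D.Ok) (ha : D.Active s β) {p : Pair}
    (h : D.Sup s β p) : ¬ D.Tgt s β p := by
  rintro ⟨-, -, ⟨c, hc⟩, -⟩
  have h1 := (h.2.1 c).2
  have h2 := ok.m_pre ha (D.srv_prefix s β)
  omega

theorem Ok.calm (ok : D.Ok) (ha : D.Active s β) (hc : D.Calm s β) (h : s ≤ t) :
    D.Active t β ∧ D.k t β = D.k s β := by
  induction t, h using Nat.le_induction with
  | base => exact ⟨ha, rfl⟩
  | succ t ht ih =>
    exact ⟨ok.keep ih.1 (hc t ht),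
      (ok.m_le_succ (not_reset_of_active ih.1 (hc t ht))).2.trans ih.2⟩

theorem Ok.calm_not_reset (ok : D.Ok) (ha : D.Active s β) (hc : D.Calm s β) (h : s ≤ t) :
    ¬ D.Reset t β := not_reset_of_active (ok.calm ha hc h).1 (hc t h)

theorem Ok.calm_m_mono (ok : D.Ok) (ha : D.Active s β) (hc : D.Calm s β) {t' : ℕ} (h : s ≤ t)
    (h' : t ≤ t') : D.m t β ≤ D.m t' β := by
  induction t', h' using Nat.le_induction with
  | base => rfl
  | succ t' ht ih => exact ih.trans (ok.m_le_succ (ok.calm_not_reset ha hc (h.trans ht))).1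

/-- A live node is eventually active, calm, with constant `k` and large `m`. -/
theorem Ok.live_ev (ok : D.Ok) (h : D.Live β) (M : ℕ) : ∃ s, M ≤ s ∧ D.Calm s β ∧
    ∀ t, s ≤ t → D.Active t β ∧ D.k t β = D.k s β ∧ M ≤ D.m t β := by
  obtain ⟨s, ha, hc, hm⟩ := h
  obtain ⟨t, ht, hM⟩ := hm M
  refine ⟨t, hM.trans (ok.m_le t β), hc.mono ht, fun t' ht' => ?_⟩
  have h1 := ok.calm ha hc (ht.trans ht')
  exact ⟨h1.1, h1.2.trans (ok.calm ha hc ht).2.symm, hM.trans (ok.calm_m_mono ha hc ht ht')⟩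

theorem Ok.live_pre (ok : D.Ok) (h : D.Live β) (h' : γ <+: β) : D.Live γ := by
  obtain ⟨s, ha, hc, hm⟩ := h
  refine ⟨s, ha.pre h', hc.pre h', fun M => ?_⟩
  obtain ⟨t, ht, hM⟩ := hm M
  exact ⟨t, ht, hM.trans (ok.m_pre (ok.calm ha hc ht).1 h')⟩

/-- After any stage, a live node advances from every large value. -/
theorem Ok.live_adv (ok : D.Ok) (h : D.Live β) (M : ℕ) : ∃ n0, ∀ n, n0 ≤ n →
    ∃ t, M ≤ t ∧ D.act t = some β ∧ ¬ D.CanS t β ∧ D.m t β = n := by
  classical
  obtain ⟨s, hs, hc, H⟩ := ok.live_ev h M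
  refine ⟨D.m s β, fun n hn => ?_⟩
  obtain ⟨s', hs', -, H'⟩ := ok.live_ev h (n + 1 + s)
  have hex : ∃ t, n < D.m (s + t) β := ⟨s' - s, by
    have := (H' s' le_rfl).2.2
    rw [show s + (s' - s) = s' by omega]; omega⟩
  have h1 := Nat.find_spec hex
  obtain ⟨r, hr⟩ : ∃ r, Nat.find hex = r + 1 := by
    cases e : Nat.find hex with
    | zero => rw [e] at h1; simp at h1; omega
    | succ r => exact ⟨r, rfl⟩
  have h2 := Nat.find_min hex (show r < Nat.find hex by omega)
  rw [hr, ← Nat.add_assoc] at h1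
  rcases ok.st_cases (s + r) β with h3 | ⟨-, -, h3 | h3 | h3⟩
  · omega
  · omega
  · exact ⟨s + r, by omega, h3.1, h3.2.1, by omega⟩
  · omega

theorem Ok.live_acts (ok : D.Ok) (h : D.Live β) (M : ℕ) :
    ∃ t, M ≤ t ∧ D.act t = some β ∧ ¬ D.CanS t β ∧ M ≤ D.m t β := by
  obtain ⟨n0, H⟩ := ok.live_adv h M
  obtain ⟨t, h1, h2, h3, h4⟩ := H (n0 + M) (by omega)
  exact ⟨t, h1, h2, h3, by omega⟩

/-- Nodes extending a calm and still node are frozen and cannot act. -/
theorem Ok.frozen (ok : D.Ok) (ha : D.Active s β) (hc : D.Calm s β) (hs : D.Still s β)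
    (h : β <+: γ) (ht : s ≤ t) :
    D.k t γ = D.k s γ ∧ D.m t γ = D.m s γ ∧ D.sv t γ = D.sv s γ := by
  induction t, ht using Nat.le_induction with
  | base => exact ⟨rfl, rfl, rfl⟩
  | succ t ht ih =>
    have h1 : ¬ D.Reset t γ := by
      rintro ⟨δ, h1, h2 | ⟨h2, h3⟩⟩
      · rcases h2.of_prefix_right h with h3 | h3
        · exact hc t ht δ h1 h3
        · exact hs t ht δ h1 h3
      · rw [h3] at h
        rcases List.prefix_concat_iff.1 h with e | e
        · exact ok.calm_not_reset ha hc ht ⟨δ, h1, Or.inr ⟨h2, e⟩⟩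
        · exact hs t ht δ h1 e
    have h2 := ok.st_other t γ (fun e => hs t ht γ e h) h1
    exact ⟨h2.1.trans ih.1, h2.2.1.trans ih.2.1, h2.2.2.trans ih.2.2⟩

theorem Ok.frozen_active (ok : D.Ok) (ha : D.Active s β) (hc : D.Calm s β) (hs : D.Still s β)
    (h : β <+: γ) (ht : s ≤ t) : D.Active t γ ↔ D.Active s γ := by
  induction γ using List.reverseRecOn with
  | nil => simp [active_nil]
  | append_singleton δ i ih =>
    rcases List.prefix_concat_iff.1 h with e | e
    · rw [← e]; simp [ha, (ok.calm ha hc ht).1]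
    · rw [active_concat, active_concat, ih e, (ok.frozen ha hc hs e ht).2.1]

theorem Ok.frozen_not_can (ok : D.Ok) (hc : D.Calm s β) (hs : D.Still s β)
    (h : β <+: γ) (ht : s ≤ t) : ¬ D.Can t γ := by
  intro hcan
  obtain ⟨δ, h1, h2 | h2⟩ := ok.actor hcan
  · exact hs t ht δ h1 (h.trans h2)
  · rcases h2.of_prefix_right h with h3 | h3
    · exact hc t ht δ h1 h3
    · exact hs t ht δ h1 h3

end Pool.Agent.P.MP_54474a_lc.OR.Dat
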