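import Pool.Agent.P.MP_54474a_lc.OR.Iface

namespace Pool.Agent.P.MP_54474a_lc.OR

open Set Filter Topology

theorem p_PIND (hINV : S_INV) (hCOV : S_COV) (hUNQ : S_UNQ) (hDESC : S_DESC) (hTR : S_TR) :
    S_PIND := by
  intro D ok s p hp hcalm H
  refine ⟨hp, fun t ht => ?_⟩
  induction t, ht using Nat.le_induction with
  | base =>
    intro q hq c hpre
    exact ⟨[], by
      rw [sub_nil]
      exact (hUNQ D ok s c p hp q hq _ (cyl_anti hpre (pt_mem_cyl _)) (pt_mem_cyl _)).symm⟩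
  | succ t ht ih =>
    intro q hq c hpre
    have y1 : pt (pr q c) ∈ cyl (pr q c) := pt_mem_cyl _
    have y2 : pt (pr q c) ∈ cyl (pr p c) := cyl_anti hpre y1
    have inv := hINV D ok s p hp
    obtain ⟨r, hr, y3⟩ := hCOV D ok t c (pd p c) _ ((inv.lt c).trans_le ht)
      (cyl_anti (inv.pre c) y2)
    obtain ⟨w, rfl⟩ := ih r hr c (hDESC D ok s t c ht p hp r hr _ y2 y3).1
    have hs : D.Succ t c (sub p w) q :=
      ⟨hr, hq, (hDESC D ok t (t + 1) c (Nat.le_succ t) _ hr q hq _ y3 y1).1⟩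
    rcases hTR D ok t c _ q hs with ⟨⟨w', -, e⟩, -⟩ | ⟨β, r, b, h1, h2, -, h4, h5⟩
    · rw [Dat.relo_eq (p := sub p w) fun β hβ => hcalm t ht β hβ, sub_sub] at e
      exact ⟨_, e⟩
    · have h6 := H t ht w β hr h1 h2
      have h7 := (ok.sup_mem t β h1 h2).2
      rcases h5 with ⟨-, ⟨-, e⟩ | ⟨-, e⟩⟩ | ⟨-, ⟨-, e⟩ | ⟨-, e⟩⟩
      · exact (h6.2 (e ▸ h7)).elim
      · exact (h6.1 (e ▸ h4)).elim
      · exact (h6.1 (e ▸ h4)).elim
      · exact (h6.2 (e ▸ h7)).elim

theorem p_TERM (hPIND : S_PIND) : S_TERM := by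
  intro D ok s p hp htag hcalm
  refine hPIND D ok s p hp hcalm fun t ht w β _ h1 _ => ⟨fun h => ?_, fun h => ?_⟩
  · have := tag_of_lab h.1
    rw [tag_sub, htag, Dat.tlab] at this
    split_ifs at this <;> simp at this
  · have := h.1
    rw [rel_of_not (p := sub p w) (hcalm t ht β h1)] at this
    have := tag_of_lab this
    rw [tag_sub, htag] at this
    simp at this

theorem p_PERM (hINV : S_INV) (hQUIET : S_QUIET) (hPURE : S_PURE) (hFIX : S_FIX)
    (hPIND : S_PIND) : S_PERM := by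
  intro D ok c d y hy
  obtain ⟨t1, -, hq⟩ := hQUIET D ok d
  obtain ⟨s, hs, p, hp⟩ := hPURE D ok c d y t1 hy
  have inv := hINV D ok s p hp.1
  have hd : pd p c = d := D.u_disj c _ _ y (cyl_anti (inv.pre c) hp.2.1) hy
  refine ⟨s, p, hPIND D ok s p hp.1 (hq s hs _ inv.act (hd ▸ inv.kle c)).1
    fun t ht w β _ h1 h2 => ⟨fun h => ?_, fun h => ?_⟩, hp.2.1⟩
  · have k1 : ∀ c', D.k t β ≤ pd p c' := fun c' => by simpa using h.2.1 c'
    obtain ⟨a1, -, a2⟩ := hq t (hs.trans ht) β h2.1 (hd ▸ k1 c)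
    refine hFIX D ok β s p c y (a2 h1).1 h2.2.1 hp ?_ fun t' c' => le_trans ?_ (k1 c')
    · have := h.1
      rw [lab_sub, Dat.tlab] at this
      split_ifs at this
      · exact Or.inl this
      · exact Or.inr this
    · rcases le_total t' t with h' | h'
      · exact ok.k_mono β h'
      · exact (ok.calm h2.1 a1 h').2.le
  · have k1 := h.2.1 c
    rw [pd_sub, hd] at k1
    have := ((hq t (hs.trans ht) β h2.1 k1.1).2.2 h1).2 _ (D.srv_prefix t β)
    omega

end Pool.Agent.P.MP_54474a_lc.OR
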